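import Mathlib
import Pool.Agent.Lib_helper13.APT.Defs

set_option autoImplicit false

namespace Pool.Agent.APT

open Finset

theorem LA_prime {z : ℕ} {D : Finset ℕ} (hD : D ⊆ Pz z) {q : ℕ} (hq : q ∈ D) : q.Prime := by
  have := hD hq
  unfold Pz at this
  exact (Finset.mem_filter.1 this).2

theorem LA_class (a b : ℕ) {P : ℕ} (hP : 0 < P) (hc : Nat.Coprime a P) :
    ∃ r : ℕ, ∀ t, P ∣ a * t + b ↔ t ≡ r [MOD P] := by
  obtain ⟨a', ha'⟩ : ∃ a' : ℕ, a * a' ≡ 1 [MOD P] := by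
    rcases Nat.lt_or_ge 1 P with h1 | h1
    · obtain ⟨m, -, hm⟩ := Nat.exists_mul_mod_eq_one_of_coprime hc h1
      refine ⟨m, ?_⟩
      change a * m % P = 1 % P
      rw [hm, Nat.mod_eq_of_lt h1]
    · have : P = 1 := by omega
      subst this
      exact ⟨0, Nat.modEq_one⟩
  refine ⟨a' * ((P - 1) * b), fun t => ?_⟩
  have h1 : a * (a' * ((P - 1) * b)) + b ≡ 0 [MOD P] := by
    have e1 : a * a' * ((P - 1) * b) ≡ 1 * ((P - 1) * b) [MOD P] := Nat.ModEq.mul_right _ ha'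
    have e2 : (P - 1) * b + b = P * b := by
      obtain ⟨m, rfl⟩ : ∃ m, P = m + 1 := ⟨P - 1, by omega⟩
      simp
      ring
    calc a * (a' * ((P - 1) * b)) + b = a * a' * ((P - 1) * b) + b := by ring
      _ ≡ 1 * ((P - 1) * b) + b [MOD P] := e1.add_right b
      _ = P * b := by rw [one_mul, e2]
      _ ≡ 0 [MOD P] := by
        rw [Nat.modEq_zero_iff_dvd]
        exact Dvd.intro b rfl
  constructor
  · intro h
    have h2 : a * t + b ≡ 0 [MOD P] := (Nat.modEq_zero_iff_dvd).2 h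
    have h3 : a * t + b ≡ a * (a' * ((P - 1) * b)) + b [MOD P] := h2.trans h1.symm
    have h4 := Nat.ModEq.add_right_cancel' b h3
    exact Nat.ModEq.cancel_left_of_coprime (Nat.Coprime.symm hc) h4
  · intro h
    have h2 : a * t + b ≡ a * (a' * ((P - 1) * b)) + b [MOD P] :=
      (Nat.ModEq.mul_left a h).add_right b
    exact (Nat.modEq_zero_iff_dvd).1 (h2.trans h1)

theorem LA_count (s X r : ℕ) {P : ℕ} (hP : 0 < P) :
    |(((Ico s (s + X)).filter (fun t => t ≡ r [MOD P])).card : ℝ) - X * (1 / (P : ℝ))| ≤ 1 := by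
  have h := Nat.Ico_filter_modEq_card s (s + X) hP r
  set c := ((Ico s (s + X)).filter (fun t => t ≡ r [MOD P])).card with hc
  have hPq : (0 : ℚ) < P := by exact_mod_cast hP
  set A : ℚ := ((s : ℚ) - r) / P with hA
  set B : ℚ := (((s + X : ℕ) : ℚ) - r) / P with hB
  have hAB : B = A + X / P := by
    rw [hA, hB]
    push_cast
    ring
  have a1 := Int.le_ceil A
  have a2 := Int.ceil_lt_add_one A
  have b1 := Int.le_ceil B
  have b2 := Int.ceil_lt_add_one B
  have hX : (0 : ℚ) ≤ X / P := div_nonneg (Nat.cast_nonneg _) hPq.le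
  have hq : |(c : ℚ) - X * (1 / (P : ℚ))| ≤ 1 := by
    have e : (X : ℚ) * (1 / (P : ℚ)) = X / P := by ring
    rw [e]
    have hcc : (c : ℚ) = max ((⌈B⌉ : ℚ) - (⌈A⌉ : ℚ)) 0 := by
      have : ((c : ℤ) : ℚ) = ((max (⌈B⌉ - ⌈A⌉) 0 : ℤ) : ℚ) := by rw [h]
      push_cast at this
      exact this
    rw [hcc, abs_le]
    rcases max_cases ((⌈B⌉ : ℚ) - (⌈A⌉ : ℚ)) 0 with ⟨h1, h2⟩ | ⟨h1, h2⟩
    · rw [h1]
      constructor <;> linarith
    · rw [h1]
      constructor <;> linarith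
  have hr : |(((c : ℚ) - X * (1 / (P : ℚ)) : ℚ) : ℝ)| ≤ 1 := by
    rw [← Rat.cast_abs]
    exact_mod_cast hq
  push_cast at hr
  exact hr

/-- LA: one linear form -/
theorem lin_SV_pr (a b s X z : ℕ) (ha : ∀ q ∈ Pz z, ¬ q ∣ a) :
    SV (Ico s (s + X)) (fun q t => q ∣ a * t + b) X one z := by
  classical
  intro D hD
  have hpr : ∀ q ∈ D, q.Prime := fun q hq => LA_prime hD hq
  have hP : 0 < ∏ q ∈ D, q := Finset.prod_pos fun q hq => (hpr q hq).pos
  have hcop : Nat.Coprime a (∏ q ∈ D, q) :=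
    Nat.Coprime.prod_right fun q hq =>
      ((hpr q hq).coprime_iff_not_dvd.2 (ha q (hD hq))).symm
  obtain ⟨r, hr⟩ := LA_class a b hP hcop
  have hiff : ∀ t, (∀ q ∈ D, q ∣ a * t + b) ↔ t ≡ r [MOD ∏ q ∈ D, q] := by
    intro t
    rw [← hr t]
    constructor
    · intro h
      exact Finset.prod_primes_dvd _ (fun q hq => (hpr q hq).prime) h
    · intro h q hq
      exact (Finset.dvd_prod_of_mem _ hq).trans h
  have e1 : ((Ico s (s + X)).filter (fun t => ∀ q ∈ D, q ∣ a * t + b)) =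
      (Ico s (s + X)).filter (fun t => t ≡ r [MOD ∏ q ∈ D, q]) := by
    apply Finset.filter_congr
    intro t _
    exact hiff t
  have e2 : ∏ q ∈ D, ((one q : ℕ) : ℝ) / q = 1 / ((∏ q ∈ D, q : ℕ) : ℝ) := by
    rw [Finset.prod_div_distrib]
    simp [one]
  have e3 : ∏ q ∈ D, ((one q : ℕ) : ℝ) = 1 := by
    simp [one]
  have key := LA_count s X r hP
  rw [e2, e3]
  have e4 : (((Ico s (s + X)).filter (fun t => ∀ q ∈ D, q ∣ a * t + b)).card : ℝ) =
      (((Ico s (s + X)).filter (fun t => t ≡ r [MOD ∏ q ∈ D, q])).card : ℝ) := by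
    rw [e1]
  rw [← e4] at key
  convert key using 4
  refine congrArg Finset.card ?_
  ext t
  simp

end Pool.Agent.APT

namespace Pool.Agent.APT

theorem lin_SV : type_of% @lin_SV_pr := @lin_SV_pr

end Pool.Agent.APT
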