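import Mathlib
import Pool.Agent.Lib_helper13.APT.Defs

namespace Pool.Agent.APT

open Finset

theorem sa_root (N : ℕ) (hN : N = 6 ^ 10) (q : ℕ) (hq : N ≤ q) :
    (6 : ℝ) ≤ (q : ℝ) ^ (1 / 10 : ℝ) := by
  have h1 : ((6 : ℝ) ^ (10 : ℕ)) ≤ (q : ℝ) := by
    rw [hN] at hq
    exact_mod_cast hq
  have h2 : (6 : ℝ) = (((6 : ℝ) ^ (10 : ℕ))) ^ (1 / 10 : ℝ) := by
    rw [← Real.rpow_natCast, ← Real.rpow_mul (by norm_num)]
    norm_num
  calc (6 : ℝ) = (((6 : ℝ) ^ (10 : ℕ))) ^ (1 / 10 : ℝ) := h2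
    _ ≤ (q : ℝ) ^ (1 / 10 : ℝ) := Real.rpow_le_rpow (by positivity) h1 (by norm_num)

theorem sa_bound (N : ℕ) (hN : N = 6 ^ 10) (d : ℕ) (hd : 0 < d) :
    (6 : ℝ) ^ d.primeFactors.card ≤ 6 ^ N * (d : ℝ) ^ (1 / 10 : ℝ) := by
  classical
  have h1 : d.primeFactors.card = (d.primeFactors.filter (fun q => q < N)).card
      + (d.primeFactors.filter (fun q => ¬ q < N)).card :=
    (Finset.card_filter_add_card_filter_not _).symm
  have h2 : (d.primeFactors.filter (fun q => q < N)).card ≤ N := by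
    have : d.primeFactors.filter (fun q => q < N) ⊆ Finset.range N := by
      intro q hq
      rw [Finset.mem_filter] at hq
      exact Finset.mem_range.2 hq.2
    exact (Finset.card_le_card this).trans (by rw [Finset.card_range])
  have h3 : (6 : ℝ) ^ (d.primeFactors.filter (fun q => ¬ q < N)).card
      ≤ ∏ q ∈ d.primeFactors.filter (fun q => ¬ q < N), (q : ℝ) ^ (1 / 10 : ℝ) := by
    rw [← Finset.prod_const]
    apply Finset.prod_le_prod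
    · intro q _; norm_num
    · intro q hq
      rw [Finset.mem_filter] at hq
      exact sa_root N hN q (by omega)
  have h4 : ∏ q ∈ d.primeFactors.filter (fun q => ¬ q < N), (q : ℝ) ^ (1 / 10 : ℝ)
      ≤ ∏ q ∈ d.primeFactors, (q : ℝ) ^ (1 / 10 : ℝ) := by
    apply Finset.prod_le_prod_of_subset_of_one_le (Finset.filter_subset _ _)
    · intro q _; positivity
    · intro q hq _
      have hq1 : (1 : ℝ) ≤ q := by
        exact_mod_cast (Nat.prime_of_mem_primeFactors hq).one_lt.le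
      exact Real.one_le_rpow hq1 (by norm_num)
  have h5 : ∏ q ∈ d.primeFactors, (q : ℝ) ^ (1 / 10 : ℝ)
      = (∏ q ∈ d.primeFactors, (q : ℝ)) ^ (1 / 10 : ℝ) := by
    rw [← Real.finsetProd_rpow]
    intro q _; positivity
  have h6 : (∏ q ∈ d.primeFactors, (q : ℝ)) ≤ d := by
    have := Nat.le_of_dvd hd (Nat.prod_primeFactors_dvd d)
    rw [← Nat.cast_prod]
    exact Nat.cast_le.2 this
  have h7 : (∏ q ∈ d.primeFactors, (q : ℝ)) ^ (1 / 10 : ℝ) ≤ (d : ℝ) ^ (1 / 10 : ℝ) :=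
    Real.rpow_le_rpow (by positivity) h6 (by norm_num)
  have h8 : (6 : ℝ) ^ (d.primeFactors.filter (fun q => q < N)).card ≤ 6 ^ N :=
    pow_le_pow_right₀ (by norm_num) h2
  rw [h1, pow_add]
  apply mul_le_mul h8 _ (by positivity) (by positivity)
  exact h3.trans (h4.trans (h5.le.trans h7))

theorem omega_sum_pr : ∃ C : ℝ, 1 ≤ C ∧ ∀ R : ℝ, 1 ≤ R →
    ∑ d ∈ Icc 1 ⌊R ^ 2⌋₊, (6 : ℝ) ^ d.primeFactors.card ≤ C * R ^ (11 / 5 : ℝ) := by
  obtain ⟨N, hN⟩ : ∃ N : ℕ, N = 6 ^ 10 := ⟨_, rfl⟩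
  refine ⟨6 ^ N, one_le_pow₀ (by norm_num), ?_⟩
  intro R hR
  have hR0 : 0 < R := by linarith
  have h1 : ∀ d ∈ Icc 1 ⌊R ^ 2⌋₊, (6 : ℝ) ^ d.primeFactors.card
      ≤ 6 ^ N * (R ^ 2) ^ (1 / 10 : ℝ) := by
    intro d hd
    rw [Finset.mem_Icc] at hd
    refine (sa_bound N hN d hd.1).trans ?_
    apply mul_le_mul_of_nonneg_left _ (by positivity)
    apply Real.rpow_le_rpow (by positivity) _ (by norm_num)
    exact (Nat.le_floor_iff (by positivity)).1 hd.2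
  refine (Finset.sum_le_sum h1).trans ?_
  rw [Finset.sum_const, Nat.card_Icc, nsmul_eq_mul]
  have h2 : ((⌊R ^ 2⌋₊ + 1 - 1 : ℕ) : ℝ) ≤ R ^ 2 := by
    rw [Nat.add_sub_cancel]
    exact Nat.floor_le (by positivity)
  have h3 : (R ^ 2) ^ (1 / 10 : ℝ) = R ^ (1 / 5 : ℝ) := by
    rw [← Real.rpow_natCast, ← Real.rpow_mul hR0.le]
    norm_num
  have h4 : R ^ (11 / 5 : ℝ) = R ^ 2 * R ^ (1 / 5 : ℝ) := by
    rw [← Real.rpow_natCast, ← Real.rpow_add hR0]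
    norm_num
  rw [h3, h4]
  have h5 : (0 : ℝ) ≤ 6 ^ N * R ^ (1 / 5 : ℝ) := by positivity
  calc ((⌊R ^ 2⌋₊ + 1 - 1 : ℕ) : ℝ) * (6 ^ N * R ^ (1 / 5 : ℝ))
      ≤ R ^ 2 * (6 ^ N * R ^ (1 / 5 : ℝ)) := mul_le_mul_of_nonneg_right h2 h5
    _ = 6 ^ N * (R ^ 2 * R ^ (1 / 5 : ℝ)) := by ring

end Pool.Agent.APT

namespace Pool.Agent.APT

theorem omega_sum : type_of% @omega_sum_pr := @omega_sum_pr

end Pool.Agent.APT
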