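import Mathlib
import Pool.Agent.Lib_helper13.APT.Defs
import Pool.Agent.Lib_helper10.T2F.SLW

set_option autoImplicit false

namespace Pool.Agent.APT

open Finset

theorem SB_prime {z q : ℕ} (hq : q ∈ Pz z) : q.Prime := by
  unfold Pz at hq
  exact (Finset.mem_filter.1 hq).2

theorem SB_h {ν : ℕ → ℕ} (hν : NU ν) {q : ℕ} (hq : q.Prime) :
    0 < (ν q : ℝ) / q ∧ (ν q : ℝ) / q < 1 := by
  obtain ⟨h1, h2, h3⟩ := hν q
  have hq0 : (0 : ℝ) < q := by exact_mod_cast hq.pos
  refine ⟨div_pos (by exact_mod_cast h1) hq0, ?_⟩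
  rw [div_lt_one hq0]
  have : ν q < q := by
    rcases eq_or_ne q 2 with h | h
    · rw [h3 h, h]; norm_num
    · have := hq.two_le
      omega
  exact_mod_cast this

/-- product of the primes which hit `a` -/
noncomputable def SB_n {ι : Type} (E : ℕ → ι → Prop) (z : ℕ) (a : ι) : ℕ := by
  classical
  exact ∏ q ∈ (Pz z).filter (fun q => E q a), q

theorem SB_n_pos {ι : Type} (E : ℕ → ι → Prop) (z : ℕ) (a : ι) : 1 ≤ SB_n E z a := by
  classical
  unfold SB_n
  exact Nat.one_le_iff_ne_zero.2 (Finset.prod_ne_zero_iff.2 fun q hq =>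
    (SB_prime (Finset.mem_filter.1 hq).1).ne_zero)

theorem SB_n_dvd {ι : Type} (E : ℕ → ι → Prop) (z : ℕ) (a : ι) {q : ℕ} (hq : q.Prime) :
    q ∣ SB_n E z a ↔ q ∈ Pz z ∧ E q a := by
  classical
  unfold SB_n
  rw [hq.prime.dvd_finsetProd_iff]
  constructor
  · rintro ⟨r, hr, hqr⟩
    rw [Finset.mem_filter] at hr
    have : q = r := (Nat.prime_dvd_prime_iff_eq hq (SB_prime hr.1)).1 hqr
    rw [this]
    exact hr
  · rintro ⟨h1, h2⟩
    exact ⟨q, Finset.mem_filter.2 ⟨h1, h2⟩, dvd_rfl⟩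

theorem SB_dvd {ι : Type} (E : ℕ → ι → Prop) (z : ℕ) (a : ι) {d : ℕ} (hd : Squarefree d)
    (hz : ∀ p : ℕ, p.Prime → p ∣ d → p ∈ Pz z) :
    d ∣ SB_n E z a ↔ ∀ q ∈ d.primeFactors, E q a := by
  constructor
  · intro h q hq
    have hqp := Nat.prime_of_mem_primeFactors hq
    exact ((SB_n_dvd E z a hqp).1 ((Nat.dvd_of_mem_primeFactors hq).trans h)).2
  · intro h
    rw [← Nat.prod_primeFactors_of_squarefree hd]
    refine Finset.prod_primes_dvd _ (fun q hq => (Nat.prime_of_mem_primeFactors hq).prime) ?_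
    intro q hq
    have hqp := Nat.prime_of_mem_primeFactors hq
    exact (SB_n_dvd E z a hqp).2 ⟨hz q hqp (Nat.dvd_of_mem_primeFactors hq), h q hq⟩

/-- SB: Selberg's upper bound with an arbitrary family -/
theorem sel_count_pr {ι : Type} (A : Finset ι) (E : ℕ → ι → Prop) (X : ℝ) (ν : ℕ → ℕ) (z : ℕ)
    (R : ℝ) (hX : 0 ≤ X) (hR : 1 ≤ R) (hν : NU ν) (h : SV A E X ν z) :
    ((sif A E z).card : ℝ) ≤ X / Gs ν z R +
      ∑ d ∈ Icc 1 ⌊R ^ 2⌋₊, (6 : ℝ) ^ d.primeFactors.card := by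
  classical
  obtain ⟨θ, t1, t2, t3, t4, t5⟩ := Pool.Agent.T2.selberg_weights (Pz z)
    (fun p hp => SB_prime hp) (fun q => (ν q : ℝ) / q) (fun p hp => SB_h hν (SB_prime hp)) R hR
  have hGs : Gs ν z R = ∑ d ∈ (Finset.Icc 1 ⌊R⌋₊).filter (fun d : ℕ => Squarefree d ∧
      ∀ p : ℕ, p.Prime → p ∣ d → p ∈ Pz z), ∏ p ∈ d.primeFactors,
        ((ν p : ℝ) / p) / (1 - (ν p : ℝ) / p) := by
    unfold Gs
    refine Finset.sum_congr ?_ fun _ _ => rfl
    ext d
    simp only [Finset.mem_filter]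
  have t5' : ∑ d ∈ Finset.Icc 1 ⌊R ^ 2⌋₊, θ d * ∏ p ∈ d.primeFactors, (ν p : ℝ) / p ≤
      1 / Gs ν z R := by
    rw [hGs]
    refine le_trans t5 (le_of_eq ?_)
    refine congrArg (fun y : ℝ => 1 / y) ?_
    refine Finset.sum_congr ?_ fun _ _ => rfl
    ext d
    simp only [Finset.mem_filter]
  -- step 1
  have s1 : ((sif A E z).card : ℝ) ≤ ∑ a ∈ A, ∑ d ∈ (SB_n E z a).divisors, θ d := by
    have e : ((sif A E z).card : ℝ) =
        ∑ a ∈ A, (if (∀ q ∈ Pz z, ¬ E q a) then (1 : ℝ) else 0) := by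
      unfold sif
      rw [Finset.card_filter]
      push_cast
      refine Finset.sum_congr rfl fun a _ => ?_
      split_ifs <;> rfl
    rw [e]
    refine Finset.sum_le_sum fun a _ => ?_
    split_ifs with ha
    · have hn : SB_n E z a = 1 := by
        by_contra hne
        obtain ⟨q, hq, hqd⟩ := Nat.exists_prime_and_dvd hne
        have := (SB_n_dvd E z a hq).1 hqd
        exact ha q this.1 this.2
      rw [hn, Nat.divisors_one, Finset.sum_singleton, t3]
    · exact t4 _ (SB_n_pos E z a)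
  -- step 2
  have s2 : ∑ a ∈ A, ∑ d ∈ (SB_n E z a).divisors, θ d =
      ∑ d ∈ Icc 1 ⌊R ^ 2⌋₊, θ d *
        ((A.filter (fun a => ∀ q ∈ d.primeFactors, E q a)).card : ℝ) := by
    have e : ∀ a ∈ A, ∑ d ∈ (SB_n E z a).divisors, θ d =
        ∑ d ∈ Icc 1 ⌊R ^ 2⌋₊, θ d * (if ∀ q ∈ d.primeFactors, E q a then 1 else 0) := by
      intro a _
      have e1 : ∑ d ∈ (SB_n E z a).divisors, θ d =
          ∑ d ∈ (SB_n E z a).divisors ∩ Icc 1 ⌊R ^ 2⌋₊, θ d := by
        symm
        refine Finset.sum_subset Finset.inter_subset_left fun d hd hnd => ?_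
        by_contra hne
        obtain ⟨-, -, hle⟩ := t1 d hne
        apply hnd
        rw [Finset.mem_inter, Finset.mem_Icc]
        refine ⟨hd, Nat.pos_of_mem_divisors hd, Nat.le_floor hle⟩
      have e2 : ∑ d ∈ Icc 1 ⌊R ^ 2⌋₊, θ d * (if ∀ q ∈ d.primeFactors, E q a then (1 : ℝ) else 0) =
          ∑ d ∈ (SB_n E z a).divisors ∩ Icc 1 ⌊R ^ 2⌋₊, θ d *
            (if ∀ q ∈ d.primeFactors, E q a then (1 : ℝ) else 0) := by
        symm
        refine Finset.sum_subset Finset.inter_subset_right fun d _ hnd => ?_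
        by_cases hz : θ d = 0
        · rw [hz, zero_mul]
        · obtain ⟨hsq, hp, -⟩ := t1 d hz
          rw [if_neg, mul_zero]
          intro hall
          apply hnd
          rw [Finset.mem_inter]
          refine ⟨?_, by assumption⟩
          rw [Nat.mem_divisors]
          exact ⟨(SB_dvd E z a hsq hp).2 hall, by have := SB_n_pos E z a; omega⟩
      rw [e1, e2]
      refine Finset.sum_congr rfl fun d hd => ?_
      by_cases hz : θ d = 0
      · rw [hz, zero_mul]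
      · obtain ⟨hsq, hp, -⟩ := t1 d hz
        rw [Finset.mem_inter, Nat.mem_divisors] at hd
        rw [if_pos ((SB_dvd E z a hsq hp).1 hd.1.1), mul_one]
    rw [Finset.sum_congr rfl e, Finset.sum_comm]
    refine Finset.sum_congr rfl fun d _ => ?_
    rw [← Finset.mul_sum, Finset.card_filter]
    push_cast
    rfl
  -- step 3
  have s3 : ∀ d ∈ Icc 1 ⌊R ^ 2⌋₊, θ d *
        ((A.filter (fun a => ∀ q ∈ d.primeFactors, E q a)).card : ℝ) ≤
      X * (θ d * ∏ p ∈ d.primeFactors, (ν p : ℝ) / p) + (6 : ℝ) ^ d.primeFactors.card := by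
    intro d _
    by_cases hz : θ d = 0
    · rw [hz]
      simp only [zero_mul, mul_zero, zero_add]
      positivity
    · obtain ⟨hsq, hp, -⟩ := t1 d hz
      have hsub : d.primeFactors ⊆ Pz z := fun q hq =>
        hp q (Nat.prime_of_mem_primeFactors hq) (Nat.dvd_of_mem_primeFactors hq)
      have hv := h d.primeFactors hsub
      have hv' : |((A.filter (fun a => ∀ q ∈ d.primeFactors, E q a)).card : ℝ) -
          X * ∏ q ∈ d.primeFactors, (ν q : ℝ) / q| ≤ ∏ q ∈ d.primeFactors, (ν q : ℝ) := by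
        refine le_trans (le_of_eq ?_) hv
        refine congrArg (fun y : ℕ => |(y : ℝ) - X * ∏ q ∈ d.primeFactors, (ν q : ℝ) / q|) ?_
        refine congrArg Finset.card ?_
        ext t
        simp
      have h2 : ∏ q ∈ d.primeFactors, (ν q : ℝ) ≤ 2 ^ d.primeFactors.card := by
        rw [← Finset.prod_const]
        exact Finset.prod_le_prod (fun q _ => Nat.cast_nonneg _)
          (fun q _ => by exact_mod_cast (hν q).2.1)
      set N : ℝ := ((A.filter (fun a => ∀ q ∈ d.primeFactors, E q a)).card : ℝ) with hN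
      set Q : ℝ := ∏ q ∈ d.primeFactors, (ν q : ℝ) / q with hQ
      have h3 : θ d * (N - X * Q) ≤ |θ d| * |N - X * Q| := by
        rw [← abs_mul]
        exact le_abs_self _
      have h4 : |θ d| * |N - X * Q| ≤ 3 ^ d.primeFactors.card * 2 ^ d.primeFactors.card :=
        mul_le_mul (t2 d) (hv'.trans h2) (abs_nonneg _) (by positivity)
      have h5 : (3 : ℝ) ^ d.primeFactors.card * 2 ^ d.primeFactors.card =
          6 ^ d.primeFactors.card := by
        rw [← mul_pow]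
        norm_num
      have h6 : θ d * N = X * (θ d * Q) + θ d * (N - X * Q) := by ring
      rw [h6]
      linarith
  calc ((sif A E z).card : ℝ) ≤ ∑ a ∈ A, ∑ d ∈ (SB_n E z a).divisors, θ d := s1
    _ = ∑ d ∈ Icc 1 ⌊R ^ 2⌋₊, θ d *
        ((A.filter (fun a => ∀ q ∈ d.primeFactors, E q a)).card : ℝ) := s2
    _ ≤ ∑ d ∈ Icc 1 ⌊R ^ 2⌋₊, (X * (θ d * ∏ p ∈ d.primeFactors, (ν p : ℝ) / p) +
        (6 : ℝ) ^ d.primeFactors.card) := Finset.sum_le_sum s3
    _ = X * ∑ d ∈ Icc 1 ⌊R ^ 2⌋₊, θ d * ∏ p ∈ d.primeFactors, (ν p : ℝ) / p +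
        ∑ d ∈ Icc 1 ⌊R ^ 2⌋₊, (6 : ℝ) ^ d.primeFactors.card := by
      rw [Finset.sum_add_distrib, Finset.mul_sum]
    _ ≤ X * (1 / Gs ν z R) + ∑ d ∈ Icc 1 ⌊R ^ 2⌋₊, (6 : ℝ) ^ d.primeFactors.card := by
      have := mul_le_mul_of_nonneg_left t5' hX
      linarith
    _ = _ := by ring

end Pool.Agent.APT

namespace Pool.Agent.APT

theorem sel_count : type_of% @sel_count_pr := @sel_count_pr

end Pool.Agent.APT
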