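import Mathlib
import Pool.Agent.Lib_helper13.APT.Defs
import Pool.Agent.Lib_helper53.LMF.MC

/-!
# Block SC: Rankin
-/

namespace Pool.Agent.APT

open Finset

theorem sc_nu {ν : ℕ → ℕ} (hν : NU ν) {q : ℕ} (hq : 2 ≤ q) :
    0 < 1 - (ν q : ℝ) / q ∧ 0 ≤ ((ν q : ℝ) / q) / (1 - (ν q : ℝ) / q) ∧
      ((ν q : ℝ) / q) / (1 - (ν q : ℝ) / q) ≤ 10 / q := by
  obtain ⟨h1, h2, h3⟩ := hν q
  have hq0 : (0 : ℝ) < q := by exact_mod_cast (by omega : 0 < q)
  have h1' : (1 : ℝ) ≤ ν q := by exact_mod_cast h1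
  have h2' : (ν q : ℝ) ≤ 2 := by exact_mod_cast h2
  have key : (ν q : ℝ) < q ∧ (ν q : ℝ) * q ≤ 10 * (q - ν q) := by
    rcases Nat.eq_or_lt_of_le hq with h4 | h4
    · have e : ν q = 1 := h3 h4.symm
      rw [e, ← h4]; norm_num
    · have h5 : (3 : ℝ) ≤ q := by exact_mod_cast h4
      refine ⟨by linarith, ?_⟩
      nlinarith
  have hlt : (ν q : ℝ) / q < 1 := by rw [div_lt_one hq0]; exact key.1
  have hpos : 0 < 1 - (ν q : ℝ) / q := by linarith
  refine ⟨hpos, by positivity, ?_⟩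
  rw [div_le_div_iff₀ hpos hq0, div_mul_cancel₀ _ hq0.ne']
  have : (10 : ℝ) * (1 - (ν q : ℝ) / q) = 10 * (q - ν q) / q := by
    field_simp
  rw [this, le_div_iff₀ hq0]
  exact key.2

theorem sc_prime {z q : ℕ} (h : q ∈ Pz z) : q.Prime := (mem_filter.1 h).2

open Classical in
/-- the sum over the sets of primes is Selberg's sum -/
theorem sc_sum (z K : ℕ) (g : ℕ → ℝ) :
    ∑ J ∈ Pool.Agent.LM.SQ (Pz z) K, ∏ p ∈ J, g p =
      ∑ d ∈ ((Icc 1 K).filter (fun d : ℕ => Squarefree d ∧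
        ∀ q : ℕ, q.Prime → q ∣ d → q ∈ Pz z)), ∏ q ∈ d.primeFactors, g q := by
  classical
  have hpf : ∀ J : Finset ℕ, J ⊆ Pz z → (∏ p ∈ J, p).primeFactors = J := by
    intro J hJ
    exact Nat.primeFactors_prod (fun p hp => sc_prime (hJ hp))
  refine Finset.sum_bij' (fun J _ => ∏ p ∈ J, p) (fun d _ => d.primeFactors) ?_ ?_ ?_ ?_ ?_
  · intro J hJ
    rw [Pool.Agent.LM.SQ, mem_filter, mem_powerset] at hJ
    obtain ⟨hJ1, hJ2⟩ := hJ
    rw [mem_filter, mem_Icc]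
    refine ⟨⟨Nat.one_le_iff_ne_zero.2 (prod_ne_zero_iff.2 fun p hp => (sc_prime (hJ1 hp)).ne_zero),
      hJ2⟩, ?_, ?_⟩
    · refine Finset.squarefree_prod_of_pairwise_isCoprime ?_ ?_
      · intro p hp q hq hpq
        exact Nat.coprime_iff_isRelPrime.1 ((Nat.coprime_primes (sc_prime (hJ1 hp))
          (sc_prime (hJ1 hq))).2 hpq)
      · exact fun p hp => (sc_prime (hJ1 hp)).squarefree
    · intro q hq hqd
      have : q ∈ (∏ p ∈ J, p).primeFactors := by
        rw [Nat.mem_primeFactors]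
        exact ⟨hq, hqd, prod_ne_zero_iff.2 fun p hp => (sc_prime (hJ1 hp)).ne_zero⟩
      rw [hpf J hJ1] at this
      exact hJ1 this
  · intro d hd
    rw [mem_filter, mem_Icc] at hd
    obtain ⟨⟨h1, h2⟩, h3, h4⟩ := hd
    rw [Pool.Agent.LM.SQ, mem_filter, mem_powerset]
    refine ⟨fun q hq => ?_, ?_⟩
    · rw [Nat.mem_primeFactors] at hq
      exact h4 q hq.1 hq.2.1
    · rw [Nat.prod_primeFactors_of_squarefree h3]
      exact h2
  · intro J hJ
    rw [Pool.Agent.LM.SQ, mem_filter, mem_powerset] at hJ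
    exact hpf J hJ.1
  · intro d hd
    rw [mem_filter] at hd
    exact Nat.prod_primeFactors_of_squarefree hd.2.1
  · intro J hJ
    rw [Pool.Agent.LM.SQ, mem_filter, mem_powerset] at hJ
    rw [hpf J hJ.1]

/-- SC: Rankin -/
theorem gs_ge_pr : ∃ C : ℝ, 1 ≤ C ∧ ∀ (ν : ℕ → ℕ) (z : ℕ) (R : ℝ), NU ν → 2 ≤ z → 1 ≤ R →
    1 - Real.exp (C - Real.log R / Real.log z) ≤ VV ν z * Gs ν z R := by
  classical
  obtain ⟨C0, hC0⟩ := Pool.Agent.LM.rankin_pr
  refine ⟨max (C0 + 1) 1, le_max_right _ _, ?_⟩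
  intro ν z R hν hz hR
  set K := ⌊R⌋₊ with hK
  have hK1 : 1 ≤ K := Nat.one_le_iff_ne_zero.2 (Nat.floor_pos.2 hR).ne'
  set g : ℕ → ℝ := fun q => ((ν q : ℝ) / q) / (1 - (ν q : ℝ) / q) with hg
  have hpz : ∀ q ∈ Pz z, 2 ≤ q := fun q hq => (sc_prime hq).two_le
  have h1 := hC0 z K hz hK1 (Pz z) (fun q hq => hq) g
    (fun p hp => ⟨(sc_nu hν (hpz p hp)).2.1, (sc_nu hν (hpz p hp)).2.2⟩)
  have hVpos : 0 < VV ν z := prod_pos (fun q hq => (sc_nu hν (hpz q hq)).1)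
  have hprod : VV ν z * ∏ p ∈ Pz z, (1 + g p) = 1 := by
    unfold VV
    rw [← prod_mul_distrib]
    apply prod_eq_one
    intro q hq
    have h2 := (sc_nu hν (hpz q hq)).1
    simp only [hg]
    have h3 : (1 - (ν q : ℝ) / q) ≠ 0 := h2.ne'
    have h4 : 1 + (ν q : ℝ) / q / (1 - (ν q : ℝ) / q) = 1 / (1 - (ν q : ℝ) / q) := by
      rw [eq_div_iff h3, add_mul, div_mul_cancel₀ _ h3]; ring
    rw [h4, mul_one_div_cancel h3]
  have hGs : ∑ J ∈ Pool.Agent.LM.SQ (Pz z) K, ∏ p ∈ J, g p = Gs ν z R := by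
    rw [sc_sum z K g]
    unfold Gs
    refine sum_congr ?_ (fun d _ => rfl)
    ext d
    simp only [mem_filter, hK]
  rw [hGs] at h1
  have h2 : (1 - Real.exp (C0 - Real.log K / Real.log z)) ≤ VV ν z * Gs ν z R := by
    calc (1 - Real.exp (C0 - Real.log K / Real.log z))
        = VV ν z * ((1 - Real.exp (C0 - Real.log K / Real.log z)) * ∏ p ∈ Pz z, (1 + g p)) := by
          rw [mul_left_comm, hprod, mul_one]
      _ ≤ _ := mul_le_mul_of_nonneg_left h1 hVpos.le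
  refine le_trans ?_ h2
  have hlog2 : 0 < Real.log 2 := Real.log_pos (by norm_num)
  have hL2 : Real.log 2 ≤ Real.log z := Real.log_le_log (by norm_num) (by exact_mod_cast hz)
  have hL : 0 < Real.log z := lt_of_lt_of_le hlog2 hL2
  have hK1' : (1 : ℝ) ≤ K := by exact_mod_cast hK1
  have hRK : R ≤ 2 * K := by
    have := (Nat.lt_floor_add_one R).le
    linarith
  have h3 : Real.log R ≤ Real.log 2 + Real.log K := by
    rw [← Real.log_mul (by norm_num) (by positivity)]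
    exact Real.log_le_log (by linarith) hRK
  have h4 : Real.log R / Real.log z ≤ 1 + Real.log K / Real.log z := by
    have h5 : Real.log R / Real.log z ≤ (Real.log 2 + Real.log K) / Real.log z :=
      div_le_div_of_nonneg_right h3 hL.le
    have h6 : Real.log 2 / Real.log z ≤ 1 := by rw [div_le_one hL]; exact hL2
    rw [add_div] at h5
    linarith
  have h7 : C0 + 1 ≤ max (C0 + 1) 1 := le_max_left _ _
  have h8 : Real.exp (C0 - Real.log K / Real.log z) ≤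
      Real.exp (max (C0 + 1) 1 - Real.log R / Real.log z) := by
    apply Real.exp_le_exp.2
    linarith
  linarith

end Pool.Agent.APT

namespace Pool.Agent.APT

theorem gs_ge : type_of% @gs_ge_pr := @gs_ge_pr

end Pool.Agent.APT
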