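import Mathlib
import Pool.Agent.Lib_helper13.APT.Defs
import Pool.Agent.Lib_helper13.APTF.SA
import Pool.Agent.Lib_helper13.APTF.SB
import Pool.Agent.Lib_helper13.APTF.SC

namespace Pool.Agent.APT

open Finset

theorem sd_vv_nonneg (ν : ℕ → ℕ) (z : ℕ) (hν : NU ν) : 0 ≤ VV ν z := by
  unfold VV
  apply prod_nonneg
  intro q hq
  have hq2 : 2 ≤ q := by
    have := (mem_filter.mp hq).2
    exact this.two_le
  have h2 : (ν q : ℝ) ≤ 2 := by exact_mod_cast (hν q).2.1
  have hq' : (2 : ℝ) ≤ q := by exact_mod_cast hq2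
  have : (ν q : ℝ) / q ≤ 1 := by
    rw [div_le_one (by linarith)]
    linarith
  linarith

theorem upper_pr : ∃ C : ℝ, 1 ≤ C ∧ ∀ {ι : Type} (A : Finset ι) (E : ℕ → ι → Prop) (X : ℝ)
    (ν : ℕ → ℕ) (z : ℕ) (R : ℝ), 0 ≤ X → 1 ≤ R → NU ν → 2 ≤ z →
    C * Real.log z ≤ Real.log R → SV A E X ν z →
    ((sif A E z).card : ℝ) ≤ X * VV ν z * (1 + C * Real.exp (-(Real.log R / Real.log z))) +
      C * R ^ (11 / 5 : ℝ) := by
  obtain ⟨C0, hC0, h0⟩ := gs_ge
  obtain ⟨CA, hCA, hA⟩ := omega_sum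
  have hexpC : 0 < Real.exp C0 := Real.exp_pos _
  refine ⟨max (C0 + 1) (max (2 * Real.exp C0) CA), le_trans (by linarith) (le_max_left _ _), ?_⟩
  intro ι A E X ν z R hX hR hν hz hlog hSV
  set C : ℝ := max (C0 + 1) (max (2 * Real.exp C0) CA) with hCdef
  have hC1 : C0 + 1 ≤ C := le_max_left _ _
  have hC2 : 2 * Real.exp C0 ≤ C := le_trans (le_max_left _ _) (le_max_right _ _)
  have hC3 : CA ≤ C := le_trans (le_max_right _ _) (le_max_right _ _)
  have hz' : (2 : ℝ) ≤ z := by exact_mod_cast hz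
  have hlz : 0 < Real.log z := Real.log_pos (by linarith)
  set u : ℝ := Real.log R / Real.log z with hu
  have huC : C ≤ u := by
    rw [hu, le_div_iff₀ hlz]
    exact hlog
  set t : ℝ := Real.exp (C0 - u) with ht
  have ht0 : 0 < t := Real.exp_pos _
  have ht1 : t ≤ 1 / 2 := by
    have h1 : t ≤ Real.exp (-1) := Real.exp_le_exp.mpr (by linarith)
    have h2 : Real.exp (-1) ≤ 1 / 2 := by
      rw [Real.exp_neg, one_div]
      apply inv_anti₀ (by norm_num)
      have := Real.add_one_le_exp (1 : ℝ)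
      linarith
    linarith
  have hg := h0 ν z R hν hz hR
  rw [← hu, ← ht] at hg
  have hVV := sd_vv_nonneg ν z hν
  have hgpos : 0 < VV ν z * Gs ν z R := by linarith
  have hVpos : 0 < VV ν z := by
    rcases hVV.lt_or_eq with h | h
    · exact h
    · rw [← h, zero_mul] at hgpos
      exact absurd hgpos (lt_irrefl _)
  have hGpos : 0 < Gs ν z R := by
    by_contra hneg
    have := mul_nonpos_of_nonneg_of_nonpos hVV (not_lt.mp hneg)
    linarith
  have hs := sel_count A E X ν z R hX hR hν hSV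
  have hm : X / Gs ν z R ≤ X * VV ν z * (1 + C * Real.exp (-u)) := by
    have h1 : X / Gs ν z R = X * VV ν z / (VV ν z * Gs ν z R) := by
      field_simp
    rw [h1, div_le_iff₀ hgpos, mul_assoc]
    have hXV : 0 ≤ X * VV ν z := mul_nonneg hX hVV
    have he : 2 * t ≤ C * Real.exp (-u) := by
      have : t = Real.exp C0 * Real.exp (-u) := by
        rw [ht, ← Real.exp_add]
        congr 1
      rw [this, ← mul_assoc]
      exact mul_le_mul_of_nonneg_right hC2 (Real.exp_pos _).le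
    have h3 : 1 ≤ (1 + C * Real.exp (-u)) * (VV ν z * Gs ν z R) := by
      calc (1 : ℝ) ≤ (1 + 2 * t) * (1 - t) := by nlinarith
        _ ≤ (1 + C * Real.exp (-u)) * (VV ν z * Gs ν z R) := by
          apply mul_le_mul (by linarith) hg (by linarith)
          have : 0 ≤ C * Real.exp (-u) := by linarith
          linarith
    calc X * VV ν z = X * VV ν z * 1 := (mul_one _).symm
      _ ≤ X * VV ν z * ((1 + C * Real.exp (-u)) * (VV ν z * Gs ν z R)) :=
        mul_le_mul_of_nonneg_left h3 hXV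
  have herr := hA R hR
  have hpow : 0 ≤ R ^ (11 / 5 : ℝ) := Real.rpow_nonneg (by linarith) _
  have h4 : CA * R ^ (11 / 5 : ℝ) ≤ C * R ^ (11 / 5 : ℝ) := mul_le_mul_of_nonneg_right hC3 hpow
  linarith

end Pool.Agent.APT

namespace Pool.Agent.APT

theorem upper : type_of% @upper_pr := @upper_pr

end Pool.Agent.APT
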