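import Mathlib
import Pool.Agent.Lib_helper13.APT.Defs

namespace Pool.Agent.APT

open Finset

theorem SF_mem {z q : ℕ} : q ∈ Pz z ↔ q ≤ z ∧ q.Prime := by
  unfold Pz
  rw [mem_filter, mem_Icc]
  constructor
  · rintro ⟨⟨_, h⟩, hp⟩; exact ⟨h, hp⟩
  · rintro ⟨h, hp⟩; exact ⟨⟨hp.one_le, h⟩, hp⟩

theorem SF_succ_prime {z : ℕ} (hz : (z + 1).Prime) : Pz (z + 1) = insert (z + 1) (Pz z) := by
  ext q
  rw [mem_insert, SF_mem, SF_mem]
  constructor
  · rintro ⟨h, hp⟩
    rcases Nat.lt_or_ge z q with h1 | h1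
    · left; omega
    · right; exact ⟨h1, hp⟩
  · rintro (h | ⟨h, hp⟩)
    · subst h; exact ⟨le_rfl, hz⟩
    · exact ⟨by omega, hp⟩

theorem SF_succ_not {z : ℕ} (hz : ¬ (z + 1).Prime) : Pz (z + 1) = Pz z := by
  ext q
  rw [SF_mem, SF_mem]
  constructor
  · rintro ⟨h, hp⟩
    refine ⟨?_, hp⟩
    rcases Nat.lt_or_ge z q with h1 | h1
    · have : q = z + 1 := by omega
      subst this; exact absurd hp hz
    · exact h1
  · rintro ⟨h, hp⟩; exact ⟨by omega, hp⟩

theorem SF_notMem (z : ℕ) : z + 1 ∉ Pz z := by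
  rw [SF_mem]; omega

theorem SF_zero : Pz 0 = ∅ := by
  ext q
  rw [SF_mem]
  constructor
  · rintro ⟨h, hp⟩
    have := hp.pos
    omega
  · intro h; simp at h

theorem SF_mem_sif {ι : Type} (A : Finset ι) (E : ℕ → ι → Prop) (z : ℕ) (a : ι) :
    a ∈ sif A E z ↔ a ∈ A ∧ ∀ q ∈ Pz z, ¬ E q a := by
  classical
  unfold sif
  simp only [mem_filter]

theorem buch_pr {ι : Type} (A : Finset ι) (E : ℕ → ι → Prop) (z : ℕ) [∀ q, DecidablePred (E q)] :
    ((sif A E z).card : ℤ) = A.card - ∑ q ∈ Pz z, ((sif (A.filter (E q)) E (q - 1)).card : ℤ) := by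
  classical
  induction z with
  | zero =>
    have h : sif A E 0 = A := by
      ext a
      rw [SF_mem_sif, SF_zero]
      simp
    rw [h, SF_zero]
    simp
  | succ z ih =>
    by_cases hz : (z + 1).Prime
    · rw [SF_succ_prime hz, sum_insert (SF_notMem z), Nat.add_sub_cancel]
      have h1 : sif A E z = sif A E (z + 1) ∪ sif (A.filter (E (z + 1))) E z := by
        ext a
        rw [mem_union, SF_mem_sif, SF_mem_sif, SF_mem_sif, SF_succ_prime hz, mem_filter]
        constructor
        · rintro ⟨h1, h2⟩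
          by_cases h3 : E (z + 1) a
          · right; exact ⟨⟨h1, h3⟩, h2⟩
          · left
            refine ⟨h1, fun q hq => ?_⟩
            rcases mem_insert.mp hq with h | h
            · rw [h]; exact h3
            · exact h2 q h
        · rintro (⟨h1, h2⟩ | ⟨⟨h1, _⟩, h2⟩)
          · exact ⟨h1, fun q hq => h2 q (mem_insert_of_mem hq)⟩
          · exact ⟨h1, h2⟩
      have h2 : Disjoint (sif A E (z + 1)) (sif (A.filter (E (z + 1))) E z) := by
        rw [Finset.disjoint_left]
        intro a ha hb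
        rw [SF_mem_sif] at ha hb
        exact ha.2 (z + 1) (by rw [SF_succ_prime hz]; exact mem_insert_self _ _)
          (mem_filter.mp hb.1).2
      have h3 : (sif A E z).card = (sif A E (z + 1)).card +
          (sif (A.filter (E (z + 1))) E z).card := by
        rw [h1, card_union_of_disjoint h2]
      have h4 : ((sif A E z).card : ℤ) = ((sif A E (z + 1)).card : ℤ) +
          ((sif (A.filter (E (z + 1))) E z).card : ℤ) := by exact_mod_cast h3
      linarith
    · have h1 : sif A E (z + 1) = sif A E z := by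
        ext a
        rw [SF_mem_sif, SF_mem_sif, SF_succ_not hz]
      rw [h1, SF_succ_not hz]
      exact ih

theorem vv_buch_pr (ν : ℕ → ℕ) (z : ℕ) :
    VV ν z = 1 - ∑ q ∈ Pz z, (ν q : ℝ) / q * VV ν (q - 1) := by
  induction z with
  | zero =>
    unfold VV
    rw [SF_zero]
    simp
  | succ z ih =>
    by_cases hz : (z + 1).Prime
    · have h1 : VV ν (z + 1) = (1 - (ν (z + 1) : ℝ) / ((z + 1 : ℕ) : ℝ)) * VV ν z := by
        unfold VV
        rw [SF_succ_prime hz, prod_insert (SF_notMem z)]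
      rw [h1, SF_succ_prime hz, sum_insert (SF_notMem z), Nat.add_sub_cancel]
      linear_combination ih
    · have h1 : VV ν (z + 1) = VV ν z := by
        unfold VV
        rw [SF_succ_not hz]
      rw [h1, SF_succ_not hz]
      exact ih

theorem sv_sub_pr {ι : Type} (A : Finset ι) (E : ℕ → ι → Prop) (X : ℝ) (z q : ℕ) (hq : q ∈ Pz z)
    [∀ q, DecidablePred (E q)] (h : SV A E X one z) :
    SV (A.filter (E q)) E (X / q) one (q - 1) := by
  classical
  intro D hD
  have hqp := (SF_mem.mp hq)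
  have hqD : q ∉ D := by
    intro h1
    have := (SF_mem.mp (hD h1)).1
    have := hqp.2.pos
    omega
  have h1 := h (insert q D) (by
    intro r hr
    rcases mem_insert.mp hr with h2 | h2
    · rw [h2]; exact hq
    · have h3 := SF_mem.mp (hD h2)
      rw [SF_mem]
      exact ⟨by omega, h3.2⟩)
  rw [prod_insert hqD, prod_insert hqD] at h1
  have e1 : ((A.filter (E q)).filter (fun a => ∀ r ∈ D, E r a)) =
      A.filter (fun a => ∀ r ∈ insert q D, E r a) := by
    ext a
    simp only [mem_filter, mem_insert, forall_eq_or_imp, and_assoc]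
  have e2 : ((one q : ℕ) : ℝ) = 1 := by unfold one; norm_num
  rw [e2, one_mul] at h1
  have e3 : X / q * ∏ r ∈ D, ((one r : ℕ) : ℝ) / r = X * (1 / (q : ℝ) * ∏ r ∈ D, ((one r : ℕ) : ℝ) / r) := by
    ring
  rw [e3]
  convert h1 using 4
  exact congrArg Finset.card (by convert e1)

end Pool.Agent.APT

namespace Pool.Agent.APT

theorem buch : type_of% @buch_pr := @buch_pr

theorem vv_buch : type_of% @vv_buch_pr := @vv_buch_pr

theorem sv_sub : type_of% @sv_sub_pr := @sv_sub_pr

end Pool.Agent.APT
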