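import Mathlib
import Pool.Agent.Lib_helper13.APT.Defs
import Pool.Agent.Lib_helper92.PVF.MEP

namespace Pool.Agent.APT

open Finset

theorem SE_pos (z : ℕ) : 0 < VV one z := by
  unfold VV
  refine prod_pos fun q hq => ?_
  have hp : (2 : ℝ) ≤ q := by
    unfold Pz at hq
    exact_mod_cast (mem_filter.1 hq).2.two_le
  unfold one
  have : (1 : ℝ) / q ≤ 1 / 2 := one_div_le_one_div_of_le (by norm_num) hp
  push_cast
  linarith

theorem SE_one : ∃ C : ℝ, 1 ≤ C ∧ ∀ z : ℕ, 2 ≤ z → 1 ≤ C * Real.log z * VV one z := by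
  obtain ⟨C, hC, h⟩ := Pool.Agent.PV.mert_pr
  refine ⟨max C 1, le_max_right _ _, fun z hz => ?_⟩
  have h1 := h z hz
  have hl : 0 < Real.log z := Real.log_pos (by exact_mod_cast (by omega : 1 < z))
  have h2 : ∏ p ∈ (Icc 1 z).filter Nat.Prime, (1 - 1 / (p : ℝ))⁻¹ = (VV one z)⁻¹ := by
    unfold VV Pz one
    rw [← prod_inv_distrib]
    push_cast
    rfl
  rw [h2] at h1
  have hv := SE_pos z
  have h3 : 1 ≤ C * Real.log z * VV one z := by
    have h4 := mul_le_mul_of_nonneg_right h1 hv.le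
    rwa [inv_mul_cancel₀ hv.ne'] at h4
  refine le_trans h3 ?_
  exact mul_le_mul_of_nonneg_right (mul_le_mul_of_nonneg_right (le_max_left _ _) hl.le) hv.le

theorem SE_two : ∃ C : ℝ, 1 ≤ C ∧ ∀ z : ℕ, 2 ≤ z → VV one z ≤ C / Real.log z := by
  obtain ⟨C, hC⟩ := Pool.Agent.BG4.mertens_one
  set K : ℝ := (2 * C + 1) / Real.log (2 : ℕ) + Real.log (Real.log (2 : ℕ)) with hK
  refine ⟨max (Real.exp K) 1, le_max_right _ _, fun z hz => ?_⟩
  have hl : 0 < Real.log z := Real.log_pos (by exact_mod_cast (by omega : 1 < z))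
  have h1 := Pool.Agent.BG4.REC_abel C hC 2 z le_rfl hz
  rw [abs_le] at h1
  have hsub : (Ioc 2 z).filter Nat.Prime ⊆ Pz z := by
    intro p hp
    unfold Pz
    rw [mem_filter, mem_Ioc] at hp
    rw [mem_filter, mem_Icc]
    exact ⟨⟨by omega, hp.1.2⟩, hp.2⟩
  have h2 : VV one z ≤ Real.exp (-∑ q ∈ (Ioc 2 z).filter Nat.Prime, 1 / (q : ℝ)) := by
    have h3 : VV one z ≤ ∏ q ∈ Pz z, Real.exp (-(1 / (q : ℝ))) := by
      unfold VV
      refine prod_le_prod ?_ ?_
      · intro q hq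
        have hp : (2 : ℝ) ≤ q := by
          unfold Pz at hq
          exact_mod_cast (mem_filter.1 hq).2.two_le
        have : (1 : ℝ) / q ≤ 1 / 2 := one_div_le_one_div_of_le (by norm_num) hp
        unfold one
        push_cast
        linarith
      · intro q hq
        have h4 := Real.add_one_le_exp (-(1 / (q : ℝ)))
        unfold one
        push_cast
        linarith
    refine le_trans h3 ?_
    rw [← Real.exp_sum, sum_neg_distrib]
    refine Real.exp_le_exp.2 (neg_le_neg ?_)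
    exact sum_le_sum_of_subset_of_nonneg hsub (fun q _ _ => by positivity)
  refine le_trans h2 ?_
  have h3 : Real.exp (-∑ q ∈ (Ioc 2 z).filter Nat.Prime, 1 / (q : ℝ)) ≤
      Real.exp (K - Real.log (Real.log z)) := by
    refine Real.exp_le_exp.2 ?_
    have := h1.1
    rw [hK]
    linarith
  refine le_trans h3 ?_
  rw [Real.exp_sub, Real.exp_log hl]
  exact div_le_div_of_nonneg_right (le_max_left _ _) hl.le

theorem vv_one_ge_pr : ∃ C : ℝ, 1 ≤ C ∧ ∀ z : ℕ, 2 ≤ z →
    1 ≤ C * Real.log z * VV one z ∧ VV one z ≤ C / Real.log z := by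
  obtain ⟨C₁, h1, h2⟩ := SE_one
  obtain ⟨C₂, h3, h4⟩ := SE_two
  refine ⟨max C₁ C₂, le_trans h1 (le_max_left _ _), fun z hz => ?_⟩
  have hl : 0 < Real.log z := Real.log_pos (by exact_mod_cast (by omega : 1 < z))
  refine ⟨?_, ?_⟩
  · refine le_trans (h2 z hz) ?_
    exact mul_le_mul_of_nonneg_right (mul_le_mul_of_nonneg_right (le_max_left _ _) hl.le)
      (SE_pos z).le
  · refine le_trans (h4 z hz) ?_
    exact div_le_div_of_nonneg_right (le_max_right _ _) hl.le

end Pool.Agent.APT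

namespace Pool.Agent.APT

theorem vv_one_ge : type_of% @vv_one_ge_pr := @vv_one_ge_pr

end Pool.Agent.APT
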