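import Mathlib
import Pool.Agent.Lib_helper13.APT.Defs
import Pool.Agent.Lib_helper13.APTF.SE

/-! # Almost prime transversals (MP_6c4857_nt), block SG1: the sum of the errors -/

namespace Pool.Agent.APT

open Finset

theorem sg1_log_factorial (x : ℕ) : Real.log (x.factorial : ℝ) =
    ∑ p ∈ Pz x, (x.factorial.factorization p : ℝ) * Real.log p := by
  have h1 : x.factorial = ∏ p ∈ Pz x, p ^ x.factorial.factorization p := by
    conv_lhs => rw [← Nat.prod_factorization_pow_eq_self (Nat.factorial_ne_zero x)]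
    rw [Finsupp.prod]
    apply Finset.prod_subset
    · intro p hp
      rw [Nat.support_factorization, Nat.mem_primeFactors] at hp
      rw [Pz, Finset.mem_filter, Finset.mem_Icc]
      exact ⟨⟨hp.1.one_le, (hp.1.dvd_factorial).mp hp.2.1⟩, hp.1⟩
    · intro p _ hp
      rw [Finsupp.notMem_support_iff] at hp
      rw [hp, pow_zero]
  conv_lhs => rw [h1]
  push_cast
  rw [Real.log_prod]
  · apply Finset.sum_congr rfl
    intro p _
    rw [Real.log_pow]
  · intro p hp
    have hpp := (Finset.mem_filter.mp hp).2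
    exact pow_ne_zero _ (by exact_mod_cast hpp.ne_zero)

theorem sg1_val_lower (x p : ℕ) (hp : p.Prime) :
    (x : ℝ) / p - 1 ≤ (x.factorial.factorization p : ℝ) := by
  have h1 : x / p ≤ x.factorial.factorization p := by
    have h2 : p ^ (x / p) ∣ x.factorial := by
      have h3 : (p * (x / p)).factorial ∣ x.factorial :=
        Nat.factorial_dvd_factorial (Nat.mul_div_le x p)
      refine dvd_trans ?_ h3
      have h4 : ∀ m : ℕ, p ^ m ∣ (p * m).factorial := by
        intro m
        induction m with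
        | zero => simp
        | succ m ih =>
          have h5 : p * (m + 1) = p * m + p := by ring
          rw [h5, pow_succ]
          exact (Nat.mul_dvd_mul ih (Nat.dvd_factorial hp.pos le_rfl)).trans
            (Nat.factorial_mul_factorial_dvd_factorial_add _ _)
      exact h4 _
    exact (hp.pow_dvd_iff_le_factorization (Nat.factorial_ne_zero x)).mp h2
  have h2 : (x : ℝ) / p < ((x / p : ℕ) : ℝ) + 1 := by
    have hp0 : (0 : ℝ) < p := by exact_mod_cast hp.pos
    rw [div_lt_iff₀ hp0]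
    have h3 : x < (x / p + 1) * p := by
      have := Nat.lt_div_mul_add (a := x) hp.pos
      have h4 : (x / p + 1) * p = x / p * p + p := by ring
      omega
    exact_mod_cast h3
  have h3 : ((x / p : ℕ) : ℝ) ≤ (x.factorial.factorization p : ℝ) := by exact_mod_cast h1
  linarith

theorem sg1_logp {x p : ℕ} (hp : p ∈ Pz x) : 0 ≤ Real.log (p : ℝ) :=
  Real.log_nonneg (by exact_mod_cast (Finset.mem_filter.mp hp).2.one_le)

/-- the upper bound of Mertens' first theorem -/
theorem sg1_sum_log (x : ℕ) (hx : 2 ≤ x) :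
    ∑ p ∈ Pz x, Real.log p / p ≤ Real.log x + Real.log 4 := by
  have hx0 : (0 : ℝ) < x := by exact_mod_cast (by omega : 0 < x)
  have hfac := sg1_log_factorial x
  have hup : Real.log (x.factorial : ℝ) ≤ x * Real.log x := by
    have h1 : ((x.factorial : ℕ) : ℝ) ≤ (x : ℝ) ^ x := by exact_mod_cast Nat.factorial_le_pow x
    have h2 := Real.log_le_log (by exact_mod_cast Nat.factorial_pos x) h1
    rwa [Real.log_pow] at h2
  have htheta : ∑ p ∈ Pz x, Real.log (p : ℝ) ≤ Real.log 4 * x := by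
    have h1 := Chebyshev.theta_le_log4_mul_x (x := (x : ℝ)) hx0.le
    rw [Chebyshev.theta_eq_sum_Icc, Nat.floor_natCast] at h1
    refine le_trans ?_ h1
    apply Finset.sum_le_sum_of_subset_of_nonneg
    · apply Finset.filter_subset_filter
      apply Finset.Icc_subset_Icc (by norm_num) le_rfl
    · intro p hp _
      exact Real.log_nonneg (by exact_mod_cast (Finset.mem_filter.mp hp).2.one_le)
  have h1 : (x : ℝ) * ∑ p ∈ Pz x, Real.log p / p - ∑ p ∈ Pz x, Real.log (p : ℝ) ≤
      Real.log (x.factorial : ℝ) := by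
    rw [hfac, Finset.mul_sum, ← Finset.sum_sub_distrib]
    apply Finset.sum_le_sum
    intro p hp
    have h2 := mul_le_mul_of_nonneg_right (sg1_val_lower x p (Finset.mem_filter.mp hp).2)
      (sg1_logp hp)
    calc (x : ℝ) * (Real.log p / p) - Real.log p = ((x : ℝ) / p - 1) * Real.log p := by ring
      _ ≤ _ := h2
  have h2 : (x : ℝ) * ∑ p ∈ Pz x, Real.log p / p ≤ x * (Real.log x + Real.log 4) := by
    linarith
  exact le_of_mul_le_mul_left h2 hx0

theorem sg1_exp (t u : ℝ) (ht : 1 ≤ t) (hu : 10 ≤ u) :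
    Real.exp (-(2 / 5 * (u * t))) ≤ Real.exp (-(1 / 5 * u)) * (1 / t ^ 2) := by
  have h1 : -(2 / 5 * (u * t)) ≤ -(1 / 5 * u) + -(2 * t) := by nlinarith
  have h2 : Real.exp (-(2 * t)) ≤ 1 / t ^ 2 := by
    rw [Real.exp_neg, one_div]
    apply inv_anti₀ (by positivity)
    have h3 : t ≤ Real.exp t := by linarith [Real.add_one_le_exp t]
    have h4 : Real.exp (2 * t) = Real.exp t ^ 2 := by
      rw [two_mul, Real.exp_add]; ring
    rw [h4]
    exact pow_le_pow_left₀ (by linarith) h3 2
  calc Real.exp (-(2 / 5 * (u * t))) ≤ Real.exp (-(1 / 5 * u) + -(2 * t)) := Real.exp_le_exp.mpr h1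
    _ = Real.exp (-(1 / 5 * u)) * Real.exp (-(2 * t)) := Real.exp_add _ _
    _ ≤ _ := mul_le_mul_of_nonneg_left h2 (Real.exp_pos _).le

theorem sg1_log_pred (q : ℕ) (hq : 3 ≤ q) :
    Real.log q ≤ 2 * Real.log ((q - 1 : ℕ) : ℝ) ∧ 0 < Real.log ((q - 1 : ℕ) : ℝ) := by
  obtain ⟨m, rfl⟩ : ∃ m, q = m + 3 := ⟨q - 3, by omega⟩
  have h1 : m + 3 - 1 = m + 2 := by omega
  rw [h1]
  have hpos : 0 < Real.log ((m + 2 : ℕ) : ℝ) := Real.log_pos (by push_cast; linarith [m.cast_nonneg (α := ℝ)])
  refine ⟨?_, hpos⟩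
  have h2 : (2 : ℝ) * Real.log ((m + 2 : ℕ) : ℝ) = Real.log (((m + 2 : ℕ) : ℝ) ^ 2) := by
    rw [Real.log_pow]; norm_num
  rw [h2]
  apply Real.log_le_log (by positivity)
  push_cast
  nlinarith [m.cast_nonneg (α := ℝ)]

theorem err_sum_pr : ∃ C : ℝ, 1 ≤ C ∧ ∀ (z : ℕ) (u : ℝ), 2 ≤ z → 10 ≤ u →
    ∑ q ∈ (Pz z).erase 2, 1 / (q : ℝ) * VV one (q - 1) *
      Real.exp (-(2 / 5 * (u * Real.log z / Real.log q))) ≤
      C * Real.exp (-(1 / 5 * u)) * VV one z := by
  obtain ⟨C, hC1, hC⟩ := vv_one_ge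
  refine ⟨6 * C ^ 2, by nlinarith, ?_⟩
  intro z u hz hu
  have hz1 : (1 : ℝ) < z := by exact_mod_cast (by omega : 1 < z)
  have hL : 0 < Real.log z := Real.log_pos hz1
  have hE : 0 < Real.exp (-(1 / 5 * u)) := Real.exp_pos _
  have hC0 : 0 < C := by linarith
  have hterm : ∀ q ∈ (Pz z).erase 2, 1 / (q : ℝ) * VV one (q - 1) *
      Real.exp (-(2 / 5 * (u * Real.log z / Real.log q))) ≤
      (Real.exp (-(1 / 5 * u)) * (2 * C) / Real.log z ^ 2) * (Real.log q / q) := by
    intro q hq
    rw [Finset.mem_erase, Pz, Finset.mem_filter, Finset.mem_Icc] at hq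
    obtain ⟨hq2, ⟨_, hqz⟩, hqp⟩ := hq
    have hq3 : 3 ≤ q := by
      have := hqp.two_le
      omega
    have hq1 : (1 : ℝ) < q := by exact_mod_cast (by omega : 1 < q)
    have hq0 : (0 : ℝ) < q := by linarith
    have hl : 0 < Real.log q := Real.log_pos hq1
    have hlL : Real.log q ≤ Real.log z := Real.log_le_log hq0 (by exact_mod_cast hqz)
    obtain ⟨h1, h2⟩ := sg1_log_pred q hq3
    have h3 : VV one (q - 1) ≤ 2 * C / Real.log q := by
      refine (hC (q - 1) (by omega)).2.trans ?_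
      rw [div_le_div_iff₀ h2 hl]
      nlinarith
    have ht : 1 ≤ Real.log z / Real.log q := by
      rw [le_div_iff₀ hl]; linarith
    have h4 := sg1_exp (Real.log z / Real.log q) u ht hu
    have h5 : u * (Real.log z / Real.log q) = u * Real.log z / Real.log q := by ring
    rw [h5] at h4
    have h6 : 1 / (Real.log z / Real.log q) ^ 2 = Real.log q ^ 2 / Real.log z ^ 2 := by
      field_simp
    rw [h6] at h4
    calc 1 / (q : ℝ) * VV one (q - 1) * Real.exp (-(2 / 5 * (u * Real.log z / Real.log q)))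
        ≤ 1 / (q : ℝ) * (2 * C / Real.log q) *
          (Real.exp (-(1 / 5 * u)) * (Real.log q ^ 2 / Real.log z ^ 2)) := by
          apply mul_le_mul _ h4 (Real.exp_pos _).le (by positivity)
          exact mul_le_mul_of_nonneg_left h3 (by positivity)
      _ = (Real.exp (-(1 / 5 * u)) * (2 * C) / Real.log z ^ 2) * (Real.log q / q) := by
          field_simp
  have hsum : ∑ q ∈ (Pz z).erase 2, Real.log q / q ≤ 3 * Real.log z := by
    have h1 : ∑ q ∈ (Pz z).erase 2, Real.log (q : ℝ) / q ≤ ∑ q ∈ Pz z, Real.log (q : ℝ) / q := by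
      apply Finset.sum_le_sum_of_subset_of_nonneg (Finset.erase_subset _ _)
      intro p hp _
      exact div_nonneg (sg1_logp hp) (by positivity)
    have h2 := sg1_sum_log z hz
    have h3 : Real.log 4 ≤ 2 * Real.log z := by
      have h4 : Real.log 4 = 2 * Real.log 2 := by
        rw [show (4 : ℝ) = 2 ^ 2 by norm_num, Real.log_pow]; norm_num
      have h5 : Real.log 2 ≤ Real.log z := Real.log_le_log (by norm_num) (by exact_mod_cast hz)
      linarith
    linarith
  have hfac : 0 ≤ Real.exp (-(1 / 5 * u)) * (2 * C) / Real.log z ^ 2 := by positivity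
  calc ∑ q ∈ (Pz z).erase 2, 1 / (q : ℝ) * VV one (q - 1) *
        Real.exp (-(2 / 5 * (u * Real.log z / Real.log q)))
      ≤ ∑ q ∈ (Pz z).erase 2, (Real.exp (-(1 / 5 * u)) * (2 * C) / Real.log z ^ 2) *
          (Real.log q / q) := Finset.sum_le_sum hterm
    _ = (Real.exp (-(1 / 5 * u)) * (2 * C) / Real.log z ^ 2) *
          ∑ q ∈ (Pz z).erase 2, (Real.log q / q) := by rw [Finset.mul_sum]
    _ ≤ (Real.exp (-(1 / 5 * u)) * (2 * C) / Real.log z ^ 2) * (3 * Real.log z) :=
        mul_le_mul_of_nonneg_left hsum hfac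
    _ = (6 * C * Real.exp (-(1 / 5 * u))) * (1 / Real.log z) := by field_simp; ring
    _ ≤ (6 * C * Real.exp (-(1 / 5 * u))) * (C * VV one z) := by
        apply mul_le_mul_of_nonneg_left _ (by positivity)
        rw [div_le_iff₀ hL]
        have := (hC z hz).1
        linarith
    _ = 6 * C ^ 2 * Real.exp (-(1 / 5 * u)) * VV one z := by ring

end Pool.Agent.APT

namespace Pool.Agent.APT

theorem err_sum : type_of% @err_sum_pr := @err_sum_pr

end Pool.Agent.APT
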