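import Mathlib
import Pool.Agent.Lib_helper13.APT.Defs
import Pool.Agent.Lib_helper13.APTF.SD
import Pool.Agent.Lib_helper13.APTF.SF
import Pool.Agent.Lib_helper13.APTF.SG1

/-! # Almost prime transversals (MP_6c4857_nt), block SG2: the lower bound -/

namespace Pool.Agent.APT

open Finset

theorem sg2_NU : NU one := fun q => ⟨le_refl 1, by simp [one], fun _ => rfl⟩

theorem sg2_vv_nonneg (z : ℕ) : 0 ≤ VV one z := by
  rw [VV]
  apply Finset.prod_nonneg
  intro q hq
  rw [Pz, Finset.mem_filter, Finset.mem_Icc] at hq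
  have h1 : (1 : ℝ) ≤ q := by exact_mod_cast hq.1.1
  have h2 : (one q : ℝ) / q ≤ 1 := by
    rw [div_le_one (by linarith)]
    simpa [one] using h1
  linarith

theorem sg2_exp : Real.exp (2 / 5) ≤ 2 := by
  have h1 : (2 / 5 : ℝ) ≤ Real.log 2 := by linarith [Real.log_two_gt_d9]
  calc Real.exp (2 / 5) ≤ Real.exp (Real.log 2) := Real.exp_le_exp.mpr h1
    _ = 2 := Real.exp_log (by norm_num)

theorem sg2_term {ι : Type} (C₁ : ℝ) (hC₁ : 1 ≤ C₁)
    (hup : ∀ (A : Finset ι) (E : ℕ → ι → Prop) (X : ℝ)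
      (ν : ℕ → ℕ) (z : ℕ) (R : ℝ), 0 ≤ X → 1 ≤ R → NU ν → 2 ≤ z →
      C₁ * Real.log z ≤ Real.log R → SV A E X ν z →
      ((sif A E z).card : ℝ) ≤ X * VV ν z * (1 + C₁ * Real.exp (-(Real.log R / Real.log z))) +
        C₁ * R ^ (11 / 5 : ℝ))
    (A : Finset ι) (E : ℕ → ι → Prop) (X : ℝ) (z q : ℕ) (u : ℝ) (hX : 1 ≤ X) (hq3 : 3 ≤ q)
    (hqz : q ≤ z) (hu : 1 + 5 / 2 * C₁ ≤ u) (huX : u * Real.log z ≤ Real.log X)
    (hA : SV A E (X / q) one (q - 1)) :
    ((sif A E (q - 1)).card : ℝ) ≤ X * (1 / (q : ℝ) * VV one (q - 1)) +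
      X * (2 * C₁) * (1 / (q : ℝ) * VV one (q - 1) *
        Real.exp (-(2 / 5 * (u * Real.log z / Real.log q)))) + C₁ * X ^ (22 / 25 : ℝ) := by
  have hX0 : 0 < X := by linarith
  have hq1 : (1 : ℝ) < q := by exact_mod_cast (by omega : 1 < q)
  have hq0 : (0 : ℝ) < q := by linarith
  have hl : 0 < Real.log q := Real.log_pos hq1
  have hlL : Real.log q ≤ Real.log z := Real.log_le_log hq0 (by exact_mod_cast hqz)
  have hp1 : (1 : ℝ) < ((q - 1 : ℕ) : ℝ) := by exact_mod_cast (by omega : 1 < q - 1)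
  have hlp : 0 < Real.log ((q - 1 : ℕ) : ℝ) := Real.log_pos hp1
  have hlpq : Real.log ((q - 1 : ℕ) : ℝ) ≤ Real.log q :=
    Real.log_le_log (by linarith) (by exact_mod_cast Nat.sub_le q 1)
  have hu0 : 0 ≤ u := by linarith
  have huq : u * Real.log q ≤ Real.log X :=
    (mul_le_mul_of_nonneg_left hlL hu0).trans huX
  have hlogdiv : Real.log (X / q) = Real.log X - Real.log q :=
    Real.log_div hX0.ne' hq0.ne'
  have hdiff : 5 / 2 * C₁ * Real.log q ≤ Real.log X - Real.log q := by nlinarith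
  have hqX : (q : ℝ) ≤ X := by
    have h1 : Real.log q ≤ Real.log X := by nlinarith
    exact (Real.log_le_log_iff hq0 hX0).mp h1
  have hXq1 : 1 ≤ X / q := by rw [le_div_iff₀ hq0]; linarith
  have hXq0 : 0 < X / q := by linarith
  obtain ⟨R, hR⟩ : ∃ R : ℝ, R = (X / q) ^ (2 / 5 : ℝ) := ⟨_, rfl⟩
  have hR1 : 1 ≤ R := by rw [hR]; exact Real.one_le_rpow hXq1 (by norm_num)
  have hlogR : Real.log R = 2 / 5 * (Real.log X - Real.log q) := by
    rw [hR, Real.log_rpow hXq0, hlogdiv]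
  have hcond : C₁ * Real.log ((q - 1 : ℕ) : ℝ) ≤ Real.log R := by
    rw [hlogR]
    have h1 : C₁ * Real.log ((q - 1 : ℕ) : ℝ) ≤ C₁ * Real.log q :=
      mul_le_mul_of_nonneg_left hlpq (by linarith)
    linarith
  have hmain := hup A E (X / q) one (q - 1) R hXq0.le hR1 sg2_NU (by omega) hcond hA
  have hRp : R ^ (11 / 5 : ℝ) ≤ X ^ (22 / 25 : ℝ) := by
    rw [hR, ← Real.rpow_mul hXq0.le]
    have h1 : (2 / 5 * (11 / 5) : ℝ) = 22 / 25 := by norm_num
    rw [h1]
    apply Real.rpow_le_rpow hXq0.le _ (by norm_num)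
    rw [div_le_iff₀ hq0]
    nlinarith
  have hexp : Real.exp (-(Real.log R / Real.log ((q - 1 : ℕ) : ℝ))) ≤
      2 * Real.exp (-(2 / 5 * (u * Real.log z / Real.log q))) := by
    have h1 : 2 / 5 * (u * Real.log z / Real.log q) - 2 / 5 ≤
        Real.log R / Real.log ((q - 1 : ℕ) : ℝ) := by
      have h2 : Real.log R / Real.log q ≤ Real.log R / Real.log ((q - 1 : ℕ) : ℝ) :=
        div_le_div_of_nonneg_left (Real.log_nonneg hR1) hlp hlpq
      refine le_trans ?_ h2
      rw [hlogR, le_div_iff₀ hl]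
      have h3 : (2 / 5 * (u * Real.log z / Real.log q) - 2 / 5) * Real.log q =
          2 / 5 * (u * Real.log z) - 2 / 5 * Real.log q := by
        field_simp
      rw [h3]
      linarith
    calc Real.exp (-(Real.log R / Real.log ((q - 1 : ℕ) : ℝ)))
        ≤ Real.exp (2 / 5 + -(2 / 5 * (u * Real.log z / Real.log q))) :=
          Real.exp_le_exp.mpr (by linarith)
      _ = Real.exp (2 / 5) * Real.exp (-(2 / 5 * (u * Real.log z / Real.log q))) :=
          Real.exp_add _ _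
      _ ≤ _ := mul_le_mul_of_nonneg_right sg2_exp (Real.exp_pos _).le
  have hV := sg2_vv_nonneg (q - 1)
  have hXV : 0 ≤ X / q * VV one (q - 1) := mul_nonneg hXq0.le hV
  calc ((sif A E (q - 1)).card : ℝ)
      ≤ X / q * VV one (q - 1) *
          (1 + C₁ * Real.exp (-(Real.log R / Real.log ((q - 1 : ℕ) : ℝ)))) +
        C₁ * R ^ (11 / 5 : ℝ) := hmain
    _ ≤ X / q * VV one (q - 1) *
          (1 + C₁ * (2 * Real.exp (-(2 / 5 * (u * Real.log z / Real.log q))))) +
        C₁ * X ^ (22 / 25 : ℝ) := by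
        apply add_le_add
        · apply mul_le_mul_of_nonneg_left _ hXV
          have := mul_le_mul_of_nonneg_left hexp (by linarith : (0 : ℝ) ≤ C₁)
          linarith
        · exact mul_le_mul_of_nonneg_left hRp (by linarith)
    _ = _ := by ring

theorem sg2_pow (X : ℝ) (z : ℕ) (u : ℝ) (hX : 1 ≤ X) (hz : 2 ≤ z) (hu : 15 ≤ u)
    (huX : u * Real.log z ≤ Real.log X) :
    (z : ℝ) * X ^ (22 / 25 : ℝ) ≤ X ^ (19 / 20 : ℝ) := by
  have hX0 : 0 < X := by linarith
  have hz0 : (0 : ℝ) < z := by exact_mod_cast (by omega : 0 < z)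
  have hL : 0 ≤ Real.log z := Real.log_nonneg (by exact_mod_cast (by omega : 1 ≤ z))
  have h1 : Real.log z ≤ 7 / 100 * Real.log X := by nlinarith
  have h2 : (z : ℝ) ≤ X ^ (7 / 100 : ℝ) := by
    rw [← Real.log_le_log_iff hz0 (Real.rpow_pos_of_pos hX0 _), Real.log_rpow hX0]
    exact h1
  calc (z : ℝ) * X ^ (22 / 25 : ℝ) ≤ X ^ (7 / 100 : ℝ) * X ^ (22 / 25 : ℝ) :=
        mul_le_mul_of_nonneg_right h2 (Real.rpow_nonneg hX0.le _)
    _ = X ^ (19 / 20 : ℝ) := by
        rw [← Real.rpow_add hX0]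
        norm_num

theorem lower_pr : ∃ C : ℝ, 1 ≤ C ∧ ∀ {ι : Type} (A : Finset ι) (E : ℕ → ι → Prop) (X : ℝ) (z : ℕ)
    (u : ℝ), 1 ≤ X → 2 ≤ z → C ≤ u → u * Real.log z ≤ Real.log X → SV A E X one z →
    X * VV one z * (1 - C * Real.exp (-(1 / 5 * u))) - C * X ^ (19 / 20 : ℝ) ≤
      ((sif A E z).card : ℝ) := by
  obtain ⟨C₁, hC₁, hup⟩ := upper
  obtain ⟨C₂, hC₂, herr⟩ := err_sum
  refine ⟨20 + 3 * C₁ + 2 * C₁ * C₂, by nlinarith, ?_⟩
  intro ι A E X z u hX hz hu huX hSV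
  classical
  have hX0 : 0 < X := by linarith
  have hCC : 0 ≤ C₁ * C₂ := mul_nonneg (by linarith) (by linarith)
  have h2mem : 2 ∈ Pz z := by
    rw [Pz, Finset.mem_filter, Finset.mem_Icc]
    exact ⟨⟨by norm_num, hz⟩, Nat.prime_two⟩
  -- Buchstab
  have hb := buch A E z
  have hb' : ((sif A E z).card : ℝ) = (A.card : ℝ) -
      ∑ q ∈ Pz z, ((sif (A.filter (E q)) E (q - 1)).card : ℝ) := by
    exact_mod_cast hb
  rw [← Finset.add_sum_erase _ _ h2mem] at hb'
  -- the set itself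
  have hA1 : X - 1 ≤ (A.card : ℝ) := by
    have h := hSV ∅ (Finset.empty_subset _)
    simp only [Finset.notMem_empty, false_imp_iff, implies_true, Finset.filter_true,
      Finset.prod_empty, mul_one] at h
    have := (abs_le.mp h).1
    linarith
  -- the even elements
  have hA2 : ((sif (A.filter (E 2)) E (2 - 1)).card : ℝ) ≤ X / 2 + 1 := by
    have h := hSV {2} (by rw [Finset.singleton_subset_iff]; exact h2mem)
    have h1 : ∀ d : DecidablePred (fun a => ∀ q ∈ ({2} : Finset ℕ), E q a),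
        (sif (A.filter (E 2)) E (2 - 1)).card ≤
        (@Finset.filter ι (fun a => ∀ q ∈ ({2} : Finset ℕ), E q a) d A).card := by
      intro d
      apply Finset.card_le_card
      intro a ha
      rw [sif, Finset.mem_filter, Finset.mem_filter] at ha
      refine (@Finset.mem_filter _ _ d _ _).mpr ⟨ha.1.1, ?_⟩
      intro q hq
      rw [Finset.mem_singleton] at hq
      rw [hq]
      exact ha.1.2
    rw [Finset.prod_singleton, Finset.prod_singleton] at h
    have h3 := sub_le_iff_le_add.mp (abs_le.mp h).2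
    have h6 := (Nat.cast_le (α := ℝ).mpr (h1 _)).trans h3
    have h4 : ((one 2 : ℕ) : ℝ) = 1 := by simp [one]
    rw [h4] at h6
    push_cast at h6
    linarith
  -- the other primes
  have hq : ∀ q ∈ (Pz z).erase 2, ((sif (A.filter (E q)) E (q - 1)).card : ℝ) ≤
      X * (1 / (q : ℝ) * VV one (q - 1)) +
      X * (2 * C₁) * (1 / (q : ℝ) * VV one (q - 1) *
        Real.exp (-(2 / 5 * (u * Real.log z / Real.log q)))) + C₁ * X ^ (22 / 25 : ℝ) := by
    intro q hq
    have hqP := Finset.mem_of_mem_erase hq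
    have hq2 := Finset.ne_of_mem_erase hq
    have hqP' := hqP
    rw [Pz, Finset.mem_filter, Finset.mem_Icc] at hqP'
    have hq3 : 3 ≤ q := by
      have := hqP'.2.two_le
      omega
    exact sg2_term C₁ hC₁ hup (A.filter (E q)) E X z q u hX hq3 hqP'.1.2 (by linarith) huX
      (sv_sub A E X z q hqP hSV)
  have hsum := Finset.sum_le_sum hq
  rw [Finset.sum_add_distrib, Finset.sum_add_distrib, ← Finset.mul_sum, ← Finset.mul_sum,
    Finset.sum_const, nsmul_eq_mul] at hsum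
  -- the main terms
  have hvb := vv_buch one z
  rw [← Finset.add_sum_erase _ _ h2mem] at hvb
  have hV1 : VV one (2 - 1) = 1 := by
    have : Pz (2 - 1) = ∅ := by decide
    rw [VV, this, Finset.prod_empty]
  have hone : ∀ q : ℕ, ((one q : ℕ) : ℝ) = 1 := by intro q; simp [one]
  simp only [hone] at hvb
  rw [hV1] at hvb
  push_cast at hvb
  have hmain : ∑ q ∈ (Pz z).erase 2, 1 / (q : ℝ) * VV one (q - 1) = 1 / 2 - VV one z := by
    linarith
  rw [hmain] at hsum
  have hE := herr z u hz (by linarith)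
  have hcard : (((Pz z).erase 2).card : ℝ) ≤ z := by
    have h1 : ((Pz z).erase 2).card ≤ z := by
      calc ((Pz z).erase 2).card ≤ (Pz z).card := Finset.card_le_card (Finset.erase_subset _ _)
        _ ≤ (Icc 1 z).card := Finset.card_filter_le _ _
        _ = z := by simp
    exact_mod_cast h1
  have hpow := sg2_pow X z u hX hz (by linarith) huX
  have hX22 : 0 ≤ X ^ (22 / 25 : ℝ) := Real.rpow_nonneg hX0.le _
  have hX19 : 1 ≤ X ^ (19 / 20 : ℝ) := Real.one_le_rpow hX (by norm_num)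
  have hlast : (((Pz z).erase 2).card : ℝ) * (C₁ * X ^ (22 / 25 : ℝ)) ≤
      C₁ * X ^ (19 / 20 : ℝ) := by
    calc (((Pz z).erase 2).card : ℝ) * (C₁ * X ^ (22 / 25 : ℝ))
        ≤ (z : ℝ) * (C₁ * X ^ (22 / 25 : ℝ)) :=
          mul_le_mul_of_nonneg_right hcard (mul_nonneg (by linarith) hX22)
      _ = C₁ * ((z : ℝ) * X ^ (22 / 25 : ℝ)) := by ring
      _ ≤ _ := mul_le_mul_of_nonneg_left hpow (by linarith)
  have hV := sg2_vv_nonneg z
  have herr' : X * (2 * C₁) * ∑ q ∈ (Pz z).erase 2, (1 / (q : ℝ) * VV one (q - 1) *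
        Real.exp (-(2 / 5 * (u * Real.log z / Real.log q)))) ≤
      X * (2 * C₁) * (C₂ * Real.exp (-(1 / 5 * u)) * VV one z) :=
    mul_le_mul_of_nonneg_left hE (mul_nonneg hX0.le (by linarith))
  have hW : 0 ≤ X * VV one z * Real.exp (-(1 / 5 * u)) :=
    mul_nonneg (mul_nonneg hX0.le hV) (Real.exp_pos _).le
  have hW1 : 2 * C₁ * C₂ * (X * VV one z * Real.exp (-(1 / 5 * u))) ≤
      (20 + 3 * C₁ + 2 * C₁ * C₂) * (X * VV one z * Real.exp (-(1 / 5 * u))) :=
    mul_le_mul_of_nonneg_right (by linarith) hW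
  have hZ1 : (2 + C₁) * X ^ (19 / 20 : ℝ) ≤ (20 + 3 * C₁ + 2 * C₁ * C₂) * X ^ (19 / 20 : ℝ) :=
    mul_le_mul_of_nonneg_right (by linarith) (by linarith)
  have hfin1 : X * VV one z * (1 - (20 + 3 * C₁ + 2 * C₁ * C₂) * Real.exp (-(1 / 5 * u))) =
      X * VV one z - (20 + 3 * C₁ + 2 * C₁ * C₂) *
        (X * VV one z * Real.exp (-(1 / 5 * u))) := by ring
  have hfin2 : X * (2 * C₁) * (C₂ * Real.exp (-(1 / 5 * u)) * VV one z) =
      2 * C₁ * C₂ * (X * VV one z * Real.exp (-(1 / 5 * u))) := by ring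
  rw [hfin2] at herr'
  rw [hfin1, hb']
  linarith

end Pool.Agent.APT

namespace Pool.Agent.APT

theorem lower : type_of% @lower_pr := @lower_pr

end Pool.Agent.APT
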