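import Mathlib
import Pool.Agent.Lib_helper13.APT.Defs

/-!
# Block LC
-/

namespace Pool.Agent.APT

open Finset

/-- LC1 -/
theorem nu2_NU_pr (h : ℤ) : NU (nu2 h) := by
  intro q
  unfold nu2
  refine ⟨?_, ?_, ?_⟩
  · split_ifs <;> norm_num
  · split_ifs <;> norm_num
  · intro hq
    rw [if_pos (Or.inr hq)]

theorem lc_two_mem (z : ℕ) (hz : 2 ≤ z) : 2 ∈ Pz z := by
  unfold Pz
  rw [Finset.mem_filter, Finset.mem_Icc]
  exact ⟨⟨by norm_num, hz⟩, Nat.prime_two⟩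

theorem lc_three_le (z q : ℕ) (hq : q ∈ (Pz z).erase 2) : 3 ≤ q ∧ q.Prime ∧ q ≤ z := by
  unfold Pz at hq
  rw [Finset.mem_erase, Finset.mem_filter, Finset.mem_Icc] at hq
  have := hq.2.2.two_le
  exact ⟨by omega, hq.2.2, hq.2.1.2⟩

/-- LC2 -/
theorem vv_nu2_pr (z : ℕ) (h : ℤ) (hz : 2 ≤ z) : VV (nu2 h) z = 2 * VV one z ^ 2 * wt z h := by
  unfold VV wt
  rw [← Finset.mul_prod_erase (Pz z) (fun q => 1 - (nu2 h q : ℝ) / q) (lc_two_mem z hz),
    ← Finset.mul_prod_erase (Pz z) (fun q => 1 - (one q : ℝ) / q) (lc_two_mem z hz),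
    Finset.prod_div_distrib, Finset.prod_pow]
  have h2 : nu2 h 2 = 1 := by
    unfold nu2
    rw [if_pos (Or.inr rfl)]
  have h3 : ∏ q ∈ (Pz z).erase 2, (1 - (one q : ℝ) / q) = ∏ q ∈ (Pz z).erase 2, (1 - 1 / (q : ℝ)) := by
    apply Finset.prod_congr rfl
    intro q _
    unfold one
    norm_num
  have h4 : 0 < ∏ q ∈ (Pz z).erase 2, (1 - 1 / (q : ℝ)) := by
    apply Finset.prod_pos
    intro q hq
    have h5 : (3 : ℝ) ≤ q := by exact_mod_cast (lc_three_le z q hq).1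
    have h6 : 1 / (q : ℝ) < 1 := by
      rw [div_lt_one (by linarith)]
      linarith
    linarith
  rw [h3, h2]
  unfold one
  norm_num
  field_simp

/-- the partial products of Wallis' product -/
theorem lc_wallis (M : ℕ) : 3 / 5 * (1 + 1 / (4 * ((M : ℝ) + 1))) ≤
    ∏ m ∈ Icc 1 (M + 1), (1 - 1 / (4 * (m : ℝ) ^ 2)) := by
  induction M with
  | zero => norm_num
  | succ M ih =>
    rw [Finset.prod_Icc_succ_top (by omega)]
    have h0 : (0 : ℝ) ≤ M := Nat.cast_nonneg M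
    have h1 : (0 : ℝ) ≤ 1 - 1 / (4 * ((M + 1 + 1 : ℕ) : ℝ) ^ 2) := by
      push_cast
      rw [sub_nonneg, div_le_one (by positivity)]
      nlinarith
    refine le_trans ?_ (mul_le_mul_of_nonneg_right ih h1)
    push_cast
    rw [← sub_nonneg]
    have h2 : 3 / 5 * (1 + 1 / (4 * ((M : ℝ) + 1))) * (1 - 1 / (4 * ((M : ℝ) + 1 + 1) ^ 2))
        - 3 / 5 * (1 + 1 / (4 * ((M : ℝ) + 1 + 1)))
        = 3 * (3 : ℝ) / (5 * (4 * (M + 1)) * (4 * (M + 1 + 1) ^ 2)) := by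
      field_simp
      ring
    rw [h2]
    positivity

/-- the factor for a prime -/
theorem lc_factor (q : ℕ) (h : ℤ) (hq : 3 ≤ q) :
    1 - 1 / ((q : ℝ) - 1) ^ 2 ≤ (1 - (nu2 h q : ℝ) / q) / (1 - 1 / (q : ℝ)) ^ 2 := by
  have h5 : (3 : ℝ) ≤ q := by exact_mod_cast hq
  have h6 : (0 : ℝ) < (q : ℝ) - 1 := by linarith
  have h7 : (q : ℝ) ≠ 0 := by linarith
  unfold nu2
  split_ifs with hc
  · have e : (1 - ((1 : ℕ) : ℝ) / q) / (1 - 1 / (q : ℝ)) ^ 2 = 1 + 1 / ((q : ℝ) - 1) := by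
      push_cast
      have : 1 - 1 / (q : ℝ) = ((q : ℝ) - 1) / q := by field_simp
      rw [this]
      field_simp
      ring
    rw [e]
    have : 0 ≤ 1 / ((q : ℝ) - 1) := by positivity
    have : 0 ≤ 1 / ((q : ℝ) - 1) ^ 2 := by positivity
    linarith
  · have e : (1 - ((2 : ℕ) : ℝ) / q) / (1 - 1 / (q : ℝ)) ^ 2 = 1 - 1 / ((q : ℝ) - 1) ^ 2 := by
      push_cast
      have : 1 - 1 / (q : ℝ) = ((q : ℝ) - 1) / q := by field_simp
      rw [this]
      field_simp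
      ring
    rw [e]

/-- LC3 -/
theorem wt_ge_pr (z : ℕ) (h : ℤ) : 3 / 5 ≤ wt z h := by
  unfold wt
  have hm : ∀ q ∈ (Pz z).erase 2, q = 2 * ((q - 1) / 2) + 1 := by
    intro q hq
    obtain ⟨h3, hp, _⟩ := lc_three_le z q hq
    rcases hp.eq_two_or_odd with h2 | h2
    · omega
    · omega
  have h1 : ∏ q ∈ (Pz z).erase 2, (1 - 1 / (4 * (((q - 1) / 2 : ℕ) : ℝ) ^ 2))
      ≤ ∏ q ∈ (Pz z).erase 2, (1 - (nu2 h q : ℝ) / q) / (1 - 1 / (q : ℝ)) ^ 2 := by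
    apply Finset.prod_le_prod
    · intro q hq
      have h3 := (lc_three_le z q hq).1
      have h4 : 1 ≤ (q - 1) / 2 := by omega
      have h5 : (1 : ℝ) ≤ (((q - 1) / 2 : ℕ) : ℝ) := by exact_mod_cast h4
      rw [sub_nonneg, div_le_one (by positivity)]
      nlinarith
    · intro q hq
      refine le_trans (le_of_eq ?_) (lc_factor q h (lc_three_le z q hq).1)
      have h3 := hm q hq
      have h4 : (q : ℝ) = 2 * (((q - 1) / 2 : ℕ) : ℝ) + 1 := by exact_mod_cast h3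
      have h5 : (q : ℝ) - 1 = 2 * (((q - 1) / 2 : ℕ) : ℝ) := by linarith
      rw [h5]
      ring
  refine le_trans ?_ h1
  have hinj : Set.InjOn (fun q : ℕ => (q - 1) / 2) ((Pz z).erase 2 : Finset ℕ) := by
    intro a ha b hb hab
    have h3 := hm a ha
    have h4 := hm b hb
    simp only at hab
    omega
  rw [← Finset.prod_image (g := fun q : ℕ => (q - 1) / 2)
    (f := fun m : ℕ => 1 - 1 / (4 * (m : ℝ) ^ 2)) hinj]
  have hsub : ((Pz z).erase 2).image (fun q : ℕ => (q - 1) / 2) ⊆ Icc 1 (z + 1) := by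
    intro m hm'
    rw [Finset.mem_image] at hm'
    obtain ⟨q, hq, rfl⟩ := hm'
    obtain ⟨h3, _, h4⟩ := lc_three_le z q hq
    rw [Finset.mem_Icc]
    omega
  have hnn : ∀ m ∈ Icc 1 (z + 1), (0 : ℝ) ≤ 1 - 1 / (4 * (m : ℝ) ^ 2) ∧
      1 - 1 / (4 * (m : ℝ) ^ 2) ≤ 1 := by
    intro m hm'
    rw [Finset.mem_Icc] at hm'
    have h5 : (1 : ℝ) ≤ m := by exact_mod_cast hm'.1
    constructor
    · rw [sub_nonneg, div_le_one (by positivity)]
      nlinarith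
    · have : (0 : ℝ) ≤ 1 / (4 * (m : ℝ) ^ 2) := by positivity
      linarith
  have h2 : ∏ m ∈ Icc 1 (z + 1), (1 - 1 / (4 * (m : ℝ) ^ 2))
      ≤ ∏ m ∈ ((Pz z).erase 2).image (fun q : ℕ => (q - 1) / 2), (1 - 1 / (4 * (m : ℝ) ^ 2)) := by
    rw [← Finset.prod_sdiff hsub]
    have ha : ∏ m ∈ Icc 1 (z + 1) \ ((Pz z).erase 2).image (fun q : ℕ => (q - 1) / 2),
        (1 - 1 / (4 * (m : ℝ) ^ 2)) ≤ 1 := by
      apply Finset.prod_le_one
      · intro m hm'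
        exact (hnn m (Finset.mem_sdiff.mp hm').1).1
      · intro m hm'
        exact (hnn m (Finset.mem_sdiff.mp hm').1).2
    have hb : 0 ≤ ∏ m ∈ ((Pz z).erase 2).image (fun q : ℕ => (q - 1) / 2),
        (1 - 1 / (4 * (m : ℝ) ^ 2)) := by
      apply Finset.prod_nonneg
      intro m hm'
      exact (hnn m (hsub hm')).1
    calc _ ≤ 1 * ∏ m ∈ ((Pz z).erase 2).image (fun q : ℕ => (q - 1) / 2),
        (1 - 1 / (4 * (m : ℝ) ^ 2)) := mul_le_mul_of_nonneg_right ha hb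
      _ = _ := one_mul _
  refine le_trans (le_trans ?_ (lc_wallis z)) h2
  have : (0 : ℝ) ≤ 1 / (4 * ((z : ℝ) + 1)) := by positivity
  nlinarith

end Pool.Agent.APT

namespace Pool.Agent.APT

theorem nu2_NU : type_of% @nu2_NU_pr := @nu2_NU_pr

theorem vv_nu2 : type_of% @vv_nu2_pr := @vv_nu2_pr

theorem wt_ge : type_of% @wt_ge_pr := @wt_ge_pr

end Pool.Agent.APT
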