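import Mathlib
import Pool.Agent.Lib_helper13.APT.Defs
import Pool.Agent.Lib_helper13.APTF.LC
import Pool.Agent.Lib_helper13.APTF.SE

/-!
# Almost prime transversals (MP_6c4857_nt): block VG
-/

namespace Pool.Agent.APT

open Finset

theorem vg_nu2 {q : ℕ} (hq : q.Prime) : nu2 1 q = if q = 2 then 1 else 2 := by
  unfold nu2
  have h1 : ¬ (q : ℤ) ∣ 1 := by
    intro h
    have h2 : q ∣ 1 := by exact_mod_cast h
    exact hq.one_lt.ne' (Nat.dvd_one.1 h2)
  by_cases h2 : q = 2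
  · rw [if_pos (Or.inr h2), if_pos h2]
  · rw [if_neg (by rintro (h | h); exacts [h1 h, h2 h]), if_neg h2]

theorem vg_le (ν : ℕ → ℕ) (z : ℕ) (hν : NU ν) : VV (nu2 1) z ≤ VV ν z := by
  unfold VV
  refine prod_le_prod ?_ ?_
  · intro q hq
    have hqp : q.Prime := (mem_filter.1 hq).2
    have hq0 : (0 : ℝ) < q := by exact_mod_cast hqp.pos
    rw [sub_nonneg, div_le_one hq0, vg_nu2 hqp]
    split_ifs with h
    · have := hqp.one_le
      exact_mod_cast this
    · have := hqp.two_le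
      exact_mod_cast this
  · intro q hq
    have hqp : q.Prime := (mem_filter.1 hq).2
    have hq0 : (0 : ℝ) < q := by exact_mod_cast hqp.pos
    have h1 : ν q ≤ nu2 1 q := by
      rw [vg_nu2 hqp]
      obtain ⟨h2, h3, h4⟩ := hν q
      split_ifs with h
      · exact (h4 h).le
      · exact h3
    have h2 : (ν q : ℝ) / q ≤ (nu2 1 q : ℝ) / q :=
      div_le_div_of_nonneg_right (by exact_mod_cast h1) hq0.le
    linarith

theorem vv_ge_pr : ∃ C : ℝ, 1 ≤ C ∧ ∀ (ν : ℕ → ℕ) (z : ℕ), NU ν → 2 ≤ z →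
    1 ≤ C * Real.log z ^ 2 * VV ν z := by
  obtain ⟨C, hC, H⟩ := vv_one_ge
  refine ⟨C ^ 2, by nlinarith, fun ν z hν hz => ?_⟩
  obtain ⟨h1, -⟩ := H z hz
  have hlog : 0 ≤ Real.log z := Real.log_nonneg (by exact_mod_cast (by omega : 1 ≤ z))
  have h2 := vg_le ν z hν
  rw [vv_nu2 z 1 hz] at h2
  have h3 := wt_ge z 1
  have h4 : VV one z ^ 2 ≤ VV ν z := by
    have h5 : 0 ≤ VV one z ^ 2 := sq_nonneg _
    nlinarith
  have h6 : 1 ≤ (C * Real.log z * VV one z) ^ 2 := by nlinarith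
  calc (1 : ℝ) ≤ (C * Real.log z * VV one z) ^ 2 := h6
    _ = C ^ 2 * Real.log z ^ 2 * VV one z ^ 2 := by ring
    _ ≤ C ^ 2 * Real.log z ^ 2 * VV ν z := mul_le_mul_of_nonneg_left h4 (by positivity)

end Pool.Agent.APT

namespace Pool.Agent.APT

theorem vv_ge : type_of% @vv_ge_pr := @vv_ge_pr

end Pool.Agent.APT
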