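import Mathlib
import Pool.Agent.Lib_helper13.APT.Defs
import Pool.Agent.Lib_helper13.APTF.SD
import Pool.Agent.Lib_helper13.APTF.SG2
import Pool.Agent.Lib_helper13.APTF.VG

namespace Pool.Agent.APT

open Finset

theorem sh_growth (K : ℝ) : ∃ X₀ : ℝ, 1 ≤ X₀ ∧ ∀ X : ℝ, X₀ ≤ X →
    K * Real.log X ^ 2 * X ^ (19 / 20 : ℝ) ≤ X := by
  have h := isLittleO_log_rpow_rpow_atTop (2 : ℝ) (show (0 : ℝ) < 1 / 20 by norm_num)
  have hc : (0 : ℝ) < 1 / (|K| + 1) := by positivity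
  have h1 := h.bound hc
  obtain ⟨X₁, hX₁⟩ := Filter.eventually_atTop.mp h1
  refine ⟨max X₁ 1, le_max_right _ _, fun X hX => ?_⟩
  have hX1 : 1 ≤ X := le_trans (le_max_right _ _) hX
  have hX0 : 0 < X := by linarith
  have h2 := hX₁ X (le_trans (le_max_left _ _) hX)
  have hl : 0 ≤ Real.log X := Real.log_nonneg hX1
  have e1 : Real.log X ^ (2 : ℝ) = Real.log X ^ 2 := by
    rw [← Real.rpow_natCast]
    norm_num
  rw [e1, Real.norm_of_nonneg (by positivity), Real.norm_of_nonneg (by positivity)] at h2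
  have hp : 0 < X ^ (19 / 20 : ℝ) := Real.rpow_pos_of_pos hX0 _
  have hsplit : X ^ (1 / 20 : ℝ) * X ^ (19 / 20 : ℝ) = X := by
    rw [← Real.rpow_add hX0]
    norm_num
  have hK : K ≤ |K| + 1 := by
    have := le_abs_self K
    linarith
  have hK1 : 0 < |K| + 1 := by positivity
  have h3 : K * Real.log X ^ 2 ≤ X ^ (1 / 20 : ℝ) := by
    calc K * Real.log X ^ 2 ≤ (|K| + 1) * Real.log X ^ 2 := by
          apply mul_le_mul_of_nonneg_right hK (by positivity)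
      _ ≤ (|K| + 1) * (1 / (|K| + 1) * X ^ (1 / 20 : ℝ)) := by
          apply mul_le_mul_of_nonneg_left h2 hK1.le
      _ = X ^ (1 / 20 : ℝ) := by field_simp
  calc K * Real.log X ^ 2 * X ^ (19 / 20 : ℝ) ≤ X ^ (1 / 20 : ℝ) * X ^ (19 / 20 : ℝ) :=
        mul_le_mul_of_nonneg_right h3 hp.le
    _ = X := hsplit

theorem sh_exp (C η x : ℝ) (_hC : 1 ≤ C) (hη : 0 < η) (hx : 2 * C / η ≤ x) :
    C * Real.exp (-x) ≤ η / 2 := by
  have h1 : 2 * C / η ≤ Real.exp x := by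
    have := Real.add_one_le_exp x
    linarith
  rw [div_le_iff₀ hη] at h1
  have h2 : Real.exp (-x) * Real.exp x = 1 := by
    rw [← Real.exp_add]
    simp
  have h3 : 0 < Real.exp (-x) := Real.exp_pos _
  nlinarith

/-- the error term against the main term -/
theorem sh_err (Ca Cb η X VVz lz : ℝ) (hX : 1 ≤ X) (hη : 0 < η) (ha : 1 ≤ Ca) (hb : 1 ≤ Cb)
    (hlz : 0 < lz) (hlL : lz ≤ Real.log X) (hV : 1 ≤ Cb * lz ^ 2 * VVz)
    (hg : 2 * Ca * Cb / η * Real.log X ^ 2 * X ^ (19 / 20 : ℝ) ≤ X) :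
    Ca * X ^ (19 / 20 : ℝ) ≤ η / 2 * X * VVz := by
  have hX0 : 0 < X := by linarith
  have hp : 0 < X ^ (19 / 20 : ℝ) := Real.rpow_pos_of_pos hX0 _
  have hV0 : 0 < VVz := by
    by_contra hneg
    have : Cb * lz ^ 2 * VVz ≤ 0 := mul_nonpos_of_nonneg_of_nonpos (by positivity) (not_lt.mp hneg)
    linarith
  have h1 : Cb * lz ^ 2 * VVz ≤ Cb * Real.log X ^ 2 * VVz := by
    have : lz ^ 2 ≤ Real.log X ^ 2 := by
      apply pow_le_pow_left₀ hlz.le hlL
    have hb0 : 0 ≤ Cb := by linarith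
    exact mul_le_mul_of_nonneg_right (mul_le_mul_of_nonneg_left this hb0) hV0.le
  have h2 : 1 ≤ Cb * Real.log X ^ 2 * VVz := le_trans hV h1
  have h3 : 2 * Ca * Cb / η * Real.log X ^ 2 * X ^ (19 / 20 : ℝ) * VVz ≤ X * VVz :=
    mul_le_mul_of_nonneg_right hg hV0.le
  have e : 2 * Ca * Cb / η * Real.log X ^ 2 * X ^ (19 / 20 : ℝ) * VVz =
      2 / η * (Ca * X ^ (19 / 20 : ℝ)) * (Cb * Real.log X ^ 2 * VVz) := by ring
  rw [e] at h3
  have hq : 0 ≤ 2 / η * (Ca * X ^ (19 / 20 : ℝ)) := by positivity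
  have h4 : 2 / η * (Ca * X ^ (19 / 20 : ℝ)) ≤ X * VVz := by
    calc 2 / η * (Ca * X ^ (19 / 20 : ℝ)) = 2 / η * (Ca * X ^ (19 / 20 : ℝ)) * 1 := (mul_one _).symm
      _ ≤ 2 / η * (Ca * X ^ (19 / 20 : ℝ)) * (Cb * Real.log X ^ 2 * VVz) :=
        mul_le_mul_of_nonneg_left h2 hq
      _ ≤ X * VVz := h3
  have e2 : Ca * X ^ (19 / 20 : ℝ) = η / 2 * (2 / η * (Ca * X ^ (19 / 20 : ℝ))) := by
    field_simp
  rw [e2, mul_assoc (η / 2) X VVz]
  exact mul_le_mul_of_nonneg_left h4 (by positivity)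

theorem fund_pr (η : ℝ) (hη : 0 < η) : ∃ (u : ℕ) (X₀ : ℝ), 1 ≤ u ∧ 1 ≤ X₀ ∧ ∀ {ι : Type}
    (A : Finset ι) (E : ℕ → ι → Prop) (X : ℝ) (z : ℕ), X₀ ≤ X → 2 ≤ z → (z : ℝ) ^ u ≤ X →
    (∀ ν : ℕ → ℕ, NU ν → SV A E X ν z → ((sif A E z).card : ℝ) ≤ (1 + η) * X * VV ν z) ∧
    (SV A E X one z → (1 - η) * X * VV one z ≤ ((sif A E z).card : ℝ)) := by
  obtain ⟨C1, hC1, hup⟩ := upper
  obtain ⟨C2, hC2, hlo⟩ := lower
  obtain ⟨C3, hC3, hvv⟩ := vv_ge
  obtain ⟨Xa, hXa1, hXa⟩ := sh_growth (2 * C1 * C3 / η)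
  obtain ⟨Xb, hXb1, hXb⟩ := sh_growth (2 * C2 * C3 / η)
  set M : ℝ := 1 + 5 / 2 * C1 + C2 + 5 * (2 * C1 / η) + 5 * (2 * C2 / η) with hM
  have hq1 : 0 ≤ 2 * C1 / η := by positivity
  have hq2 : 0 ≤ 2 * C2 / η := by positivity
  have huM : M ≤ (⌈M⌉₊ : ℝ) := Nat.le_ceil M
  refine ⟨⌈M⌉₊, max Xa Xb, ?_, le_trans hXa1 (le_max_left _ _), ?_⟩
  · have : (0 : ℝ) < (⌈M⌉₊ : ℝ) := by linarith
    exact_mod_cast this
  intro ι A E X z hX hz hzX
  have hXXa : Xa ≤ X := le_trans (le_max_left _ _) hX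
  have hXXb : Xb ≤ X := le_trans (le_max_right _ _) hX
  have hX1 : 1 ≤ X := le_trans hXa1 hXXa
  have hX0 : 0 < X := by linarith
  have hz' : (2 : ℝ) ≤ z := by exact_mod_cast hz
  have hlz : 0 < Real.log z := Real.log_pos (by linarith)
  set u : ℝ := (⌈M⌉₊ : ℝ) with hu
  have hul : u * Real.log z ≤ Real.log X := by
    have h1 : Real.log ((z : ℝ) ^ ⌈M⌉₊) ≤ Real.log X :=
      Real.log_le_log (by positivity) hzX
    rwa [Real.log_pow] at h1
  have hlL : Real.log z ≤ Real.log X := by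
    have : 1 * Real.log z ≤ u * Real.log z := by
      apply mul_le_mul_of_nonneg_right _ hlz.le
      linarith
    linarith
  constructor
  · intro ν hν hSV
    have hR1 : 1 ≤ X ^ (2 / 5 : ℝ) := Real.one_le_rpow hX1 (by norm_num)
    have hlR : Real.log (X ^ (2 / 5 : ℝ)) = 2 / 5 * Real.log X := Real.log_rpow hX0 _
    have hcond : C1 * Real.log z ≤ Real.log (X ^ (2 / 5 : ℝ)) := by
      rw [hlR]
      have : C1 * Real.log z ≤ 2 / 5 * (u * Real.log z) := by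
        have h5 : C1 ≤ 2 / 5 * u := by linarith
        calc C1 * Real.log z ≤ (2 / 5 * u) * Real.log z := mul_le_mul_of_nonneg_right h5 hlz.le
          _ = 2 / 5 * (u * Real.log z) := by ring
      linarith
    have h := hup A E X ν z (X ^ (2 / 5 : ℝ)) hX0.le hR1 hν hz hcond hSV
    have hRR : (X ^ (2 / 5 : ℝ)) ^ (11 / 5 : ℝ) ≤ X ^ (19 / 20 : ℝ) := by
      rw [← Real.rpow_mul hX0.le]
      exact Real.rpow_le_rpow_of_exponent_le hX1 (by norm_num)
    have hV := hvv ν z hν hz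
    have hV0 : 0 < VV ν z := by
      by_contra hneg
      have : C3 * Real.log z ^ 2 * VV ν z ≤ 0 :=
        mul_nonpos_of_nonneg_of_nonpos (by positivity) (not_lt.mp hneg)
      linarith
    have herr := sh_err C1 C3 η X (VV ν z) (Real.log z) hX1 hη hC1 hC3 hlz hlL hV (hXa X hXXa)
    have hexp : C1 * Real.exp (-(Real.log (X ^ (2 / 5 : ℝ)) / Real.log z)) ≤ η / 2 := by
      apply sh_exp C1 η _ hC1 hη
      rw [hlR, le_div_iff₀ hlz]
      have h6 : 2 * C1 / η ≤ 2 / 5 * u := by linarith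
      calc 2 * C1 / η * Real.log z ≤ 2 / 5 * u * Real.log z :=
            mul_le_mul_of_nonneg_right h6 hlz.le
        _ ≤ 2 / 5 * Real.log X := by linarith
    have hXV : 0 ≤ X * VV ν z := by positivity
    have h7 : X * VV ν z * (1 + C1 * Real.exp (-(Real.log (X ^ (2 / 5 : ℝ)) / Real.log z))) ≤
        X * VV ν z * (1 + η / 2) := mul_le_mul_of_nonneg_left (by linarith) hXV
    have h8 : C1 * (X ^ (2 / 5 : ℝ)) ^ (11 / 5 : ℝ) ≤ C1 * X ^ (19 / 20 : ℝ) :=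
      mul_le_mul_of_nonneg_left hRR (by linarith)
    calc ((sif A E z).card : ℝ) ≤ _ := h
      _ ≤ X * VV ν z * (1 + η / 2) + η / 2 * X * VV ν z := by linarith
      _ = (1 + η) * X * VV ν z := by ring
  · intro hSV
    have h := hlo A E X z u hX1 hz (by linarith) hul hSV
    have hNU : NU one := by
      intro q
      refine ⟨le_refl _, ?_, fun _ => rfl⟩
      show 1 ≤ 2
      norm_num
    have hV := hvv one z hNU hz
    have hV0 : 0 < VV one z := by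
      by_contra hneg
      have : C3 * Real.log z ^ 2 * VV one z ≤ 0 :=
        mul_nonpos_of_nonneg_of_nonpos (by positivity) (not_lt.mp hneg)
      linarith
    have herr := sh_err C2 C3 η X (VV one z) (Real.log z) hX1 hη hC2 hC3 hlz hlL hV (hXb X hXXb)
    have hexp : C2 * Real.exp (-(1 / 5 * u)) ≤ η / 2 := by
      apply sh_exp C2 η _ hC2 hη
      linarith
    have hXV : 0 ≤ X * VV one z := by positivity
    have h7 : X * VV one z * (1 - η / 2) ≤
        X * VV one z * (1 - C2 * Real.exp (-(1 / 5 * u))) :=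
      mul_le_mul_of_nonneg_left (by linarith) hXV
    calc (1 - η) * X * VV one z = X * VV one z * (1 - η / 2) - η / 2 * X * VV one z := by ring
      _ ≤ _ := by linarith
      _ ≤ ((sif A E z).card : ℝ) := h

end Pool.Agent.APT

namespace Pool.Agent.APT

theorem fund : type_of% @fund_pr := @fund_pr

end Pool.Agent.APT
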