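import Mathlib
import Pool.Agent.Lib_helper13.APT.Defs
import Pool.Agent.Lib_helper13.APTF.LA
import Pool.Agent.Lib_helper13.APTF.SH

/-!
# Almost prime transversals (MP_6c4857_nt): block GA1
-/

namespace Pool.Agent.APT

open Finset

theorem ga1_NU : NU one := by
  intro q
  refine ⟨le_refl _, ?_, fun _ => rfl⟩
  show 1 ≤ 2
  norm_num

/-- the entries of a line are the values of a linear form whose leading coefficient is divisible
by no prime up to `z` -/
theorem ga1_lin (p z : ℕ) (r : Bool) (i : ℕ) (hp : p.Prime) (hz : z < p) :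
    ∃ a b : ℕ, 1 ≤ a ∧ (∀ q ∈ Pz z, ¬ q ∣ a) ∧ ∀ j, ent p r i j = a * j + b := by
  cases r with
  | true =>
    refine ⟨1, i * p + 1, le_refl _, ?_, ?_⟩
    · intro q hq hd
      unfold Pz at hq
      rw [mem_filter] at hq
      exact hq.2.one_lt.ne' (Nat.dvd_one.mp hd)
    · intro j
      simp only [ent, cell, if_true]
      ring
  | false =>
    refine ⟨p, i + 1, hp.one_lt.le, ?_, ?_⟩
    · intro q hq hd
      unfold Pz at hq
      rw [mem_filter, mem_Icc] at hq
      have h1 : q = p := (Nat.prime_dvd_prime_iff_eq hq.2 hp).mp hd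
      omega
    · intro j
      simp only [ent, cell, Bool.false_eq_true, if_false]
      ring

theorem ga1_mem {ι : Type} (A : Finset ι) (E : ℕ → ι → Prop) (z : ℕ) (x : ι) :
    x ∈ sif A E z ↔ x ∈ A ∧ ∀ q ∈ Pz z, ¬ E q x := by
  classical
  unfold sif
  rw [mem_filter]

open Classical in
theorem ga1_card (z a b s X : ℕ) (ha : 1 ≤ a) (hb : ∀ j, 1 ≤ a * j + b) :
    ((Ico s (s + X)).filter (fun j => Ro z (a * j + b))).card ≤
      (sif (Ico s (s + X)) (fun q t => q ∣ a * t + b) z).card ∧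
    (sif (Ico s (s + X)) (fun q t => q ∣ a * t + b) z).card ≤
      ((Ico s (s + X)).filter (fun j => Ro z (a * j + b))).card + 1 := by
  constructor
  · apply card_le_card
    intro j hj
    rw [mem_filter] at hj
    rw [ga1_mem]
    exact ⟨hj.1, hj.2.2⟩
  · have h1 : sif (Ico s (s + X)) (fun q t => q ∣ a * t + b) z ⊆
        ((Ico s (s + X)).filter (fun j => Ro z (a * j + b))) ∪
        ((Ico s (s + X)).filter (fun j => a * j + b = 1)) := by
      intro j hj
      rw [ga1_mem] at hj
      rw [mem_union, mem_filter, mem_filter]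
      rcases Nat.lt_or_ge 1 (a * j + b) with h | h
      · exact Or.inl ⟨hj.1, h, hj.2⟩
      · exact Or.inr ⟨hj.1, le_antisymm h (hb j)⟩
    have h2 : ((Ico s (s + X)).filter (fun j => a * j + b = 1)).card ≤ 1 := by
      rw [card_le_one]
      intro x hx y hy
      rw [mem_filter] at hx hy
      have h3 : a * x = a * y := by omega
      exact Nat.eq_of_mul_eq_mul_left (by omega) h3
    calc _ ≤ _ := card_le_card h1
      _ ≤ _ := card_union_le _ _
      _ ≤ _ := by omega

open Classical in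
theorem line_one_pr (η : ℝ) (hη : 0 < η) : ∃ (u X₀ : ℕ), 1 ≤ u ∧ 1 ≤ X₀ ∧
    ∀ (p z : ℕ) (r : Bool) (i s X : ℕ), p.Prime → z < p → 2 ≤ z → X₀ ≤ X → z ^ u ≤ X → i < p →
      s + X ≤ p →
      (((Ico s (s + X)).filter (fun j => Ro z (ent p r i j))).card : ℝ) ≤
        (1 + η) * X * VV one z ∧
      (1 - η) * X * VV one z - 1 ≤
        (((Ico s (s + X)).filter (fun j => Ro z (ent p r i j))).card : ℝ) := by
  obtain ⟨u, X₀, hu, hX₀, hf⟩ := fund η hη
  refine ⟨u, ⌈X₀⌉₊, hu, Nat.one_le_iff_ne_zero.mpr (Nat.ceil_pos.mpr (by linarith)).ne', ?_⟩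
  intro p z r i s X hp hz h2 hX hzX hi hsX
  obtain ⟨a, b, ha, hda, hab⟩ := ga1_lin p z r i hp hz
  have hb : ∀ j, 1 ≤ a * j + b := by
    intro j
    rw [← hab j]
    unfold ent cell
    split_ifs <;> omega
  have hXr : X₀ ≤ (X : ℝ) := le_trans (Nat.le_ceil X₀) (by exact_mod_cast hX)
  have hzr : (z : ℝ) ^ u ≤ (X : ℝ) := by exact_mod_cast hzX
  obtain ⟨hup, hlo⟩ := hf (Ico s (s + X)) (fun q t => q ∣ a * t + b) (X : ℝ) z hXr h2 hzr
  have hSV := lin_SV a b s X z hda
  have h5 := hup one ga1_NU hSV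
  have h6 := hlo hSV
  have h7 := ga1_card z a b s X ha hb
  have h8 : ((Ico s (s + X)).filter (fun j => Ro z (ent p r i j))) =
      ((Ico s (s + X)).filter (fun j => Ro z (a * j + b))) := by
    apply filter_congr
    intro j _
    rw [hab j]
  rw [h8]
  have h9 : (((Ico s (s + X)).filter (fun j => Ro z (a * j + b))).card : ℝ) ≤
      ((sif (Ico s (s + X)) (fun q t => q ∣ a * t + b) z).card : ℝ) := by
    exact_mod_cast h7.1
  have h10 : ((sif (Ico s (s + X)) (fun q t => q ∣ a * t + b) z).card : ℝ) ≤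
      (((Ico s (s + X)).filter (fun j => Ro z (a * j + b))).card : ℝ) + 1 := by
    exact_mod_cast h7.2
  constructor
  · linarith
  · linarith

end Pool.Agent.APT

namespace Pool.Agent.APT

theorem line_one : type_of% @line_one_pr := @line_one_pr

end Pool.Agent.APT
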