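import Mathlib
import Pool.Agent.Lib_helper13.APT.Defs

open Finset

namespace Pool.Agent.APT

theorem cheb_pr : ∃ c : ℝ, 0 < c ∧ ∃ x₀ : ℕ, ∀ x : ℕ, x₀ ≤ x →
    c * x / Real.log x ≤ (((Icc 1 x).filter Nat.Prime).card : ℝ) := by
  refine ⟨1 / 4, by norm_num, 16, fun x hx => ?_⟩
  have hx16 : (16 : ℝ) ≤ (x : ℝ) := by exact_mod_cast hx
  have hcard : (Icc 1 x).filter Nat.Prime = (Finset.range (x + 1)).filter Nat.Prime := by
    ext p
    simp only [Finset.mem_filter, Finset.mem_Icc, Finset.mem_range]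
    constructor
    · rintro ⟨⟨_, h⟩, hp⟩
      exact ⟨by omega, hp⟩
    · rintro ⟨h, hp⟩
      exact ⟨⟨hp.one_le, by omega⟩, hp⟩
  have hpi : ((Icc 1 x).filter Nat.Prime).card = Nat.primeCounting x := by
    rw [hcard, Nat.primeCounting, Nat.primeCounting', Nat.count_eq_card_filter_range]
  rw [hpi]
  have hlog : 0 < Real.log x := Real.log_pos (by linarith)
  refine le_trans ?_ (Chebyshev.pi_ge x)
  rw [div_le_div_iff_of_pos_right hlog]
  -- x / 4 ≤ x log 2 - log (x+1)
  have h2 : (0.6931 : ℝ) < Real.log 2 := by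
    have := Real.log_two_gt_d9
    linarith
  -- log (x + 1) ≤ (x+1) / 16 + log 16 - 1
  have h3 : Real.log ((x : ℝ) + 1) ≤ ((x : ℝ) + 1) / 16 + Real.log 16 - 1 := by
    have h4 : Real.log (((x : ℝ) + 1) / 16) ≤ ((x : ℝ) + 1) / 16 - 1 :=
      Real.log_le_sub_one_of_pos (by positivity)
    rw [Real.log_div (by positivity) (by norm_num)] at h4
    linarith
  have h5 : Real.log 16 = 4 * Real.log 2 := by
    rw [show (16 : ℝ) = 2 ^ (4 : ℕ) by norm_num, Real.log_pow]
    norm_num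
  have h6 : Real.log 2 < 0.6932 := by
    have := Real.log_two_lt_d9
    linarith
  nlinarith [h2, h3, h5, h6, hx16]

end Pool.Agent.APT

namespace Pool.Agent.APT

theorem cheb : type_of% @cheb_pr := @cheb_pr

end Pool.Agent.APT
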