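import Mathlib
import Pool.Agent.Lib_helper13.APT.Defs

/-!
# Almost prime transversals (MP_6c4857_nt): a maximal matching and a pigeonhole
-/

namespace Pool.Agent.APT

open Finset

/-- PB: a maximal matching -/
theorem greedy_pr {α β : Type} (T : Finset (α × β)) (Δ : ℕ) [DecidableEq α] [DecidableEq β]
    (h1 : ∀ a, (T.filter (fun t => t.1 = a)).card ≤ Δ)
    (h2 : ∀ b, (T.filter (fun t => t.2 = b)).card ≤ Δ) :
    ∃ M : Finset (α × β), M ⊆ T ∧ (∀ t ∈ M, ∀ t' ∈ M, t.1 = t'.1 ∨ t.2 = t'.2 → t = t') ∧
      T.card ≤ 2 * M.card * Δ := by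
  classical
  let P : Finset (α × β) → Prop := fun M => ∀ t ∈ M, ∀ t' ∈ M, t.1 = t'.1 ∨ t.2 = t'.2 → t = t'
  have hne : (T.powerset.filter P).Nonempty := ⟨∅, by simp [P]⟩
  obtain ⟨M, hM, hmax⟩ := Finset.exists_max_image (T.powerset.filter P) Finset.card hne
  rw [mem_filter, mem_powerset] at hM
  obtain ⟨hMT, hMP⟩ := hM
  refine ⟨M, hMT, hMP, ?_⟩
  have hcov : T ⊆ M.biUnion (fun m => T.filter (fun t => t.1 = m.1) ∪ T.filter (fun t => t.2 = m.2)) := by
    intro t ht
    by_contra hcon
    have hno : ∀ m ∈ M, t.1 ≠ m.1 ∧ t.2 ≠ m.2 := by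
      intro m hm
      constructor
      · intro h
        exact hcon (mem_biUnion.2 ⟨m, hm, mem_union_left _ (mem_filter.2 ⟨ht, h⟩)⟩)
      · intro h
        exact hcon (mem_biUnion.2 ⟨m, hm, mem_union_right _ (mem_filter.2 ⟨ht, h⟩)⟩)
    have htM : t ∉ M := fun h => (hno t h).1 rfl
    have hP : P (insert t M) := by
      intro a ha b hb hab
      rw [mem_insert] at ha hb
      rcases ha with rfl | ha
      · rcases hb with rfl | hb
        · rfl
        · rcases hab with h | h
          · exact absurd h (hno b hb).1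
          · exact absurd h (hno b hb).2
      · rcases hb with rfl | hb
        · rcases hab with h | h
          · exact absurd h.symm (hno a ha).1
          · exact absurd h.symm (hno a ha).2
        · exact hMP a ha b hb hab
    have hmem : insert t M ∈ T.powerset.filter P := by
      rw [mem_filter, mem_powerset]
      exact ⟨insert_subset ht hMT, hP⟩
    have := hmax _ hmem
    rw [card_insert_of_notMem htM] at this
    omega
  calc T.card ≤ (M.biUnion (fun m => T.filter (fun t => t.1 = m.1) ∪ T.filter (fun t => t.2 = m.2))).card :=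
        card_le_card hcov
    _ ≤ ∑ m ∈ M, (T.filter (fun t => t.1 = m.1) ∪ T.filter (fun t => t.2 = m.2)).card :=
        card_biUnion_le
    _ ≤ ∑ _m ∈ M, (2 * Δ) := by
        refine sum_le_sum (fun m _ => ?_)
        refine (card_union_le _ _).trans ?_
        have := h1 m.1
        have := h2 m.2
        omega
    _ = 2 * M.card * Δ := by rw [sum_const, smul_eq_mul]; ring

/-- PC: pigeonhole, blocks of side `L` -/
theorem pigeon_pr (p L : ℕ) (hL : 1 ≤ L) (M : Finset (ℕ × ℕ)) (hM : ∀ t ∈ M, t.1 < p ∧ t.2 < p) :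
    ∃ s s' : ℕ, M.card ≤ (p / L + 1) ^ 2 *
      (M.filter (fun t => t.1 ∈ Ico s (s + L) ∧ t.2 ∈ Ico s' (s' + L))).card := by
  classical
  let B : Finset (ℕ × ℕ) := range (p / L + 1) ×ˢ range (p / L + 1)
  have hBne : B.Nonempty := ⟨(0, 0), by simp [B]⟩
  obtain ⟨b, _, hmax⟩ := Finset.exists_max_image B
    (fun b => (M.filter (fun t => (t.1 / L, t.2 / L) = b)).card) hBne
  refine ⟨b.1 * L, b.2 * L, ?_⟩
  have hmaps : ∀ t ∈ M, (t.1 / L, t.2 / L) ∈ B := by
    intro t ht
    obtain ⟨ha, hb⟩ := hM t ht
    simp only [B, mem_product, mem_range]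
    exact ⟨Nat.lt_succ_of_le (Nat.div_le_div_right ha.le),
      Nat.lt_succ_of_le (Nat.div_le_div_right hb.le)⟩
  calc M.card = ∑ c ∈ B, (M.filter (fun t => (t.1 / L, t.2 / L) = c)).card :=
        card_eq_sum_card_fiberwise hmaps
    _ ≤ ∑ _c ∈ B, (M.filter (fun t => (t.1 / L, t.2 / L) = b)).card :=
        sum_le_sum (fun c hc => hmax c hc)
    _ = (p / L + 1) ^ 2 * (M.filter (fun t => (t.1 / L, t.2 / L) = b)).card := by
        rw [sum_const, smul_eq_mul]
        simp only [B, card_product, card_range]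
        ring
    _ ≤ _ := by
        refine Nat.mul_le_mul_left _ (card_le_card ?_)
        intro t ht
        rw [mem_filter] at ht ⊢
        obtain ⟨htM, hb⟩ := ht
        have e1 : t.1 / L = b.1 := by rw [← hb]
        have e2 : t.2 / L = b.2 := by rw [← hb]
        refine ⟨htM, ?_, ?_⟩
        · rw [mem_Ico, ← e1]
          constructor
          · exact Nat.div_mul_le_self _ _
          · have := Nat.lt_div_mul_add (a := t.1) (b := L) (by omega)
            omega
        · rw [mem_Ico, ← e2]
          constructor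
          · exact Nat.div_mul_le_self _ _
          · have := Nat.lt_div_mul_add (a := t.2) (b := L) (by omega)
            omega

end Pool.Agent.APT

namespace Pool.Agent.APT

theorem greedy : type_of% @greedy_pr := @greedy_pr

theorem pigeon : type_of% @pigeon_pr := @pigeon_pr

end Pool.Agent.APT
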