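import Mathlib
import Pool.Agent.Lib_helper13.APT.Defs
import Pool.Agent.Lib_helper13.APTF.GA1
import Pool.Agent.Lib_helper13.APTF.PA
import Pool.Agent.Lib_helper13.APTF.PB
import Pool.Agent.Lib_helper13.APTF.SE

/-! APT, block GB (helper6): a large matching of primes. -/

namespace Pool.Agent.APT

open Finset

theorem gb_ent_inj (p : ℕ) (hp : 0 < p) (r : Bool) (i j j' : ℕ)
    (h : ent p r i j = ent p r i j') : j = j' := by
  unfold ent cell at h
  split_ifs at h
  · omega
  · have : j * p = j' * p := by omega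
    exact Nat.eq_of_mul_eq_mul_right hp this

theorem gb_ro {z n : ℕ} (hn : n.Prime) (hz : z < n) : Ro z n := by
  refine ⟨hn.one_lt, fun q hq hd => ?_⟩
  unfold Pz at hq
  rw [mem_filter, mem_Icc] at hq
  have := (Nat.prime_dvd_prime_iff_eq hq.2 hn).1 hd
  omega

open Classical in
theorem gb_line (p z : ℕ) (hp : 0 < p) (r : Bool) (i : ℕ) (B : ℝ)
    (h : (((Ico 0 (0 + p)).filter (fun j => Ro z (ent p r i j))).card : ℝ) ≤ B) :
    (((range p).filter (fun j => (ent p r i j).Prime)).card : ℝ) ≤ B + z := by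
  have h1 : (range p).filter (fun j => (ent p r i j).Prime) ⊆
      (Ico 0 (0 + p)).filter (fun j => Ro z (ent p r i j)) ∪
        (range p).filter (fun j => 1 ≤ ent p r i j ∧ ent p r i j ≤ z) := by
    intro j hj
    rw [mem_filter, mem_range] at hj
    rw [mem_union, mem_filter, mem_filter, mem_Ico, mem_range]
    by_cases hz : z < ent p r i j
    · exact Or.inl ⟨⟨Nat.zero_le _, by omega⟩, gb_ro hj.2 hz⟩
    · exact Or.inr ⟨hj.1, hj.2.one_lt.le, by omega⟩
  have h2 : ((range p).filter (fun j => 1 ≤ ent p r i j ∧ ent p r i j ≤ z)).card ≤ z := by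
    have h3 : (((range p).filter (fun j => 1 ≤ ent p r i j ∧ ent p r i j ≤ z)).image
        (fun j => ent p r i j)).card =
        ((range p).filter (fun j => 1 ≤ ent p r i j ∧ ent p r i j ≤ z)).card := by
      apply card_image_of_injective
      intro j j' hjj
      exact gb_ent_inj p hp r i j j' hjj
    rw [← h3]
    have h4 : ((range p).filter (fun j => 1 ≤ ent p r i j ∧ ent p r i j ≤ z)).image
        (fun j => ent p r i j) ⊆ Icc 1 z := by
      intro n hn
      rw [mem_image] at hn
      obtain ⟨j, hj, rfl⟩ := hn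
      rw [mem_filter] at hj
      exact mem_Icc.2 hj.2
    have := card_le_card h4
    simpa using this
  have h5 := (card_le_card h1).trans (card_union_le _ _)
  have h6 : (((range p).filter (fun j => (ent p r i j).Prime)).card : ℝ) ≤
      (((Ico 0 (0 + p)).filter (fun j => Ro z (ent p r i j))).card : ℝ) + z := by
    have h7 : ((range p).filter (fun j => (ent p r i j).Prime)).card ≤
      ((Ico 0 (0 + p)).filter (fun j => Ro z (ent p r i j))).card + z := by omega
    exact_mod_cast h7
  linarith

/-- the prime cells above `z` -/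
def gbT (p z : ℕ) : Finset (ℕ × ℕ) :=
  (range p ×ˢ range p).filter (fun t => (cell p t.1 t.2).Prime ∧ z < cell p t.1 t.2)

theorem gb_T_card (p z : ℕ) (hp : 0 < p) :
    ((Icc 1 (p ^ 2)).filter Nat.Prime).card ≤ (gbT p z).card + z := by
  classical
  have h1 : (Icc 1 (p ^ 2)).filter Nat.Prime ⊆ (gbT p z).image (fun t => cell p t.1 t.2) ∪
      Icc 1 z := by
    intro q hq
    rw [mem_filter, mem_Icc] at hq
    rw [mem_union, mem_image, mem_Icc]
    by_cases hz : z < q
    · left
      have e : cell p ((q - 1) / p) ((q - 1) % p) = q := by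
        unfold cell
        have := Nat.div_add_mod (q - 1) p
        rw [mul_comm] at this
        omega
      refine ⟨((q - 1) / p, (q - 1) % p), ?_, e⟩
      unfold gbT
      rw [mem_filter, mem_product, mem_range, mem_range]
      refine ⟨⟨?_, Nat.mod_lt _ hp⟩, ?_, ?_⟩
      · simp only
        rw [Nat.div_lt_iff_lt_mul hp, ← pow_two]
        omega
      · simp only
        rw [e]; exact hq.2
      · simp only
        rw [e]; exact hz
    · right
      exact ⟨hq.1.1, by omega⟩
  have h2 := (card_le_card h1).trans (card_union_le _ _)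
  have h3 : ((gbT p z).image (fun t => cell p t.1 t.2)).card ≤ (gbT p z).card := card_image_le
  have h4 : (Icc 1 z).card = z := by simp
  omega

theorem gb_deg (p z Δ : ℕ) (h : ∀ (r : Bool) (i : ℕ), i < p →
    ((range p).filter (fun j => (ent p r i j).Prime)).card ≤ Δ) :
    (∀ a, ((gbT p z).filter (fun t => t.1 = a)).card ≤ Δ) ∧
    (∀ b, ((gbT p z).filter (fun t => t.2 = b)).card ≤ Δ) := by
  classical
  constructor
  · intro a
    by_cases ha : a < p
    · refine le_trans ?_ (h true a ha)
      apply card_le_card_of_injOn Prod.snd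
      · intro t ht
        have ht' := mem_coe.1 ht
        unfold gbT at ht'
        rw [mem_filter, mem_filter, mem_product, mem_range, mem_range] at ht'
        rw [mem_coe, mem_filter, mem_range]
        refine ⟨ht'.1.1.2, ?_⟩
        have := ht'.1.2.1
        rw [ht'.2] at this
        exact this
      · intro t ht t' ht' htt
        have h1 := (mem_filter.1 (mem_coe.1 ht)).2
        have h2 := (mem_filter.1 (mem_coe.1 ht')).2
        exact Prod.ext (h1.trans h2.symm) htt
    · rw [filter_false_of_mem]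
      · simp
      · intro t ht hta
        unfold gbT at ht
        rw [mem_filter, mem_product, mem_range, mem_range] at ht
        omega
  · intro b
    by_cases hb : b < p
    · refine le_trans ?_ (h false b hb)
      apply card_le_card_of_injOn Prod.fst
      · intro t ht
        have ht' := mem_coe.1 ht
        unfold gbT at ht'
        rw [mem_filter, mem_filter, mem_product, mem_range, mem_range] at ht'
        rw [mem_coe, mem_filter, mem_range]
        refine ⟨ht'.1.1.1, ?_⟩
        have := ht'.1.2.1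
        rw [ht'.2] at this
        exact this
      · intro t ht t' ht' htt
        have h1 := (mem_filter.1 (mem_coe.1 ht)).2
        have h2 := (mem_filter.1 (mem_coe.1 ht')).2
        exact Prod.ext htt (h1.trans h2.symm)
    · rw [filter_false_of_mem]
      · simp
      · intro t ht hta
        unfold gbT at ht
        rw [mem_filter, mem_product, mem_range, mem_range] at ht
        omega

/-- choice of the sifting level -/
theorem gb_z (v p : ℕ) (hv : 2 ≤ v) (hp : 2 ^ v ≤ p) : ∃ z : ℕ, 2 ≤ z ∧ z < p ∧ z ^ v ≤ p ∧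
    p < z ^ (2 * v) := by
  classical
  set z := Nat.findGreatest (fun k => k ^ v ≤ p) p with hz
  have hp2 : 2 ≤ p := le_trans (by
    calc 2 = 2 ^ 1 := by norm_num
      _ ≤ 2 ^ v := Nat.pow_le_pow_right (by norm_num) (by omega)) hp
  have h2 : 2 ≤ z := Nat.le_findGreatest hp2 hp
  have h1 : z ^ v ≤ p := Nat.findGreatest_spec (P := fun k => k ^ v ≤ p) hp2 hp
  have hsq : z ^ 2 ≤ z ^ v := Nat.pow_le_pow_right (by omega) hv
  have hzlt : z < z ^ 2 := by nlinarith
  refine ⟨z, h2, by omega, h1, ?_⟩
  have h3 : p < (z + 1) ^ v := by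
    by_contra hcon
    push Not at hcon
    have h4 : z + 1 ≤ p := by omega
    have := Nat.le_findGreatest (P := fun k => k ^ v ≤ p) h4 hcon
    omega
  refine lt_of_lt_of_le h3 ?_
  rw [pow_mul]
  exact Nat.pow_le_pow_left (by nlinarith) v

open Classical in
theorem prime_matching_pr : ∃ c : ℝ, 0 < c ∧ ∃ p₀ : ℕ, ∀ p z : ℕ, p.Prime → p₀ ≤ p → z < p →
    ∃ M : Finset (ℕ × ℕ), (∀ t ∈ M, t.1 < p ∧ t.2 < p ∧ (cell p t.1 t.2).Prime ∧
      z < cell p t.1 t.2) ∧ (∀ t ∈ M, ∀ t' ∈ M, t.1 = t'.1 ∨ t.2 = t'.2 → t = t') ∧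
      c * p ≤ (M.card : ℝ) := by
  obtain ⟨u, X₀, hu, hX0, hline⟩ := line_one 1 one_pos
  obtain ⟨C, hC1, hC⟩ := vv_one_ge
  obtain ⟨c₀, hc0, x₀, hcheb⟩ := cheb
  set v : ℕ := u + 1 with hv
  set B : ℝ := 8 * C * v + 2 with hB
  have hvr : (1 : ℝ) ≤ v := by rw [hv]; push_cast; linarith [Nat.cast_nonneg (α := ℝ) u]
  have hBpos : 0 < B := by rw [hB]; nlinarith
  -- the size of p for the comparison with the trivial terms
  have hlog : ∃ P₁ : ℕ, ∀ p : ℕ, P₁ ≤ p → 4 * Real.log p ≤ c₀ * p := by
    have h1 : Filter.Tendsto (fun x : ℝ => Real.log x / x) Filter.atTop (nhds 0) := by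
      have h := Real.isLittleO_log_id_atTop.tendsto_div_nhds_zero
      simpa using h
    have h2 := (h1.comp tendsto_natCast_atTop_atTop).eventually
      (gt_mem_nhds (show (0 : ℝ) < c₀ / 4 by positivity))
    obtain ⟨P₁, hP₁⟩ := Filter.eventually_atTop.1 h2
    refine ⟨max P₁ 1, fun p hp => ?_⟩
    have h3 := hP₁ p (le_trans (le_max_left _ _) hp)
    have hp0 : (0 : ℝ) < p := by
      exact_mod_cast lt_of_lt_of_le one_pos (le_trans (le_max_right _ _) hp)
    simp only [Function.comp] at h3
    rw [div_lt_iff₀ hp0] at h3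
    linarith
  obtain ⟨P₁, hP₁⟩ := hlog
  refine ⟨c₀ / (8 * B), by positivity, max (max (2 ^ v) X₀) (max (max x₀ P₁) 3), ?_⟩
  intro p z hpp hp0 hzp
  have hp1 : 2 ^ v ≤ p := le_trans (le_trans (le_max_left _ _) (le_max_left _ _)) hp0
  have hp2 : X₀ ≤ p := le_trans (le_trans (le_max_right _ _) (le_max_left _ _)) hp0
  have hp3 : x₀ ≤ p := le_trans (le_trans (le_trans (le_max_left _ _) (le_max_left _ _))
    (le_max_right _ _)) hp0
  have hp4 : P₁ ≤ p := le_trans (le_trans (le_trans (le_max_right _ _) (le_max_left _ _))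
    (le_max_right _ _)) hp0
  have hp5 : 3 ≤ p := le_trans (le_trans (le_max_right _ _) (le_max_right _ _)) hp0
  obtain ⟨w, hw2, hwp, hwv, hwv2⟩ := gb_z v p (by omega) hp1
  have hpR : (0 : ℝ) < p := by exact_mod_cast (by omega : 0 < p)
  have hlogp : 0 < Real.log p := Real.log_pos (by exact_mod_cast (by omega : 1 < p))
  have hlogw : 0 < Real.log w := Real.log_pos (by exact_mod_cast (by omega : 1 < w))
  have hwR : (0 : ℝ) < w := by exact_mod_cast (by omega : 0 < w)
  -- log w >= log p / (2 v)
  have hlw : Real.log p ≤ 2 * v * Real.log w := by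
    have h1 : (p : ℝ) ≤ (w : ℝ) ^ (2 * v) := by exact_mod_cast hwv2.le
    have h2 := Real.log_le_log hpR h1
    rw [Real.log_pow] at h2
    push_cast at h2
    exact h2
  -- w <= sqrt p <= 2 p / log p
  have hw : (w : ℝ) ≤ 2 * p / Real.log p := by
    have h1 : w ^ 2 ≤ p := le_trans (Nat.pow_le_pow_right (by omega) (by omega : 2 ≤ v)) hwv
    have h1' : (w : ℝ) ^ 2 ≤ p := by exact_mod_cast h1
    have h2 : (w : ℝ) ≤ Real.sqrt p := Real.le_sqrt_of_sq_le h1'
    have h3 : Real.sqrt p * Real.sqrt p = p := Real.mul_self_sqrt hpR.le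
    have h4 : 0 < Real.sqrt p := Real.sqrt_pos.2 hpR
    have h5 : Real.log p ≤ 2 * Real.sqrt p := by
      have h6 : Real.log p = 2 * Real.log (Real.sqrt p) := by
        rw [Real.log_sqrt hpR.le]; ring
      rw [h6]
      have := Real.log_le_sub_one_of_pos h4
      linarith
    rw [le_div_iff₀ hlogp]
    nlinarith
  have hbound : ∀ (r : Bool) (i : ℕ), i < p →
      (((range p).filter (fun j => (ent p r i j).Prime)).card : ℝ) ≤ B * p / Real.log p := by
    intro r i hi
    have h1 := (hline p w r i 0 p hpp hwp hw2 hp2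
      (le_trans (Nat.pow_le_pow_right (by omega) (by omega : u ≤ v)) hwv) hi (by omega)).1
    have h2 := gb_line p w (by omega) r i _ h1
    refine h2.trans ?_
    have h3 : VV one w ≤ C / Real.log w := (hC w hw2).2
    have h4 : C / Real.log w ≤ 2 * v * C / Real.log p := by
      rw [div_le_div_iff₀ hlogw hlogp]
      nlinarith
    have h5 : (1 + 1) * (p : ℝ) * VV one w ≤ (1 + 1) * p * (2 * v * C / Real.log p) :=
      mul_le_mul_of_nonneg_left (h3.trans h4) (by positivity)
    have h6 : B * p / Real.log p = (1 + 1) * p * (2 * v * C / Real.log p) +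
        (4 * v * C * p / Real.log p + 2 * p / Real.log p) := by
      rw [hB]; field_simp; ring
    have h7 : 0 ≤ 4 * v * C * p / Real.log p := by positivity
    rw [h6]
    linarith
  set Δ : ℕ := ⌊B * p / Real.log p⌋₊ with hΔ
  have hΔ0 : 0 ≤ B * p / Real.log p := by positivity
  have hΔ1 : (Δ : ℝ) ≤ B * p / Real.log p := Nat.floor_le hΔ0
  obtain ⟨hd1, hd2⟩ := gb_deg p z Δ (fun r i hi => Nat.le_floor (hbound r i hi))
  obtain ⟨M, hM1, hM2, hM3⟩ := greedy (gbT p z) Δ hd1 hd2
  refine ⟨M, ?_, hM2, ?_⟩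
  · intro t ht
    have := hM1 ht
    unfold gbT at this
    rw [mem_filter, mem_product, mem_range, mem_range] at this
    exact ⟨this.1.1, this.1.2, this.2.1, this.2.2⟩
  · have h1 := gb_T_card p z (by omega)
    have h2 := hcheb (p ^ 2) (by nlinarith)
    have h3 : (((Icc 1 (p ^ 2)).filter Nat.Prime).card : ℝ) ≤ (gbT p z).card + z := by
      exact_mod_cast h1
    have h4 : ((gbT p z).card : ℝ) ≤ 2 * M.card * Δ := by exact_mod_cast hM3
    have h5 : (z : ℝ) ≤ p := by exact_mod_cast hzp.le
    have h6 := hP₁ p hp4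
    have h7 : c₀ * ((p ^ 2 : ℕ) : ℝ) / Real.log ((p ^ 2 : ℕ) : ℝ) = c₀ * p ^ 2 / (2 * Real.log p) := by
      push_cast
      rw [Real.log_pow]
      push_cast
      ring
    rw [h7] at h2
    have h8 : (p : ℝ) ≤ c₀ * p ^ 2 / (4 * Real.log p) := by
      rw [le_div_iff₀ (by positivity)]
      nlinarith
    have h9 : c₀ * (p : ℝ) ^ 2 / (4 * Real.log p) ≤ 2 * M.card * (B * p / Real.log p) := by
      have e : c₀ * (p : ℝ) ^ 2 / (2 * Real.log p) = c₀ * p ^ 2 / (4 * Real.log p) +
          c₀ * p ^ 2 / (4 * Real.log p) := by field_simp; ring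
      have h10 : (2 : ℝ) * M.card * Δ ≤ 2 * M.card * (B * p / Real.log p) :=
        mul_le_mul_of_nonneg_left hΔ1 (by positivity)
      linarith
    have h11 : c₀ * (p : ℝ) ^ 2 / (4 * Real.log p) = (c₀ / (8 * B) * p) * (2 * (B * p / Real.log p)) := by
      field_simp
      ring
    have h12 : 2 * (M.card : ℝ) * (B * p / Real.log p) = M.card * (2 * (B * p / Real.log p)) := by ring
    rw [h11, h12] at h9
    exact le_of_mul_le_mul_right h9 (by positivity)

end Pool.Agent.APT

namespace Pool.Agent.APT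

theorem prime_matching : type_of% @prime_matching_pr := @prime_matching_pr

end Pool.Agent.APT
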