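import Mathlib
import Pool.Agent.Lib_helper13.APT.Defs

namespace Pool.Agent.APT

theorem ro_parity_pr (p z i j : ℕ) (hp : p % 2 = 1) (hz : 2 ≤ z) (h : Ro z (cell p i j)) :
    i % 2 = j % 2 := by
  have h2 : (2 : ℕ) ∈ Pz z := by
    unfold Pz
    exact Finset.mem_filter.2 ⟨Finset.mem_Icc.2 ⟨by norm_num, hz⟩, Nat.prime_two⟩
  have h3 : ¬ 2 ∣ cell p i j := h.2 2 h2
  have h4 : (cell p i j) % 2 = 1 := by omega
  unfold cell at h4
  have h5 : (i * p) % 2 = i % 2 := by
    rw [Nat.mul_mod, hp, mul_one, Nat.mod_mod]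
  omega

theorem gc_list (p K : ℕ) (hp : 0 < p) : ∀ l : List ℕ, (∀ q ∈ l, p < q ^ K) →
    p ^ l.length ≤ l.prod ^ K ∧ (l ≠ [] → p ^ l.length < l.prod ^ K) := by
  intro l
  induction l with
  | nil => intro _; simp
  | cons a t ih =>
    intro h
    have ht := (ih (fun q hq => h q (List.mem_cons_of_mem _ hq))).1
    have ha : p < a ^ K := h a (by simp)
    have hpos : 0 < t.prod ^ K := lt_of_lt_of_le (pow_pos hp _) ht
    have key : p ^ (a :: t).length < (a :: t).prod ^ K := by
      rw [List.length_cons, List.prod_cons, pow_succ, mul_pow, mul_comm (p ^ t.length) p]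
      exact Nat.mul_lt_mul_of_lt_of_le ha ht hpos
    exact ⟨key.le, fun _ => key⟩

theorem omega_cell_pr (p K i j : ℕ) (hK : 1 ≤ K) (hi : i < p) (hj : j < p)
    (h : ∀ q : ℕ, q.Prime → q ∣ cell p i j → p < q ^ K) :
    (cell p i j).primeFactorsList.length < 2 * K := by
  by_contra hcon
  push Not at hcon
  have hp : 0 < p := by omega
  have hn0 : cell p i j ≠ 0 := by unfold cell; omega
  have hn : cell p i j ≤ p ^ 2 := by
    unfold cell
    obtain ⟨k, rfl⟩ : ∃ k, p = i + 1 + k := ⟨p - (i + 1), by omega⟩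
    nlinarith [Nat.zero_le k, Nat.zero_le i, Nat.zero_le (k * i), Nat.zero_le (k * k)]
  have hl := gc_list p K hp (cell p i j).primeFactorsList (fun q hq =>
    h q (Nat.prime_of_mem_primeFactorsList hq) (Nat.dvd_of_mem_primeFactorsList hq))
  have hne : (cell p i j).primeFactorsList ≠ [] := by
    intro h0
    rw [h0] at hcon
    simp at hcon
    omega
  have h1 := hl.2 hne
  rw [Nat.prod_primeFactorsList hn0] at h1
  have h2 : p ^ (2 * K) ≤ p ^ (cell p i j).primeFactorsList.length :=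
    Nat.pow_le_pow_right hp hcon
  have h3 : (cell p i j) ^ K ≤ (p ^ 2) ^ K := Nat.pow_le_pow_left hn K
  rw [← pow_mul] at h3
  omega

end Pool.Agent.APT

namespace Pool.Agent.APT

theorem ro_parity : type_of% @ro_parity_pr := @ro_parity_pr

theorem omega_cell : type_of% @omega_cell_pr := @omega_cell_pr

end Pool.Agent.APT
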