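import Mathlib
import Pool.Agent.Lib_helper13.APT.Defs

set_option autoImplicit false

namespace Pool.Agent.APT

open Finset

theorem LB_class (a b : ℕ) {P : ℕ} (hP : 0 < P) (hc : Nat.Coprime a P) :
    ∃ r : ℕ, ∀ t, P ∣ a * t + b ↔ t ≡ r [MOD P] := by
  obtain ⟨a', ha'⟩ : ∃ a' : ℕ, a * a' ≡ 1 [MOD P] := by
    rcases Nat.lt_or_ge 1 P with h1 | h1
    · obtain ⟨m, -, hm⟩ := Nat.exists_mul_mod_eq_one_of_coprime hc h1
      refine ⟨m, ?_⟩
      change a * m % P = 1 % P
      rw [hm, Nat.mod_eq_of_lt h1]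
    · have : P = 1 := by omega
      subst this
      exact ⟨0, Nat.modEq_one⟩
  refine ⟨a' * ((P - 1) * b), fun t => ?_⟩
  have h1 : a * (a' * ((P - 1) * b)) + b ≡ 0 [MOD P] := by
    have e1 : a * a' * ((P - 1) * b) ≡ 1 * ((P - 1) * b) [MOD P] := Nat.ModEq.mul_right _ ha'
    have e2 : (P - 1) * b + b = P * b := by
      obtain ⟨m, rfl⟩ : ∃ m, P = m + 1 := ⟨P - 1, by omega⟩
      simp
      ring
    calc a * (a' * ((P - 1) * b)) + b = a * a' * ((P - 1) * b) + b := by ring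
      _ ≡ 1 * ((P - 1) * b) + b [MOD P] := e1.add_right b
      _ = P * b := by rw [one_mul, e2]
      _ ≡ 0 [MOD P] := by
        rw [Nat.modEq_zero_iff_dvd]
        exact Dvd.intro b rfl
  constructor
  · intro h
    have h2 : a * t + b ≡ 0 [MOD P] := (Nat.modEq_zero_iff_dvd).2 h
    have h3 : a * t + b ≡ a * (a' * ((P - 1) * b)) + b [MOD P] := h2.trans h1.symm
    have h4 := Nat.ModEq.add_right_cancel' b h3
    exact Nat.ModEq.cancel_left_of_coprime (Nat.Coprime.symm hc) h4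
  · intro h
    have h2 : a * t + b ≡ a * (a' * ((P - 1) * b)) + b [MOD P] :=
      (Nat.ModEq.mul_left a h).add_right b
    exact (Nat.modEq_zero_iff_dvd).1 (h2.trans h1)

theorem LB_count (s X r : ℕ) {P : ℕ} (hP : 0 < P) :
    |(((Ico s (s + X)).filter (fun t => t ≡ r [MOD P])).card : ℝ) - X * (1 / (P : ℝ))| ≤ 1 := by
  have h := Nat.Ico_filter_modEq_card s (s + X) hP r
  set c := ((Ico s (s + X)).filter (fun t => t ≡ r [MOD P])).card with hc
  have hPq : (0 : ℚ) < P := by exact_mod_cast hP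
  set A : ℚ := ((s : ℚ) - r) / P with hA
  set B : ℚ := (((s + X : ℕ) : ℚ) - r) / P with hB
  have hAB : B = A + X / P := by
    rw [hA, hB]
    push_cast
    ring
  have a1 := Int.le_ceil A
  have a2 := Int.ceil_lt_add_one A
  have b1 := Int.le_ceil B
  have b2 := Int.ceil_lt_add_one B
  have hX : (0 : ℚ) ≤ X / P := div_nonneg (Nat.cast_nonneg _) hPq.le
  have hq : |(c : ℚ) - X * (1 / (P : ℚ))| ≤ 1 := by
    have e : (X : ℚ) * (1 / (P : ℚ)) = X / P := by ring
    rw [e]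
    have hcc : (c : ℚ) = max ((⌈B⌉ : ℚ) - (⌈A⌉ : ℚ)) 0 := by
      have : ((c : ℤ) : ℚ) = ((max (⌈B⌉ - ⌈A⌉) 0 : ℤ) : ℚ) := by rw [h]
      push_cast at this
      exact this
    rw [hcc, abs_le]
    rcases max_cases ((⌈B⌉ : ℚ) - (⌈A⌉ : ℚ)) 0 with ⟨h1, h2⟩ | ⟨h1, h2⟩
    · rw [h1]
      constructor <;> linarith
    · rw [h1]
      constructor <;> linarith
  have hr : |(((c : ℚ) - X * (1 / (P : ℚ)) : ℚ) : ℝ)| ≤ 1 := by
    rw [← Rat.cast_abs]
    exact_mod_cast hq
  push_cast at hr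
  exact hr


theorem LB_gen (a b b' s X : ℕ) (D : Finset ℕ) :
    (∀ q ∈ D, q.Prime ∧ ¬ q ∣ a) → ((2 : ℤ) ∣ (b : ℤ) - b') →
    ∀ P r : ℕ, 0 < P → (∀ q ∈ D, Nat.Coprime P q) →
    |(((Ico s (s + X)).filter (fun t => t ≡ r [MOD P] ∧
        ∀ q ∈ D, (q ∣ a * t + b ∨ q ∣ a * t + b'))).card : ℝ)
      - X * (1 / (P : ℝ)) * ∏ q ∈ D, (nu2 ((b : ℤ) - b') q : ℝ) / q| ≤
      ∏ q ∈ D, (nu2 ((b : ℤ) - b') q : ℝ) := by
  classical
  induction D using Finset.induction_on with
  | empty =>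
    intro _ _ P r hP _
    have h := LB_count s X r hP
    have e : (Ico s (s + X)).filter (fun t => t ≡ r [MOD P] ∧
        ∀ q ∈ (∅ : Finset ℕ), (q ∣ a * t + b ∨ q ∣ a * t + b')) =
        (Ico s (s + X)).filter (fun t => t ≡ r [MOD P]) := by
      apply Finset.filter_congr
      intro t _
      simp
    rw [e]
    simpa using h
  | insert q D hq ih =>
    intro hD h2 P r hP hcop
    have hqp := (hD q (Finset.mem_insert_self q D)).1
    have hqa := (hD q (Finset.mem_insert_self q D)).2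
    have hPq := hcop q (Finset.mem_insert_self q D)
    have hD' : ∀ q' ∈ D, q'.Prime ∧ ¬ q' ∣ a := fun q' h' => hD q' (Finset.mem_insert_of_mem h')
    have hcop' : ∀ q' ∈ D, Nat.Coprime (P * q) q' := by
      intro q' h'
      have h1 := hcop q' (Finset.mem_insert_of_mem h')
      have h3 : q ≠ q' := fun h => hq (h ▸ h')
      exact Nat.Coprime.mul_left h1 ((Nat.coprime_primes hqp (hD' q' h').1).2 h3)
    have hcopa : Nat.Coprime a q := (hqp.coprime_iff_not_dvd.2 hqa).symm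
    obtain ⟨c1, hc1⟩ := LB_class a b hqp.pos hcopa
    obtain ⟨c2, hc2⟩ := LB_class a b' hqp.pos hcopa
    have hPq0 : 0 < P * q := Nat.mul_pos hP hqp.pos
    -- one class
    have hone : ∀ c : ℕ, ∃ r' : ℕ, ∀ t : ℕ, (t ≡ r [MOD P] ∧ t ≡ c [MOD q]) ↔
        t ≡ r' [MOD P * q] := by
      intro c
      obtain ⟨k, hk1, hk2⟩ := Nat.chineseRemainder hPq r c
      refine ⟨k, fun t => ?_⟩
      rw [← Nat.modEq_and_modEq_iff_modEq_mul hPq]
      constructor
      · rintro ⟨h1, h3⟩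
        exact ⟨h1.trans hk1.symm, h3.trans hk2.symm⟩
      · rintro ⟨h1, h3⟩
        exact ⟨h1.trans hk1, h3.trans hk2⟩
    have hcount : ∀ c : ℕ, |(((Ico s (s + X)).filter (fun t => (t ≡ r [MOD P] ∧ t ≡ c [MOD q]) ∧
        ∀ q ∈ D, (q ∣ a * t + b ∨ q ∣ a * t + b'))).card : ℝ)
        - X * (1 / ((P * q : ℕ) : ℝ)) * ∏ q ∈ D, (nu2 ((b : ℤ) - b') q : ℝ) / q| ≤
        ∏ q ∈ D, (nu2 ((b : ℤ) - b') q : ℝ) := by
      intro c
      obtain ⟨r', hr'⟩ := hone c
      have h3 := ih hD' h2 (P * q) r' hPq0 hcop'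
      have e : (Ico s (s + X)).filter (fun t => (t ≡ r [MOD P] ∧ t ≡ c [MOD q]) ∧
          ∀ q ∈ D, (q ∣ a * t + b ∨ q ∣ a * t + b')) =
          (Ico s (s + X)).filter (fun t => t ≡ r' [MOD P * q] ∧
          ∀ q ∈ D, (q ∣ a * t + b ∨ q ∣ a * t + b')) := by
        apply Finset.filter_congr
        intro t _
        rw [hr' t]
      rw [e]
      exact h3
    rw [Finset.prod_insert hq, Finset.prod_insert hq]
    have hPr : (0 : ℝ) < P := by exact_mod_cast hP
    have hqr : (0 : ℝ) < q := by exact_mod_cast hqp.pos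
    have hPQ : (1 / ((P * q : ℕ) : ℝ)) = 1 / (P : ℝ) * (1 / q) := by
      push_cast
      field_simp
    by_cases hdv : (q : ℤ) ∣ (b : ℤ) - b'
    · -- one class
      have hν : nu2 ((b : ℤ) - b') q = 1 := by
        unfold nu2; rw [if_pos (Or.inl hdv)]
      have e : (Ico s (s + X)).filter (fun t => t ≡ r [MOD P] ∧
          ∀ q' ∈ insert q D, (q' ∣ a * t + b ∨ q' ∣ a * t + b')) =
          (Ico s (s + X)).filter (fun t => (t ≡ r [MOD P] ∧ t ≡ c1 [MOD q]) ∧
          ∀ q ∈ D, (q ∣ a * t + b ∨ q ∣ a * t + b')) := by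
        apply Finset.filter_congr
        intro t _
        have hiff : (q ∣ a * t + b ∨ q ∣ a * t + b') ↔ t ≡ c1 [MOD q] := by
          rw [← hc1 t]
          constructor
          · rintro (h | h)
            · exact h
            · have h4 : (q : ℤ) ∣ ((a * t + b' : ℕ) : ℤ) := by exact_mod_cast h
              have h5 := dvd_add h4 hdv
              have h6 : ((a * t + b' : ℕ) : ℤ) + ((b : ℤ) - b') = ((a * t + b : ℕ) : ℤ) := by
                push_cast; ring
              rw [h6] at h5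
              exact_mod_cast h5
          · intro h
            exact Or.inl h
        rw [Finset.forall_mem_insert, hiff]
        tauto
      rw [e, hν]
      have h3 := hcount c1
      rw [hPQ] at h3
      have e2 : (X : ℝ) * (1 / (P : ℝ)) * (((1 : ℕ) : ℝ) / q *
          ∏ q ∈ D, (nu2 ((b : ℤ) - b') q : ℝ) / q) =
          X * (1 / (P : ℝ) * (1 / q)) * ∏ q ∈ D, (nu2 ((b : ℤ) - b') q : ℝ) / q := by
        push_cast
        ring
      rw [e2]
      simpa using h3
    · have hq2 : q ≠ 2 := by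
        rintro rfl
        exact hdv h2
      have hν : nu2 ((b : ℤ) - b') q = 2 := by
        unfold nu2; rw [if_neg]
        rintro (h | h)
        · exact hdv h
        · exact hq2 h
      have e : (Ico s (s + X)).filter (fun t => t ≡ r [MOD P] ∧
          ∀ q' ∈ insert q D, (q' ∣ a * t + b ∨ q' ∣ a * t + b')) =
          (Ico s (s + X)).filter (fun t => (t ≡ r [MOD P] ∧ t ≡ c1 [MOD q]) ∧
            ∀ q ∈ D, (q ∣ a * t + b ∨ q ∣ a * t + b')) ∪
          (Ico s (s + X)).filter (fun t => (t ≡ r [MOD P] ∧ t ≡ c2 [MOD q]) ∧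
            ∀ q ∈ D, (q ∣ a * t + b ∨ q ∣ a * t + b')) := by
        rw [← Finset.filter_or]
        apply Finset.filter_congr
        intro t _
        rw [Finset.forall_mem_insert, hc1 t, hc2 t]
        tauto
      have hdisj : Disjoint ((Ico s (s + X)).filter (fun t => (t ≡ r [MOD P] ∧ t ≡ c1 [MOD q]) ∧
            ∀ q ∈ D, (q ∣ a * t + b ∨ q ∣ a * t + b')))
          ((Ico s (s + X)).filter (fun t => (t ≡ r [MOD P] ∧ t ≡ c2 [MOD q]) ∧
            ∀ q ∈ D, (q ∣ a * t + b ∨ q ∣ a * t + b'))) := by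
        rw [Finset.disjoint_filter]
        rintro t _ ⟨⟨_, h4⟩, _⟩ ⟨⟨_, h5⟩, _⟩
        rw [← hc1 t] at h4
        rw [← hc2 t] at h5
        apply hdv
        have h6 : (q : ℤ) ∣ ((a * t + b : ℕ) : ℤ) := by exact_mod_cast h4
        have h7 : (q : ℤ) ∣ ((a * t + b' : ℕ) : ℤ) := by exact_mod_cast h5
        have h8 := dvd_sub h6 h7
        have h9 : ((a * t + b : ℕ) : ℤ) - ((a * t + b' : ℕ) : ℤ) = (b : ℤ) - b' := by
          push_cast; ring
        rwa [h9] at h8
      rw [e, Finset.card_union_of_disjoint hdisj, hν]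
      have h3 := hcount c1
      have h4 := hcount c2
      rw [hPQ] at h3 h4
      rw [abs_le] at h3 h4 ⊢
      push_cast
      have e2 : (X : ℝ) * (1 / (P : ℝ)) * ((2 : ℝ) / q *
          ∏ q ∈ D, (nu2 ((b : ℤ) - b') q : ℝ) / q) =
          2 * (X * (1 / (P : ℝ) * (1 / q)) * ∏ q ∈ D, (nu2 ((b : ℤ) - b') q : ℝ) / q) := by
        ring
      rw [e2]
      constructor <;> linarith [h3.1, h3.2, h4.1, h4.2]

/-- LB: two linear forms -/
theorem two_SV_pr (a b b' s X z : ℕ) (ha : ∀ q ∈ Pz z, ¬ q ∣ a) (h2 : (2 : ℤ) ∣ (b : ℤ) - b') :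
    SV (Ico s (s + X)) (fun q t => q ∣ a * t + b ∨ q ∣ a * t + b') X (nu2 ((b : ℤ) - b')) z := by
  classical
  intro D hD
  have key := LB_gen a b b' s X D (fun q hq => ⟨(Finset.mem_filter.1 (hD hq)).2, ha q (hD hq)⟩) h2
    1 0 Nat.one_pos (fun q _ => Nat.coprime_one_left q)
  have e : (Ico s (s + X)).filter (fun t => t ≡ 0 [MOD 1] ∧
        ∀ q ∈ D, (q ∣ a * t + b ∨ q ∣ a * t + b')) =
      (Ico s (s + X)).filter (fun t => ∀ q ∈ D, (q ∣ a * t + b ∨ q ∣ a * t + b')) := by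
    apply Finset.filter_congr
    intro t _
    simp [Nat.modEq_one]
  rw [e] at key
  simp only [Nat.cast_one, div_one, mul_one] at key
  convert key using 4
  refine congrArg Finset.card ?_
  ext t
  simp

end Pool.Agent.APT

namespace Pool.Agent.APT

theorem two_SV : type_of% @two_SV_pr := @two_SV_pr

end Pool.Agent.APT
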