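import Mathlib
import Pool.Agent.Lib_helper13.APT.Defs
import Pool.Agent.Lib_helper13.APTF.LB
import Pool.Agent.Lib_helper13.APTF.LC
import Pool.Agent.Lib_helper13.APTF.SH

/-!
# Almost prime transversals (MP_6c4857_nt): block GA2, two lines
-/

namespace Pool.Agent.APT

open Finset

theorem ga2_vv (z : ℕ) (μ ν : ℕ → ℕ) (h : ∀ q ∈ Pz z, μ q = ν q) : VV μ z = VV ν z := by
  unfold VV
  exact Finset.prod_congr rfl fun q hq => by rw [h q hq]

theorem ga2_dvd {p z q : ℕ} (hp : p.Prime) (hz : z < p) (hq : q ∈ Pz z) : ¬ q ∣ p := by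
  unfold Pz at hq
  rw [mem_filter, mem_Icc] at hq
  intro h
  rcases (Nat.dvd_prime hp).1 h with h1 | h1
  · exact hq.2.one_lt.ne' h1
  · omega

theorem ga2_nu (p z : ℕ) (hp : p.Prime) (hz : z < p) (h : ℤ) (q : ℕ) (hq : q ∈ Pz z) :
    nu2 (h * p) q = nu2 h q := by
  have hqp := ga2_dvd hp hz hq
  have hq1 : q.Prime := by
    unfold Pz at hq
    exact (mem_filter.1 hq).2
  have key : (q : ℤ) ∣ h * p ↔ (q : ℤ) ∣ h := by
    constructor
    · intro h1
      rcases (Nat.prime_iff_prime_int.1 hq1).dvd_or_dvd h1 with h2 | h2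
      · exact h2
      · exact absurd (Int.natCast_dvd_natCast.1 h2) hqp
    · intro h1
      exact h1.mul_right _
  unfold nu2
  exact if_congr (or_congr key Iff.rfl) rfl rfl

theorem ga2_sif {ι : Type} (A : Finset ι) (E : ℕ → ι → Prop) (z : ℕ) (a : ι) (ha : a ∈ A)
    (h : ∀ q ∈ Pz z, ¬ E q a) : a ∈ sif A E z := by
  classical
  unfold sif
  exact mem_filter.2 ⟨ha, h⟩

open Classical in
/-- GA2: two lines (uses SH, LB, LC1, LC2) -/
theorem line_two_pr (η : ℝ) (hη : 0 < η) : ∃ (u X₀ : ℕ), 1 ≤ u ∧ 1 ≤ X₀ ∧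
    ∀ (p z : ℕ) (r : Bool) (i i' : ℕ), p.Prime → z < p → 2 ≤ z → X₀ ≤ p → z ^ u ≤ p → i < p →
      i' < p → i % 2 = i' % 2 →
      (((range p).filter (fun j => Ro z (ent p r i j) ∧ Ro z (ent p r i' j))).card : ℝ) ≤
        (1 + η) * p * (2 * VV one z ^ 2 * wt z ((i : ℤ) - i')) := by
  obtain ⟨u, X₀, hu, hX, h⟩ := fund η hη
  refine ⟨u, max 1 ⌈X₀⌉₊, hu, le_max_left _ _, ?_⟩
  intro p z r i i' hp hz hz2 hXp hzu _ _ hpar
  have hXp' : X₀ ≤ (p : ℝ) := (Nat.le_ceil X₀).trans (by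
    exact_mod_cast (le_max_right _ _).trans hXp)
  have hzu' : (z : ℝ) ^ u ≤ (p : ℝ) := by exact_mod_cast hzu
  rw [← vv_nu2 z _ hz2]
  -- the coefficients
  obtain ⟨a, b, b', ha, hb, hb', h2, hnu⟩ : ∃ a b b' : ℕ, (∀ q ∈ Pz z, ¬ q ∣ a) ∧
      (∀ j, ent p r i j = a * j + b) ∧ (∀ j, ent p r i' j = a * j + b') ∧
      ((2 : ℤ) ∣ (b : ℤ) - b') ∧
      VV (nu2 ((b : ℤ) - b')) z = VV (nu2 ((i : ℤ) - i')) z := by
    have h3 : (2 : ℤ) ∣ (i : ℤ) - i' := by omega
    cases r with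
    | true =>
      refine ⟨1, i * p + 1, i' * p + 1, ?_, ?_, ?_, ?_, ?_⟩
      · intro q hq h1
        have hq1 : q.Prime := by
          unfold Pz at hq
          exact (mem_filter.1 hq).2
        exact hq1.one_lt.ne' (Nat.dvd_one.1 h1)
      · intro j
        simp only [ent, cell, if_true]
        ring
      · intro j
        simp only [ent, cell, if_true]
        ring
      · have h4 : ((i * p + 1 : ℕ) : ℤ) - ((i' * p + 1 : ℕ) : ℤ) = ((i : ℤ) - i') * p := by
          push_cast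
          ring
        rw [h4]
        exact h3.mul_right _
      · have h4 : ((i * p + 1 : ℕ) : ℤ) - ((i' * p + 1 : ℕ) : ℤ) = ((i : ℤ) - i') * p := by
          push_cast
          ring
        rw [h4]
        exact ga2_vv z _ _ fun q hq => ga2_nu p z hp hz _ q hq
    | false =>
      refine ⟨p, i + 1, i' + 1, fun q hq => ga2_dvd hp hz hq, ?_, ?_, ?_, ?_⟩
      · intro j
        simp only [ent, cell]
        norm_num
        ring
      · intro j
        simp only [ent, cell]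
        norm_num
        ring
      · have h4 : ((i + 1 : ℕ) : ℤ) - ((i' + 1 : ℕ) : ℤ) = (i : ℤ) - i' := by
          push_cast
          ring
        rw [h4]
        exact h3
      · have h4 : ((i + 1 : ℕ) : ℤ) - ((i' + 1 : ℕ) : ℤ) = (i : ℤ) - i' := by
          push_cast
          ring
        rw [h4]
  have hSV := two_SV a b b' 0 p z ha h2
  have hup := (h (Ico 0 (0 + p)) (fun q t => q ∣ a * t + b ∨ q ∣ a * t + b') (p : ℝ) z hXp' hz2
    hzu').1 _ (nu2_NU _) hSV
  rw [hnu] at hup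
  refine le_trans ?_ hup
  rw [Nat.cast_le]
  refine Finset.card_le_card fun j hj => ?_
  rw [mem_filter, mem_range] at hj
  obtain ⟨hj1, hj2, hj3⟩ := hj
  refine ga2_sif _ _ _ _ (mem_Ico.2 ⟨Nat.zero_le _, by omega⟩) fun q hq hd => ?_
  rcases hd with hd | hd
  · exact hj2.2 q hq (by rw [hb]; exact hd)
  · exact hj3.2 q hq (by rw [hb']; exact hd)

end Pool.Agent.APT

namespace Pool.Agent.APT

theorem line_two : type_of% @line_two_pr := @line_two_pr

end Pool.Agent.APT
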