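import Mathlib
import Pool.Agent.Lib_helper13.APT.Defs

/-!
# APT block HA: Cauchy-Schwarz for codegrees
-/

namespace Pool.Agent.APT

open Finset

open Classical in
theorem HA_first {α β : Type} [Fintype β] (E : α → β → Prop) (S : Finset α) :
    ∑ a ∈ S, (cod E a a).card = ∑ b ∈ nbh E S, (S.filter (fun a => E a b)).card := by
  have h1 : ∀ a ∈ S, (cod E a a).card = ∑ b ∈ nbh E S, if E a b then 1 else 0 := by
    intro a ha
    rw [← Finset.card_filter]
    congr 1
    ext b
    simp only [cod, nbh, mem_filter, mem_univ, true_and, and_self]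
    exact ⟨fun h => ⟨⟨a, ha, h⟩, h⟩, fun h => h.2⟩
  rw [Finset.sum_congr rfl h1, Finset.sum_comm]
  refine Finset.sum_congr rfl fun b _ => ?_
  rw [← Finset.card_filter]

open Classical in
theorem HA_second {α β : Type} [Fintype β] (E : α → β → Prop) (S : Finset α) :
    ∑ a ∈ S, ∑ a' ∈ S, (cod E a a').card =
      ∑ b ∈ nbh E S, (S.filter (fun a => E a b)).card ^ 2 := by
  have h1 : ∀ a ∈ S, ∀ a' ∈ S, (cod E a a').card =
      ∑ b ∈ nbh E S, (if E a b then 1 else 0) * (if E a' b then 1 else 0) := by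
    intro a ha a' _
    have h2 : (cod E a a').card = ∑ b ∈ nbh E S, if (E a b ∧ E a' b) then 1 else 0 := by
      rw [← Finset.card_filter]
      congr 1
      ext b
      simp only [cod, nbh, mem_filter, mem_univ, true_and]
      exact ⟨fun h => ⟨⟨a, ha, h.1⟩, h⟩, fun h => h.2⟩
    rw [h2]
    refine Finset.sum_congr rfl fun b _ => ?_
    by_cases h3 : E a b <;> by_cases h4 : E a' b <;> simp [h3, h4]
  rw [Finset.sum_congr rfl fun a ha => Finset.sum_congr rfl fun a' ha' => h1 a ha a' ha']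
  have h3 : ∀ a ∈ S, ∑ a' ∈ S, ∑ b ∈ nbh E S,
      (if E a b then 1 else 0) * (if E a' b then 1 else 0) =
      ∑ b ∈ nbh E S, ∑ a' ∈ S, (if E a b then 1 else 0) * (if E a' b then 1 else 0) :=
    fun a _ => Finset.sum_comm
  rw [Finset.sum_congr rfl h3, Finset.sum_comm]
  refine Finset.sum_congr rfl fun b _ => ?_
  rw [← Finset.sum_mul_sum, sq, ← Finset.card_filter]

theorem cs_pr {α β : Type} [Fintype β] (E : α → β → Prop) (S : Finset α) :
    (∑ a ∈ S, (cod E a a).card) ^ 2 ≤ (nbh E S).card * ∑ a ∈ S, ∑ a' ∈ S, (cod E a a').card := by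
  classical
  rw [HA_first, HA_second]
  exact sq_sum_le_card_mul_sum_sq

end Pool.Agent.APT

namespace Pool.Agent.APT

theorem cs : type_of% @cs_pr := @cs_pr

end Pool.Agent.APT
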