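import Mathlib
import Pool.Agent.Lib_helper13.APT.Defs
import Pool.Agent.Lib_helper13.APTF.HA

namespace Pool.Agent.APT

open Finset

theorem hc_sum {α : Type} (N : ℕ) (k : α → ℕ) (w : ℕ → ℕ → ℝ) (hk : Function.Injective k)
    (hkN : ∀ a, k a < N) (hw : ∀ i j, 3 / 5 ≤ w i j)
    (hws : ∀ i < N, ∑ j ∈ (range N).erase i, w i j ≤ N) [DecidableEq α]
    (S : Finset α) (hS : 2 * S.card ≤ N + 1) (a : α) (ha : a ∈ S) :
    ∑ a' ∈ S.erase a, w (k a) (k a') ≤ 7 / 10 * N + 3 / 10 := by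
  have h1 : ∑ a' ∈ S.erase a, w (k a) (k a') = ∑ j ∈ (S.erase a).image k, w (k a) j := by
    rw [sum_image]
    intro x _ y _ hxy
    exact hk hxy
  have hsub : (S.erase a).image k ⊆ (range N).erase (k a) := by
    intro j hj
    rw [mem_image] at hj
    obtain ⟨b, hb, rfl⟩ := hj
    rw [mem_erase] at hb
    rw [mem_erase, mem_range]
    exact ⟨fun h => hb.1 (hk h), hkN b⟩
  have h2 := sum_sdiff hsub (f := fun j => w (k a) j)
  have hcard : (((range N).erase (k a)) \ (S.erase a).image k).card = N - S.card := by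
    rw [card_sdiff_of_subset hsub, card_erase_of_mem (mem_range.mpr (hkN a)), card_range,
      card_image_of_injective _ hk, card_erase_of_mem ha]
    have : 1 ≤ S.card := card_pos.mpr ⟨a, ha⟩
    omega
  have hSN : S.card ≤ N := by
    have : (S.image k).card ≤ (range N).card := by
      apply card_le_card
      intro j hj
      rw [mem_image] at hj
      obtain ⟨b, _, rfl⟩ := hj
      exact mem_range.mpr (hkN b)
    rwa [card_image_of_injective _ hk, card_range] at this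
  have h3 : (3 / 5 : ℝ) * (N - S.card) ≤
      ∑ j ∈ ((range N).erase (k a)) \ (S.erase a).image k, w (k a) j := by
    have h4 := card_nsmul_le_sum (((range N).erase (k a)) \ (S.erase a).image k)
      (fun j => w (k a) j) (3 / 5) (fun j _ => hw _ _)
    rw [hcard, nsmul_eq_mul, Nat.cast_sub hSN] at h4
    linarith
  have h5 := hws (k a) (hkN a)
  have h6 : (2 : ℝ) * S.card ≤ N + 1 := by exact_mod_cast hS
  rw [h1]
  linarith

theorem expand_pr {α β : Type} [Fintype β] (E : α → β → Prop) (N : ℕ) (k : α → ℕ)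
    (w : ℕ → ℕ → ℝ) (d D Λ : ℝ) (hd : 0 < d) (hΛ : 0 ≤ Λ) (hk : Function.Injective k)
    (hkN : ∀ a, k a < N) (hw : ∀ i j, 3 / 5 ≤ w i j)
    (hws : ∀ i < N, ∑ j ∈ (range N).erase i, w i j ≤ N)
    (hdeg : ∀ a, d ≤ ((cod E a a).card : ℝ)) (hdeg2 : ∀ a, ((cod E a a).card : ℝ) ≤ D)
    (hcod : ∀ a a', a ≠ a' → ((cod E a a').card : ℝ) ≤ Λ * w (k a) (k a'))
    (hq : D + Λ * (7 / 10 * N + 3 / 10) ≤ d ^ 2) (S : Finset α) (hS : 2 * S.card ≤ N + 1) :
    S.card ≤ (nbh E S).card := by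
  classical
  rcases S.eq_empty_or_nonempty with rfl | hne
  · simp
  have hs : (0 : ℝ) < S.card := by exact_mod_cast card_pos.mpr hne
  have h1 : (S.card : ℝ) * d ≤ ∑ a ∈ S, ((cod E a a).card : ℝ) := by
    have := card_nsmul_le_sum S (fun a => ((cod E a a).card : ℝ)) d (fun a _ => hdeg a)
    rwa [nsmul_eq_mul] at this
  have h2 : ∑ a ∈ S, ∑ a' ∈ S, ((cod E a a').card : ℝ) ≤ S.card * d ^ 2 := by
    have h3 : ∀ a ∈ S, ∑ a' ∈ S, ((cod E a a').card : ℝ) ≤ d ^ 2 := by
      intro a ha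
      rw [← add_sum_erase S _ ha]
      have h4 : ∑ a' ∈ S.erase a, ((cod E a a').card : ℝ) ≤
          ∑ a' ∈ S.erase a, Λ * w (k a) (k a') :=
        sum_le_sum (fun a' ha' => hcod a a' (fun h => (mem_erase.mp ha').1 h.symm))
      rw [← mul_sum] at h4
      have h5 := mul_le_mul_of_nonneg_left (hc_sum N k w hk hkN hw hws S hS a ha) hΛ
      have h6 := hdeg2 a
      linarith
    have h7 := sum_le_card_nsmul S _ _ h3
    rwa [nsmul_eq_mul] at h7
  have h8 : (∑ a ∈ S, ((cod E a a).card : ℝ)) ^ 2 ≤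
      (nbh E S).card * ∑ a ∈ S, ∑ a' ∈ S, ((cod E a a').card : ℝ) := by
    have := cs E S
    exact_mod_cast this
  have h9 : ((S.card : ℝ) * d) ^ 2 ≤ (∑ a ∈ S, ((cod E a a).card : ℝ)) ^ 2 :=
    pow_le_pow_left₀ (by positivity) h1 2
  have h10 : ((nbh E S).card : ℝ) * ∑ a ∈ S, ∑ a' ∈ S, ((cod E a a').card : ℝ) ≤
      (nbh E S).card * (S.card * d ^ 2) :=
    mul_le_mul_of_nonneg_left h2 (Nat.cast_nonneg _)
  have h11 : ((S.card : ℝ) * (S.card * d ^ 2)) ≤ (nbh E S).card * (S.card * d ^ 2) := by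
    nlinarith
  have h12 : (0 : ℝ) < S.card * d ^ 2 := by positivity
  have h13 := le_of_mul_le_mul_right h11 h12
  exact_mod_cast h13

end Pool.Agent.APT

namespace Pool.Agent.APT

theorem expand : type_of% @expand_pr := @expand_pr

end Pool.Agent.APT
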