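import Mathlib
import Pool.Agent.Lib_helper13.APT.Defs

/-!
# Block LD
-/

namespace Pool.Agent.APT

open Finset

theorem ld_three_le (z q : ℕ) (hq : q ∈ (Pz z).erase 2) : 3 ≤ q ∧ q.Prime := by
  unfold Pz at hq
  rw [Finset.mem_erase, Finset.mem_filter, Finset.mem_Icc] at hq
  have := hq.2.2.two_le
  exact ⟨by omega, hq.2.2⟩

/-- the number of the multiples of `d` up to `H` -/
theorem ld_count (H d : ℕ) (hd : 0 < d) :
    ((Icc 1 H).filter (fun h => d ∣ h)).card = H / d := by
  have := Nat.card_multiples H d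
  rw [← this]
  apply Finset.card_bij (fun h _ => h - 1)
  · intro h hh
    rw [Finset.mem_filter, Finset.mem_Icc] at hh
    rw [Finset.mem_filter, Finset.mem_range]
    have : h - 1 + 1 = h := by omega
    rw [this]
    exact ⟨by omega, hh.2⟩
  · intro a ha b hb hab
    rw [Finset.mem_filter, Finset.mem_Icc] at ha hb
    omega
  · intro b hb
    rw [Finset.mem_filter, Finset.mem_range] at hb
    refine ⟨b + 1, ?_, by omega⟩
    rw [Finset.mem_filter, Finset.mem_Icc]
    exact ⟨by omega, hb.2⟩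

/-- the factor for a prime -/
theorem ld_factor (q : ℕ) (h : ℕ) (hq : 3 ≤ q) (hp : q.Prime) :
    (1 - (nu2 (2 * (h : ℤ)) q : ℝ) / q) / (1 - 1 / (q : ℝ)) ^ 2
      = ((q : ℝ) - 2) * q / ((q : ℝ) - 1) ^ 2 * (1 + if q ∣ h then 1 / ((q : ℝ) - 2) else 0) := by
  have h5 : (3 : ℝ) ≤ q := by exact_mod_cast hq
  have h6 : (q : ℝ) - 1 ≠ 0 := by linarith
  have h7 : (q : ℝ) ≠ 0 := by linarith
  have h8 : (q : ℝ) - 2 ≠ 0 := by linarith
  have hdv : ((q : ℤ) ∣ 2 * (h : ℤ) ∨ q = 2) ↔ q ∣ h := by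
    constructor
    · rintro (h1 | h1)
      · have h2 : q ∣ 2 * h := by exact_mod_cast h1
        rcases hp.dvd_mul.mp h2 with h3 | h3
        · have := Nat.le_of_dvd (by norm_num) h3
          omega
        · exact h3
      · omega
    · intro h1
      left
      exact_mod_cast Dvd.dvd.mul_left h1 2
  have e1 : 1 - 1 / (q : ℝ) = ((q : ℝ) - 1) / q := by field_simp
  unfold nu2
  by_cases hc : q ∣ h
  · rw [if_pos (hdv.mpr hc), if_pos hc, e1]
    push_cast
    rw [e1]
    field_simp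
    ring
  · rw [if_neg (fun h1 => hc (hdv.mp h1)), if_neg hc, e1]
    push_cast
    have e2 : 1 - 2 / (q : ℝ) = ((q : ℝ) - 2) / q := by field_simp
    rw [e2, add_zero, mul_one]
    field_simp

/-- the sum over one side -/
theorem ld_half (z H : ℕ) : ∑ h ∈ Icc 1 H, wt z (2 * (h : ℤ)) ≤ H := by
  set s := (Pz z).erase 2 with hs
  set w : ℕ → ℝ := fun q => ((q : ℝ) - 2) * q / ((q : ℝ) - 1) ^ 2 with hw
  have hwt : ∀ h ∈ Icc 1 H, wt z (2 * (h : ℤ))
      = (∏ q ∈ s, w q) * ∑ D ∈ s.powerset, ∏ q ∈ D, if q ∣ h then 1 / ((q : ℝ) - 2) else 0 := by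
    intro h _
    unfold wt
    rw [← Finset.prod_one_add, ← Finset.prod_mul_distrib]
    apply Finset.prod_congr rfl
    intro q hq
    exact ld_factor q h (ld_three_le z q hq).1 (ld_three_le z q hq).2
  rw [Finset.sum_congr rfl hwt, ← Finset.mul_sum, Finset.sum_comm]
  have hW : 0 ≤ ∏ q ∈ s, w q := by
    apply Finset.prod_nonneg
    intro q hq
    have h5 : (3 : ℝ) ≤ q := by exact_mod_cast (ld_three_le z q hq).1
    have : (0 : ℝ) ≤ (q : ℝ) - 2 := by linarith
    simp only [hw]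
    positivity
  have hD : ∀ D ∈ s.powerset, ∑ h ∈ Icc 1 H, ∏ q ∈ D, (if q ∣ h then 1 / ((q : ℝ) - 2) else 0)
      ≤ H * ∏ q ∈ D, (1 / ((q : ℝ) * ((q : ℝ) - 2))) := by
    intro D hD
    rw [Finset.mem_powerset] at hD
    have hprime : ∀ q ∈ D, q.Prime := fun q hq => (ld_three_le z q (hD hq)).2
    have h1 : ∀ h ∈ Icc 1 H, ∏ q ∈ D, (if q ∣ h then 1 / ((q : ℝ) - 2) else 0)
        = if (∏ q ∈ D, q) ∣ h then ∏ q ∈ D, (1 / ((q : ℝ) - 2)) else 0 := by
      intro h _
      by_cases hc : (∏ q ∈ D, q) ∣ h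
      · rw [if_pos hc]
        apply Finset.prod_congr rfl
        intro q hq
        rw [if_pos ((Finset.dvd_prod_of_mem (fun q => q) hq).trans hc)]
      · rw [if_neg hc]
        have : ∃ q ∈ D, ¬ q ∣ h := by
          by_contra hcon
          push Not at hcon
          apply hc
          exact Finset.prod_primes_dvd h (fun q hq => (hprime q hq).prime) hcon
        obtain ⟨q, hq, hqh⟩ := this
        exact Finset.prod_eq_zero hq (if_neg hqh)
    rw [Finset.sum_congr rfl h1, ← Finset.sum_filter, Finset.sum_const, nsmul_eq_mul,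
      ld_count H _ (Finset.prod_pos (fun q hq => (hprime q hq).pos))]
    have h2 : ((H / (∏ q ∈ D, q) : ℕ) : ℝ) ≤ H / (∏ q ∈ D, (q : ℝ)) := by
      have := @Nat.cast_div_le ℝ _ _ _ H (∏ q ∈ D, q)
      rwa [Nat.cast_prod] at this
    have h3 : 0 ≤ ∏ q ∈ D, (1 / ((q : ℝ) - 2)) := by
      apply Finset.prod_nonneg
      intro q hq
      have h5 : (3 : ℝ) ≤ q := by exact_mod_cast (ld_three_le z q (hD hq)).1
      have : (0 : ℝ) ≤ (q : ℝ) - 2 := by linarith
      positivity
    refine le_trans (mul_le_mul_of_nonneg_right h2 h3) (le_of_eq ?_)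
    have h4 : ∏ q ∈ D, (1 / ((q : ℝ) * ((q : ℝ) - 2)))
        = (∏ q ∈ D, (1 / (q : ℝ))) * ∏ q ∈ D, (1 / ((q : ℝ) - 2)) := by
      rw [← Finset.prod_mul_distrib]
      apply Finset.prod_congr rfl
      intro q _
      rw [one_div_mul_one_div]
    rw [h4, Finset.prod_div_distrib (s := D) (f := fun _ => (1 : ℝ)) (g := fun q => (q : ℝ)),
      Finset.prod_const_one]
    ring
  refine le_trans (mul_le_mul_of_nonneg_left (Finset.sum_le_sum hD) hW) (le_of_eq ?_)
  rw [← Finset.mul_sum, ← Finset.prod_one_add]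
  have h6 : (∏ q ∈ s, w q) * ∏ q ∈ s, (1 + 1 / ((q : ℝ) * ((q : ℝ) - 2))) = 1 := by
    rw [← Finset.prod_mul_distrib]
    apply Finset.prod_eq_one
    intro q hq
    have h5 : (3 : ℝ) ≤ q := by exact_mod_cast (ld_three_le z q hq).1
    have h6 : (q : ℝ) - 1 ≠ 0 := by linarith
    have h7 : (q : ℝ) ≠ 0 := by linarith
    have h8 : (q : ℝ) - 2 ≠ 0 := by linarith
    simp only [hw]
    field_simp
    ring
  calc (∏ q ∈ s, w q) * ((H : ℝ) * ∏ q ∈ s, (1 + 1 / ((q : ℝ) * ((q : ℝ) - 2))))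
      = H * ((∏ q ∈ s, w q) * ∏ q ∈ s, (1 + 1 / ((q : ℝ) * ((q : ℝ) - 2)))) := by ring
    _ = H := by rw [h6, mul_one]

theorem ld_even (z : ℕ) (h : ℤ) : wt z (-h) = wt z h := by
  unfold wt
  apply Finset.prod_congr rfl
  intro q _
  unfold nu2
  simp only [dvd_neg]

/-- LC4: the exact average -/
theorem wt_sum_pr (z M k : ℕ) (hk : k < M) :
    ∑ k' ∈ (range M).erase k, wt z (2 * ((k : ℤ) - k')) ≤ M := by
  have hsplit : (range M).erase k = range k ∪ Ico (k + 1) M := by
    ext x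
    simp only [Finset.mem_erase, Finset.mem_range, Finset.mem_union, Finset.mem_Ico]
    omega
  have hdis : Disjoint (range k) (Ico (k + 1) M) := by
    rw [Finset.disjoint_left]
    intro x hx hx'
    rw [Finset.mem_range] at hx
    rw [Finset.mem_Ico] at hx'
    omega
  rw [hsplit, Finset.sum_union hdis]
  have h1 : ∑ k' ∈ range k, wt z (2 * ((k : ℤ) - k')) = ∑ h ∈ Icc 1 k, wt z (2 * (h : ℤ)) := by
    apply Finset.sum_nbij' (fun x => k - x) (fun h => k - h)
    · intro x hx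
      rw [Finset.mem_range] at hx
      rw [Finset.mem_Icc]
      omega
    · intro x hx
      rw [Finset.mem_Icc] at hx
      rw [Finset.mem_range]
      omega
    · intro x hx
      rw [Finset.mem_range] at hx
      omega
    · intro x hx
      rw [Finset.mem_Icc] at hx
      omega
    · intro x hx
      rw [Finset.mem_range] at hx
      have : ((k - x : ℕ) : ℤ) = (k : ℤ) - x := by omega
      rw [this]
  have h2 : ∑ k' ∈ Ico (k + 1) M, wt z (2 * ((k : ℤ) - k'))
      = ∑ h ∈ Icc 1 (M - 1 - k), wt z (2 * (h : ℤ)) := by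
    apply Finset.sum_nbij' (fun x => x - k) (fun h => k + h)
    · intro x hx
      rw [Finset.mem_Ico] at hx
      rw [Finset.mem_Icc]
      omega
    · intro x hx
      rw [Finset.mem_Icc] at hx
      rw [Finset.mem_Ico]
      omega
    · intro x hx
      rw [Finset.mem_Ico] at hx
      omega
    · intro x hx
      rw [Finset.mem_Icc] at hx
      omega
    · intro x hx
      rw [Finset.mem_Ico] at hx
      have h3 : ((x - k : ℕ) : ℤ) = (x : ℤ) - k := by omega
      rw [h3, ← ld_even z (2 * ((x : ℤ) - k))]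
      congr 1
      ring
  rw [h1, h2]
  have h3 := ld_half z k
  have h4 := ld_half z (M - 1 - k)
  have h5 : (k : ℝ) + ((M - 1 - k : ℕ) : ℝ) + 1 = M := by
    have : k + (M - 1 - k) + 1 = M := by omega
    exact_mod_cast this
  linarith

end Pool.Agent.APT

namespace Pool.Agent.APT

theorem wt_sum : type_of% @wt_sum_pr := @wt_sum_pr

end Pool.Agent.APT
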