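import Mathlib
import Pool.Agent.Lib_helper13.APT.Defs
import Pool.Agent.Lib_helper13.APTF.GA1
import Pool.Agent.Lib_helper13.APTF.GA2
import Pool.Agent.Lib_helper13.APTF.HC
import Pool.Agent.Lib_helper13.APTF.LC
import Pool.Agent.Lib_helper13.APTF.LD
import Pool.Agent.Lib_helper13.APTF.SE

/-!
# APT, block GD1 (`half_side`), helper21
-/

namespace Pool.Agent.APT

open Finset

theorem gd1_card (T : Finset ℕ) (P : ℕ → Prop) [Fintype {j // j ∈ T}] [DecidablePred P]
    (F : Finset {j // j ∈ T}) (hF : ∀ b, b ∈ F ↔ P b.1) :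
    F.card = (T.filter P).card := by
  rw [← card_map (Function.Embedding.subtype (fun j => j ∈ T))]
  congr 1
  ext x
  simp only [mem_map, mem_filter, Function.Embedding.subtype_apply, Subtype.exists, hF]
  constructor
  · rintro ⟨a, h1, h2, rfl⟩
    exact ⟨h1, h2⟩
  · rintro ⟨h1, h2⟩
    exact ⟨x, h1, h2, rfl⟩

theorem gd1_vv_le_one (z : ℕ) : VV one z ≤ 1 := by
  unfold VV
  apply prod_le_one
  · intro q hq
    have hq1 : 1 ≤ q := (mem_Icc.1 (mem_filter.1 hq).1).1
    have : (1 : ℝ) ≤ q := by exact_mod_cast hq1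
    simp only [one, Nat.cast_one]
    rw [sub_nonneg, div_le_one (by linarith)]
    exact this
  · intro q hq
    have hq1 : 1 ≤ q := (mem_Icc.1 (mem_filter.1 hq).1).1
    have : (1 : ℝ) ≤ q := by exact_mod_cast hq1
    simp only [one, Nat.cast_one]
    have : 0 ≤ 1 / (q : ℝ) := by positivity
    linarith

theorem gd1_num (y V N : ℝ) (p : ℝ) (hy : y = p * V) (hy1 : 100 ≤ y) (hV : V ≤ 1) (hV0 : 0 ≤ V)
    (hN : N ≤ (p + 1) / 2) :
    (1 + 1 / 20) * y + 2 * (1 + 1 / 20) * p * V ^ 2 * (7 / 10 * N + 3 / 10) ≤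
      (359 / 400 * y - 1) ^ 2 := by
  have hp : 0 ≤ p * V ^ 2 := by
    have : p * V ^ 2 = y * V := by rw [hy]; ring
    rw [this]; nlinarith
  have h1 : p * V ^ 2 * N ≤ p * V ^ 2 * ((p + 1) / 2) := mul_le_mul_of_nonneg_left hN hp
  have h2 : p * V ^ 2 * ((p + 1) / 2) = (y ^ 2 + y * V) / 2 := by rw [hy]; ring
  have h3 : p * V ^ 2 = y * V := by rw [hy]; ring
  have h4 : y * V ≤ y := by nlinarith
  nlinarith

open Classical in
/-- GD1: Hall for one parity class and one side (uses GA1, GA2, HC, LC3, LC4, SE). `r` is the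
orientation; `A` are the removed cross lines, `S` is a set of lines of the parity `e` -/
theorem half_side_pr : ∃ (u p₀ : ℕ), 1 ≤ u ∧ ∀ (p z : ℕ) (r : Bool), p.Prime → p₀ ≤ p → 2 ≤ z →
    z ^ u ≤ p / 20 → ∀ (s e : ℕ) (A S : Finset ℕ), e < 2 → A ⊆ Ico s (s + p / 20) →
    (∀ i ∈ S, i < p ∧ i % 2 = e) → 2 * S.card ≤ (p + 1 - e) / 2 + 1 →
    S.card ≤ ((range p \ A).filter (fun j => ∃ i ∈ S, Ro z (ent p r i j))).card := by
  obtain ⟨u1, X1, hu1, hX1, H1⟩ := line_one (1 / 20) (by norm_num)
  obtain ⟨u2, X2, hu2, hX2, H2⟩ := line_two (1 / 20) (by norm_num)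
  obtain ⟨C, hC1, HC⟩ := vv_one_ge
  refine ⟨max u1 u2, 20 * X1 + 20 + X2 + ⌈40000 * C ^ 2⌉₊ + 3, le_trans hu1 (le_max_left _ _), ?_⟩
  intro p z r hp hp0 hz hzu s e A S he hA hS hScard
  have hz1 : 1 ≤ z := by omega
  have hzu1 : z ^ u1 ≤ p / 20 := le_trans (Nat.pow_le_pow_right hz1 (le_max_left _ _)) hzu
  have hzu2 : z ^ u2 ≤ p / 20 := le_trans (Nat.pow_le_pow_right hz1 (le_max_right _ _)) hzu
  have hL : p / 20 ≤ p := Nat.div_le_self _ _
  have hzp : z < p := by
    have h1 : z ≤ z ^ u1 := Nat.le_self_pow (by omega) z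
    have : 20 ≤ p := by omega
    have h2 : p / 20 < p := Nat.div_lt_self (by omega) (by norm_num)
    omega
  have hLX : X1 ≤ p / 20 := by
    rw [Nat.le_div_iff_mul_le (by norm_num)]
    omega
  set V : ℝ := VV one z with hVdef
  set y : ℝ := p * V with hydef
  have hV1 : V ≤ 1 := gd1_vv_le_one z
  have hp20 : (20 : ℝ) ≤ p := by
    have : 20 ≤ p := by omega
    exact_mod_cast this
  have hCp : 40000 * C ^ 2 ≤ (p : ℝ) := by
    have h1 : 40000 * C ^ 2 ≤ (⌈40000 * C ^ 2⌉₊ : ℝ) := Nat.le_ceil _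
    have h2 : (⌈40000 * C ^ 2⌉₊ : ℝ) ≤ (p : ℝ) := by
      have : ⌈40000 * C ^ 2⌉₊ ≤ p := by omega
      exact_mod_cast this
    linarith
  have hlogz : 0 < Real.log z := Real.log_pos (by exact_mod_cast hz)
  have hlogzp : Real.log z ≤ Real.log p := Real.log_le_log (by positivity) (by exact_mod_cast hzp.le)
  have hV0 : 0 < V := by
    have h := (HC z hz).1
    by_contra hneg
    push Not at hneg
    have : C * Real.log z * V ≤ 0 := mul_nonpos_of_nonneg_of_nonpos (by positivity) hneg
    linarith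
  have hy100 : 100 ≤ y := by
    have h := (HC z hz).1
    have h2 : 1 ≤ C * Real.log p * V := by
      refine le_trans h ?_
      exact mul_le_mul_of_nonneg_right (mul_le_mul_of_nonneg_left hlogzp (by linarith)) hV0.le
    have h3 : Real.log p ≤ 2 * Real.sqrt p := by
      have h4 : Real.log p = 2 * Real.log (Real.sqrt p) := by
        rw [Real.log_sqrt (by linarith)]; ring
      rw [h4]
      have := Real.log_le_sub_one_of_pos (Real.sqrt_pos.2 (by linarith : (0 : ℝ) < p))
      linarith
    have h5 : 200 * C ≤ Real.sqrt p := by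
      apply Real.le_sqrt_of_sq_le
      nlinarith
    have hsq : Real.sqrt p * Real.sqrt p = p := Real.mul_self_sqrt (by linarith)
    have h6 : 0 ≤ Real.sqrt p := Real.sqrt_nonneg _
    -- 100 C log p ≤ 200 C sqrt p ≤ p
    have h7 : 100 * (C * Real.log p) ≤ p := by
      have : 100 * (C * Real.log p) ≤ 200 * C * Real.sqrt p := by
        have : C * Real.log p ≤ C * (2 * Real.sqrt p) := mul_le_mul_of_nonneg_left h3 (by linarith)
        linarith
      have h8 : 200 * C * Real.sqrt p ≤ Real.sqrt p * Real.sqrt p :=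
        mul_le_mul_of_nonneg_right h5 h6
      linarith
    have h9 : 100 * (C * Real.log p * V) ≤ p * V := by
      have := mul_le_mul_of_nonneg_right h7 hV0.le
      linarith
    rw [hydef]; linarith
  have hpodd : p % 2 = 1 := by
    rcases hp.eq_two_or_odd with h | h
    · omega
    · exact h
  -- the number of rough entries of a line
  have hone : ∀ i < p, (((range p).filter (fun j => Ro z (ent p r i j))).card : ℝ) ≤
      (1 + 1 / 20) * y ∧ (1 - 1 / 20) * y - 1 ≤
      (((range p).filter (fun j => Ro z (ent p r i j))).card : ℝ) := by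
    intro i hi
    have h := H1 p z r i 0 p hp hzp hz (by omega) (by omega) hi (by omega)
    rw [zero_add, ← range_eq_Ico] at h
    constructor
    · calc _ ≤ _ := h.1
        _ = _ := by rw [hydef]; ring
    · calc _ = (1 - 1 / 20) * (p : ℝ) * VV one z - 1 := by rw [hydef]; ring
        _ ≤ _ := h.2
  have hA' : ∀ i < p, ((((range p) ∩ A).filter (fun j => Ro z (ent p r i j))).card : ℝ) ≤
      21 / 400 * y := by
    intro i hi
    have h := (H1 p z r i (min s (p - p / 20)) (p / 20) hp hzp hz hLX hzu1 hi (by omega)).1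
    have hsub : ((range p) ∩ A).filter (fun j => Ro z (ent p r i j)) ⊆
        (Ico (min s (p - p / 20)) (min s (p - p / 20) + p / 20)).filter
          (fun j => Ro z (ent p r i j)) := by
      intro j hj
      rw [mem_filter, mem_inter, mem_range] at hj
      have h1 := mem_Ico.1 (hA hj.1.2)
      rw [mem_filter, mem_Ico]
      refine ⟨?_, hj.2⟩
      have := hj.1.1
      omega
    have h2 : ((((range p) ∩ A).filter (fun j => Ro z (ent p r i j))).card : ℝ) ≤
        (((Ico (min s (p - p / 20)) (min s (p - p / 20) + p / 20)).filter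
          (fun j => Ro z (ent p r i j))).card : ℝ) := by exact_mod_cast card_le_card hsub
    refine le_trans h2 (le_trans h ?_)
    have h3 : ((p / 20 : ℕ) : ℝ) ≤ (p : ℝ) / 20 := by
      have := @Nat.cast_div_le ℝ _ _ _ p 20
      simpa using this
    have h4 : ((p / 20 : ℕ) : ℝ) * V ≤ (p : ℝ) / 20 * V := mul_le_mul_of_nonneg_right h3 hV0.le
    rw [hydef]
    nlinarith
  -- the graph
  let α := {i : ℕ // i < p ∧ i % 2 = e}
  let T : Finset ℕ := range p \ A
  let E : α → {j // j ∈ T} → Prop := fun a b => Ro z (ent p r a.1 b.1)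
  have hcodE : ∀ a a' : α, (cod E a a').card =
      (T.filter (fun j => Ro z (ent p r a.1 j) ∧ Ro z (ent p r a'.1 j))).card := by
    intro a a'
    exact gd1_card T (fun j => Ro z (ent p r a.1 j) ∧ Ro z (ent p r a'.1 j)) _
      (fun b => by
        unfold cod
        rw [mem_filter]
        exact ⟨fun h => h.2, fun h => ⟨mem_univ _, h⟩⟩)
  have hsplit : ∀ i, ((range p).filter (fun j => Ro z (ent p r i j))).card =
      (T.filter (fun j => Ro z (ent p r i j))).card +
      (((range p) ∩ A).filter (fun j => Ro z (ent p r i j))).card := by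
    intro i
    rw [← card_union_of_disjoint]
    · congr 1
      ext j
      simp only [T, mem_union, mem_filter, mem_sdiff, mem_inter]
      tauto
    · rw [disjoint_left]
      intro j h1 h2
      simp only [T, mem_filter, mem_sdiff, mem_inter] at h1 h2
      exact h1.1.2 h2.1.2
  let S' : Finset α := S.attach.map ⟨fun i : {x // x ∈ S} => (⟨i.1, hS i.1 i.2⟩ : α),
    fun i j hij => Subtype.ext (congrArg (fun t : α => t.1) hij)⟩
  have hS'card : S'.card = S.card := by
    simp only [S', card_map, card_attach]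
  have hS'mem : ∀ a : α, a ∈ S' ↔ a.1 ∈ S := by
    intro a
    simp only [S', mem_map, mem_attach, true_and]
    constructor
    · rintro ⟨i, hi⟩
      rw [← hi]
      exact i.2
    · intro h
      exact ⟨⟨a.1, h⟩, Subtype.ext rfl⟩
  have hN : (((p + 1 - e) / 2 : ℕ) : ℝ) ≤ ((p : ℝ) + 1) / 2 := by
    have h1 : 2 * ((p + 1 - e) / 2) ≤ p + 1 := by omega
    have h2 : (2 : ℝ) * (((p + 1 - e) / 2 : ℕ) : ℝ) ≤ (p : ℝ) + 1 := by exact_mod_cast h1
    linarith
  have key := expand E ((p + 1 - e) / 2) (fun a : α => a.1 / 2)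
    (fun k k' => wt z (2 * ((k : ℤ) - k'))) (359 / 400 * y - 1) ((1 + 1 / 20) * y)
    (2 * (1 + 1 / 20) * p * V ^ 2) (by linarith) (by positivity)
    (by
      intro a b hab
      have ha := a.2.2
      have hb := b.2.2
      apply Subtype.ext
      have : a.1 / 2 = b.1 / 2 := hab
      omega)
    (by
      intro a
      have h1 := a.2.1
      have h2 := a.2.2
      show a.1 / 2 < (p + 1 - e) / 2
      omega)
    (fun i j => wt_ge z _)
    (fun i hi => wt_sum z _ i hi)
    (by
      intro a
      rw [hcodE]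
      simp only [and_self]
      have h1 := hsplit a.1
      have h2 := (hone a.1 a.2.1).2
      have h3 := hA' a.1 a.2.1
      have h4 : (((range p).filter (fun j => Ro z (ent p r a.1 j))).card : ℝ) =
        ((T.filter (fun j => Ro z (ent p r a.1 j))).card : ℝ) +
        ((((range p) ∩ A).filter (fun j => Ro z (ent p r a.1 j))).card : ℝ) := by
        exact_mod_cast h1
      linarith)
    (by
      intro a
      rw [hcodE]
      simp only [and_self]
      have h1 := hsplit a.1
      have h2 := (hone a.1 a.2.1).1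
      have h4 : (((range p).filter (fun j => Ro z (ent p r a.1 j))).card : ℝ) =
        ((T.filter (fun j => Ro z (ent p r a.1 j))).card : ℝ) +
        ((((range p) ∩ A).filter (fun j => Ro z (ent p r a.1 j))).card : ℝ) := by
        exact_mod_cast h1
      have h5 : (0 : ℝ) ≤ ((((range p) ∩ A).filter (fun j => Ro z (ent p r a.1 j))).card : ℝ) :=
        Nat.cast_nonneg _
      linarith)
    (by
      intro a a' _
      rw [hcodE]
      have h := H2 p z r a.1 a'.1 hp hzp hz (by omega) (by omega) a.2.1 a'.2.1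
        (by rw [a.2.2, a'.2.2])
      have hsub : (T.filter (fun j => Ro z (ent p r a.1 j) ∧ Ro z (ent p r a'.1 j))) ⊆
          ((range p).filter (fun j => Ro z (ent p r a.1 j) ∧ Ro z (ent p r a'.1 j))) :=
        filter_subset_filter _ sdiff_subset
      have h2 : ((T.filter (fun j => Ro z (ent p r a.1 j) ∧ Ro z (ent p r a'.1 j))).card : ℝ) ≤
          (((range p).filter (fun j => Ro z (ent p r a.1 j) ∧ Ro z (ent p r a'.1 j))).card : ℝ) := by
        exact_mod_cast card_le_card hsub
      refine le_trans h2 (le_trans h ?_)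
      have h3 : (a.1 : ℤ) - a'.1 = 2 * (((a.1 / 2 : ℕ) : ℤ) - ((a'.1 / 2 : ℕ) : ℤ)) := by
        have ha := a.2.2
        have ha' := a'.2.2
        omega
      rw [h3]
      apply le_of_eq
      ring)
    (gd1_num y V _ p hydef hy100 hV1 hV0.le hN)
    S' (by rw [hS'card]; exact hScard)
  rw [hS'card] at key
  refine le_trans key (le_of_eq ?_)
  exact gd1_card T (fun j => ∃ i ∈ S, Ro z (ent p r i j)) _ (fun b => by
    unfold nbh
    rw [mem_filter]
    constructor
    · rintro ⟨_, a, ha, hab⟩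
      exact ⟨a.1, (hS'mem a).1 ha, hab⟩
    · rintro ⟨i, hi, hib⟩
      exact ⟨mem_univ _, ⟨i, hS i hi⟩, (hS'mem ⟨i, hS i hi⟩).2 hi, hib⟩)

end Pool.Agent.APT

namespace Pool.Agent.APT

theorem half_side : type_of% @half_side_pr := @half_side_pr

end Pool.Agent.APT
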