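import Mathlib
import Pool.Agent.Lib_helper13.APT.Defs

/-!
# APT block HB: Hall's theorem from the small sets of both sides (helper8)
-/

namespace Pool.Agent.APT

open Finset

/-- HB: Hall's theorem from the small sets of both sides -/
theorem hall_half_pr {α β : Type} [Fintype α] [Fintype β] (E : α → β → Prop)
    (hc : Fintype.card α = Fintype.card β)
    (h1 : ∀ S : Finset α, 2 * S.card ≤ Fintype.card α + 1 → S.card ≤ (nbh E S).card)
    (h2 : ∀ T : Finset β, 2 * T.card ≤ Fintype.card β + 1 →
      T.card ≤ (nbh (fun b a => E a b) T).card) :
    ∃ σ : α ≃ β, ∀ a, E a (σ a) := by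
  classical
  have key : ∀ S : Finset α, S.card ≤ (univ.filter (fun b => ∃ a ∈ S, E a b)).card := by
    intro S
    by_cases hS : 2 * S.card ≤ Fintype.card α + 1
    · have := h1 S hS
      unfold nbh at this
      convert this
    · by_contra hlt
      push Not at hS hlt
      set N : Finset β := univ.filter (fun b => ∃ a ∈ S, E a b) with hN
      have hScard : S.card ≤ Fintype.card α := Finset.card_le_univ S
      have hcompl : Nᶜ.card = Fintype.card β - N.card := Finset.card_compl N
      have hge : Fintype.card α - S.card + 1 ≤ Nᶜ.card := by
        rw [hcompl, ← hc]; omega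
      obtain ⟨T', hT', hcard⟩ := Finset.exists_subset_card_eq hge
      have h2' := h2 T' (by rw [hcard, ← hc]; omega)
      have hsub : nbh (fun b a => E a b) T' ⊆ Sᶜ := by
        intro a ha
        unfold nbh at ha
        simp only [Finset.mem_filter, Finset.mem_univ, true_and] at ha
        obtain ⟨b, hb, hab⟩ := ha
        rw [Finset.mem_compl]
        intro haS
        have hbN := hT' hb
        rw [Finset.mem_compl] at hbN
        apply hbN
        rw [hN, Finset.mem_filter]
        exact ⟨Finset.mem_univ _, a, haS, hab⟩
      have h3 := Finset.card_le_card hsub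
      rw [Finset.card_compl] at h3
      omega
  obtain ⟨f, hf, hE⟩ := (Fintype.all_card_le_filter_rel_iff_exists_injective E).1
    (by intro A; convert key A)
  have hbij : Function.Bijective f :=
    (Fintype.bijective_iff_injective_and_card f).2 ⟨hf, hc⟩
  exact ⟨Equiv.ofBijective f hbij, fun a => hE a⟩

end Pool.Agent.APT

namespace Pool.Agent.APT

theorem hall_half : type_of% @hall_half_pr := @hall_half_pr

end Pool.Agent.APT
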