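import Mathlib
import Pool.Agent.Lib_helper13.APT.Defs
import Pool.Agent.Lib_helper13.APTF.GC
import Pool.Agent.Lib_helper13.APTF.GD1
import Pool.Agent.Lib_helper13.APTF.HB

/-! APT, block GD2 (helper6): completion of a matching. -/

namespace Pool.Agent.APT

open Finset

/-- the lines of the parity `e` outside `A` -/
def gd2L (p e : ℕ) (A : Finset ℕ) : Finset ℕ := (range p).filter (fun i => i % 2 = e ∧ i ∉ A)

theorem gd2_par (p e : ℕ) (he : e < 2) :
    ((range p).filter (fun i => i % 2 = e)).card = (p + 1 - e) / 2 := by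
  induction p with
  | zero => simp; omega
  | succ p ih =>
    rw [range_add_one, filter_insert]
    split_ifs with h
    · rw [card_insert_of_notMem (by simp), ih]
      omega
    · rw [ih]
      omega

theorem gd2_L_le (p e : ℕ) (he : e < 2) (A : Finset ℕ) : (gd2L p e A).card ≤ (p + 1 - e) / 2 := by
  rw [← gd2_par p e he]
  apply card_le_card
  intro i hi
  unfold gd2L at hi
  rw [mem_filter] at hi ⊢
  exact ⟨hi.1, hi.2.1⟩

theorem gd2_L_card (p e : ℕ) (he : e < 2) (A : Finset ℕ) (hA : A ⊆ range p) :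
    (gd2L p e A).card + (A.filter (fun i => i % 2 = e)).card = (p + 1 - e) / 2 := by
  rw [← gd2_par p e he]
  have h1 : gd2L p e A = ((range p).filter (fun i => i % 2 = e)) \
      (A.filter (fun i => i % 2 = e)) := by
    ext i
    unfold gd2L
    simp only [mem_filter, mem_sdiff, mem_range]
    tauto
  rw [h1]
  apply card_sdiff_add_card_eq_card
  intro i hi
  rw [mem_filter] at hi ⊢
  exact ⟨hA hi.1, hi.2⟩

theorem gd2_expand (p z : ℕ) (r : Bool) (hp : p % 2 = 1) (hz : 2 ≤ z) (e : ℕ) (he : e < 2)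
    (A B : Finset ℕ)
    (h : ∀ S : Finset ℕ, (∀ i ∈ S, i < p ∧ i % 2 = e) → 2 * S.card ≤ (p + 1 - e) / 2 + 1 →
      S.card ≤ (by classical exact
        ((range p \ A).filter (fun j => ∃ i ∈ S, Ro z (ent p r i j))).card : ℕ))
    (S : Finset {x // x ∈ gd2L p e B})
    (hS : 2 * S.card ≤ Fintype.card {x // x ∈ gd2L p e B} + 1) :
    S.card ≤ (nbh (fun (i : {x // x ∈ gd2L p e B}) (j : {x // x ∈ gd2L p e A}) =>
      Ro z (ent p r i j)) S).card := by
  classical
  have h1 : (S.image Subtype.val).card = S.card :=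
    card_image_of_injective _ Subtype.val_injective
  have hmem : ∀ i ∈ S.image Subtype.val, i < p ∧ i % 2 = e := by
    intro i hi
    rw [mem_image] at hi
    obtain ⟨x, _, rfl⟩ := hi
    have := x.2
    unfold gd2L at this
    rw [mem_filter, mem_range] at this
    exact ⟨this.1, this.2.1⟩
  have h2 : 2 * (S.image Subtype.val).card ≤ (p + 1 - e) / 2 + 1 := by
    rw [h1]
    rw [Fintype.card_coe] at hS
    have := gd2_L_le p e he B
    omega
  have h3 := h _ hmem h2
  rw [h1] at h3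
  refine h3.trans ?_
  rw [← card_image_of_injective (nbh (fun (i : {x // x ∈ gd2L p e B})
    (j : {x // x ∈ gd2L p e A}) => Ro z (ent p r i j)) S) Subtype.val_injective]
  apply card_le_card
  intro j hj
  rw [mem_filter, mem_sdiff, mem_range] at hj
  obtain ⟨⟨hjp, hjA⟩, i, hi, hij⟩ := hj
  rw [mem_image] at hi
  obtain ⟨x, hx, rfl⟩ := hi
  have hxe := (hmem x (mem_image_of_mem _ hx)).2
  have hje : j % 2 = e := by
    unfold ent at hij
    split_ifs at hij with hr
    · have := ro_parity p z x j hp hz hij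
      omega
    · have := ro_parity p z j x hp hz hij
      omega
  rw [mem_image]
  refine ⟨⟨j, ?_⟩, ?_, rfl⟩
  · unfold gd2L
    rw [mem_filter, mem_range]
    exact ⟨hjp, hje, hjA⟩
  · unfold nbh
    rw [mem_filter]
    exact ⟨mem_univ _, x, hx, hij⟩

open Classical in
theorem complete_pr : ∃ (u p₀ : ℕ), 1 ≤ u ∧ ∀ p z : ℕ, p.Prime → p₀ ≤ p → 2 ≤ z →
    z ^ u ≤ p / 20 → ∀ (M : Finset (ℕ × ℕ)) (s s' : ℕ),
    (∀ t ∈ M, t.1 < p ∧ t.2 < p ∧ Ro z (cell p t.1 t.2)) →
    (∀ t ∈ M, ∀ t' ∈ M, t.1 = t'.1 ∨ t.2 = t'.2 → t = t') →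
    (∀ t ∈ M, t.1 ∈ Ico s (s + p / 20) ∧ t.2 ∈ Ico s' (s' + p / 20)) →
    ∃ σ : Equiv.Perm (Fin p), (∀ i : Fin p, Ro z (cell p i (σ i))) ∧
      ∀ t ∈ M, ∀ i : Fin p, (i : ℕ) = t.1 → ((σ i : Fin p) : ℕ) = t.2 := by
  obtain ⟨u, p₀, hu, hH⟩ := half_side
  refine ⟨u, max p₀ 3, hu, ?_⟩
  intro p z hpp hp0 hz hzu M s s' hM1 hM2 hM3
  have hp1 : p₀ ≤ p := le_trans (le_max_left _ _) hp0
  have hp3 : 3 ≤ p := le_trans (le_max_right _ _) hp0
  have hodd : p % 2 = 1 := by
    rcases hpp.eq_two_or_odd with h | h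
    · omega
    · exact h
  set Rw : Finset ℕ := M.image Prod.fst with hRw
  set Cl : Finset ℕ := M.image Prod.snd with hCl
  have hRwp : Rw ⊆ range p := by
    intro i hi
    rw [hRw, mem_image] at hi
    obtain ⟨t, ht, rfl⟩ := hi
    exact mem_range.2 (hM1 t ht).1
  have hClp : Cl ⊆ range p := by
    intro i hi
    rw [hCl, mem_image] at hi
    obtain ⟨t, ht, rfl⟩ := hi
    exact mem_range.2 (hM1 t ht).2.1
  have hRws : Rw ⊆ Ico s (s + p / 20) := by
    intro i hi
    rw [hRw, mem_image] at hi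
    obtain ⟨t, ht, rfl⟩ := hi
    exact (hM3 t ht).1
  have hCls : Cl ⊆ Ico s' (s' + p / 20) := by
    intro i hi
    rw [hCl, mem_image] at hi
    obtain ⟨t, ht, rfl⟩ := hi
    exact (hM3 t ht).2
  have hpar : ∀ t ∈ M, t.1 % 2 = t.2 % 2 := fun t ht =>
    ro_parity p z t.1 t.2 hodd hz (hM1 t ht).2.2
  have hsame : ∀ e : ℕ, (Rw.filter (fun i => i % 2 = e)).card =
      (Cl.filter (fun i => i % 2 = e)).card := by
    intro e
    have h1 : Rw.filter (fun i => i % 2 = e) = (M.filter (fun t => t.1 % 2 = e)).image Prod.fst := by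
      rw [hRw, filter_image]
    have h2 : Cl.filter (fun i => i % 2 = e) = (M.filter (fun t => t.1 % 2 = e)).image Prod.snd := by
      rw [hCl, filter_image]
      congr 1
      apply filter_congr
      intro t ht
      rw [hpar t ht]
    rw [h1, h2, card_image_of_injOn, card_image_of_injOn]
    · intro t ht t' ht' h
      exact hM2 t (mem_filter.1 (mem_coe.1 ht)).1 t' (mem_filter.1 (mem_coe.1 ht')).1 (Or.inr h)
    · intro t ht t' ht' h
      exact hM2 t (mem_filter.1 (mem_coe.1 ht)).1 t' (mem_filter.1 (mem_coe.1 ht')).1 (Or.inl h)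
  have hpart : ∀ e : ℕ, e < 2 → ∃ g : {x // x ∈ gd2L p e Rw} ≃ {x // x ∈ gd2L p e Cl},
      ∀ i : {x // x ∈ gd2L p e Rw}, Ro z (cell p i (g i)) := by
    intro e he
    apply hall_half (fun (i : {x // x ∈ gd2L p e Rw}) (j : {x // x ∈ gd2L p e Cl}) =>
      Ro z (cell p i j))
    · rw [Fintype.card_coe, Fintype.card_coe]
      have h1 := gd2_L_card p e he Rw hRwp
      have h2 := gd2_L_card p e he Cl hClp
      have h3 := hsame e
      omega
    · intro S hS
      have := gd2_expand p z true hodd hz e he Cl Rw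
        (fun S h1 h2 => by
          have := hH p z true hpp hp1 hz hzu s' e Cl S he hCls h1 h2
          exact this) S hS
      exact this
    · intro T hT
      have := gd2_expand p z false hodd hz e he Rw Cl
        (fun S h1 h2 => by
          have := hH p z false hpp hp1 hz hzu s e Rw S he hRws h1 h2
          exact this) T hT
      exact this
  choose g hg using hpart
  have hm2 : ∀ i : ℕ, i % 2 < 2 := fun i => Nat.mod_lt _ (by norm_num)
  -- the function
  have hmemL : ∀ i : Fin p, (i : ℕ) ∉ Rw → (i : ℕ) ∈ gd2L p ((i : ℕ) % 2) Rw := by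
    intro i hi
    unfold gd2L
    rw [mem_filter, mem_range]
    exact ⟨i.2, rfl, hi⟩
  have hex : ∀ i : Fin p, ∃ j : Fin p, Ro z (cell p i j) ∧
      ((∃ t ∈ M, t.1 = (i : ℕ) ∧ t.2 = (j : ℕ)) ∨
       (∃ hi : (i : ℕ) ∉ Rw, (j : ℕ) = (g ((i : ℕ) % 2) (hm2 i) ⟨i, hmemL i hi⟩ : ℕ))) := by
    intro i
    by_cases hi : (i : ℕ) ∈ Rw
    · rw [hRw, mem_image] at hi
      obtain ⟨t, ht, hti⟩ := hi
      refine ⟨⟨t.2, (hM1 t ht).2.1⟩, ?_, Or.inl ⟨t, ht, hti, rfl⟩⟩
      rw [← hti]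
      exact (hM1 t ht).2.2
    · have h1 := (g ((i : ℕ) % 2) (hm2 i) ⟨i, hmemL i hi⟩).2
      have h2 := hg ((i : ℕ) % 2) (hm2 i) ⟨i, hmemL i hi⟩
      unfold gd2L at h1
      rw [mem_filter, mem_range] at h1
      exact ⟨⟨_, h1.1⟩, h2, Or.inr ⟨hi, rfl⟩⟩
  choose f hf1 hf2 using hex
  have hcol : ∀ i : Fin p, ∀ hi : (i : ℕ) ∉ Rw,
      ((g ((i : ℕ) % 2) (hm2 i) ⟨i, hmemL i hi⟩ : {x // x ∈ gd2L p ((i : ℕ) % 2) Cl}) : ℕ) ∉ Cl ∧
      ((g ((i : ℕ) % 2) (hm2 i) ⟨i, hmemL i hi⟩ : {x // x ∈ gd2L p ((i : ℕ) % 2) Cl}) : ℕ) % 2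
        = (i : ℕ) % 2 := by
    intro i hi
    have h1 := (g ((i : ℕ) % 2) (hm2 i) ⟨i, hmemL i hi⟩).2
    unfold gd2L at h1
    rw [mem_filter, mem_range] at h1
    exact ⟨h1.2.2, h1.2.1⟩
  have hinj : Function.Injective f := by
    intro i i' hii
    rcases hf2 i with ⟨t, ht, ht1, ht2⟩ | ⟨hi, hj⟩
    · rcases hf2 i' with ⟨t', ht', ht1', ht2'⟩ | ⟨hi', hj'⟩
      · have h1 : t.2 = t'.2 := by rw [ht2, ht2', hii]
        have h2 := hM2 t ht t' ht' (Or.inr h1)
        apply Fin.ext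
        rw [← ht1, ← ht1', h2]
      · exfalso
        apply (hcol i' hi').1
        rw [← hj', ← hii, ← ht2]
        exact mem_image_of_mem _ ht
    · rcases hf2 i' with ⟨t', ht', ht1', ht2'⟩ | ⟨hi', hj'⟩
      · exfalso
        apply (hcol i hi).1
        rw [← hj, hii, ← ht2']
        exact mem_image_of_mem _ ht'
      · have h1 : (i : ℕ) % 2 = (i' : ℕ) % 2 := by
          rw [← (hcol i hi).2, ← (hcol i' hi').2, ← hj, ← hj', hii]
        have key : ∀ (e e' : ℕ) (he : e < 2) (he' : e' < 2), e = e' →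
            ∀ (x : {x // x ∈ gd2L p e Rw})
            (x' : {x // x ∈ gd2L p e' Rw}), ((g e he x : {x // x ∈ gd2L p e Cl}) : ℕ) =
              ((g e' he' x' : {x // x ∈ gd2L p e' Cl}) : ℕ) → (x : ℕ) = (x' : ℕ) := by
          rintro e e' he he' rfl x x' hxx
          have := (g e he).injective (Subtype.ext hxx)
          rw [this]
        have h2 := key _ _ (hm2 i) (hm2 i') h1 ⟨i, hmemL i hi⟩ ⟨i', hmemL i' hi'⟩ (by rw [← hj, ← hj', hii])
        exact Fin.ext h2
  have hbij : Function.Bijective f := Finite.injective_iff_bijective.1 hinj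
  refine ⟨Equiv.ofBijective f hbij, ?_, ?_⟩
  · intro i
    exact hf1 i
  · intro t ht i hi
    change ((f i : Fin p) : ℕ) = t.2
    rcases hf2 i with ⟨t', ht', ht1', ht2'⟩ | ⟨hi', hj'⟩
    · have := hM2 t ht t' ht' (Or.inl (by rw [ht1', hi]))
      rw [this, ht2']
    · exfalso
      apply hi'
      rw [hi, hRw]
      exact mem_image_of_mem _ ht

end Pool.Agent.APT

namespace Pool.Agent.APT

theorem complete : type_of% @complete_pr := @complete_pr

end Pool.Agent.APT
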