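import Mathlib
import Pool.Agent.Lib_helper13.APT.Defs
import Pool.Agent.Lib_helper13.APTF.GD2
import Pool.Agent.Lib_helper13.APTF.GB
import Pool.Agent.Lib_helper13.APTF.PB
import Pool.Agent.Lib_helper13.APTF.GC

/-!
# Almost prime transversals (MP_6c4857_nt): the theorem
-/

namespace Pool.Agent.APT

open Finset

/-- the largest integer `z` with `z ^ u ≤ n` -/
theorem fin_root (u n : ℕ) (hu : 1 ≤ u) (hn : 1 ≤ n) : ∃ z : ℕ, z ^ u ≤ n ∧ n < (z + 1) ^ u := by
  refine ⟨Nat.nthRoot u n, ?_, ?_⟩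
  · exact Nat.pow_nthRoot_le (by omega)
  · exact Nat.lt_pow_nthRoot_add_one (by omega) n

open Classical in
theorem main : ∃ K : ℕ, 1 ≤ K ∧ ∃ c : ℝ, 0 < c ∧ ∃ p₀ : ℕ, ∀ p : ℕ, p.Prime → p₀ ≤ p →
    ∃ σ : Equiv.Perm (Fin p),
      (∀ i : Fin p, 1 < cell p i (σ i) ∧ (cell p i (σ i)).primeFactorsList.length < 2 * K ∧
        ∀ q : ℕ, q.Prime → q ∣ cell p i (σ i) → p < q ^ K) ∧
      c * p ≤ ((univ.filter (fun i : Fin p => (cell p i (σ i)).Prime)).card : ℝ) := by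
  obtain ⟨u, p₁, hu, hcomp⟩ := complete
  obtain ⟨c, hc, p₂, hpm⟩ := prime_matching
  refine ⟨2 * u, by omega, c / 484, by positivity, max (max p₁ p₂) (20 * 2 ^ u + 400), ?_⟩
  intro p hp hp0
  have h1 : p₁ ≤ p := le_trans (le_trans (le_max_left _ _) (le_max_left _ _)) hp0
  have h2 : p₂ ≤ p := le_trans (le_trans (le_max_right _ _) (le_max_left _ _)) hp0
  have h3 : 20 * 2 ^ u + 400 ≤ p := le_trans (le_max_right _ _) hp0
  have h2u : 2 ^ u ≤ p / 20 := by
    rw [Nat.le_div_iff_mul_le (by norm_num)]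
    omega
  have hL : 20 ≤ p / 20 := by omega
  obtain ⟨z, hz1, hz2⟩ := fin_root u (p / 20) hu (by omega)
  have hz : 2 ≤ z := by
    by_contra hlt
    have h4 : z + 1 ≤ 2 := by omega
    have h5 : (z + 1) ^ u ≤ 2 ^ u := Nat.pow_le_pow_left h4 u
    omega
  have hzp : z < p := by
    have h4 : z ^ 1 ≤ z ^ u := Nat.pow_le_pow_right (by omega) hu
    have h5 : z ≤ p / 20 := by simpa using le_trans h4 hz1
    omega
  obtain ⟨M₀, hM1, hM2, hM3⟩ := hpm p z hp h2 hzp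
  obtain ⟨s, s', hs⟩ := pigeon p (p / 20) (by omega) M₀ (fun t ht => ⟨(hM1 t ht).1, (hM1 t ht).2.1⟩)
  set M := M₀.filter (fun t => t.1 ∈ Ico s (s + p / 20) ∧ t.2 ∈ Ico s' (s' + p / 20)) with hM
  have hMro : ∀ t ∈ M, Ro z (cell p t.1 t.2) := by
    intro t ht
    have h4 := hM1 t (mem_filter.mp ht).1
    refine ⟨h4.2.2.1.one_lt, fun q hq hqd => ?_⟩
    rw [Pz, mem_filter, mem_Icc] at hq
    have h5 : q = cell p t.1 t.2 := (Nat.prime_dvd_prime_iff_eq hq.2 h4.2.2.1).mp hqd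
    have h6 := h4.2.2.2
    omega
  obtain ⟨σ, hσ1, hσ2⟩ := hcomp p z hp h1 hz hz1 M s s'
    (fun t ht => ⟨(hM1 t (mem_filter.mp ht).1).1, (hM1 t (mem_filter.mp ht).1).2.1, hMro t ht⟩)
    (fun t ht t' ht' => hM2 t (mem_filter.mp ht).1 t' (mem_filter.mp ht').1)
    (fun t ht => (mem_filter.mp ht).2)
  have hq2 : ∀ i : Fin p, ∀ q : ℕ, q.Prime → q ∣ cell p i (σ i) → p < q ^ (2 * u) := by
    intro i q hq hqd
    have h4 : z + 1 ≤ q := by
      by_contra hlt
      refine (hσ1 i).2 q ?_ hqd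
      rw [Pz, mem_filter, mem_Icc]
      exact ⟨⟨hq.one_le, by omega⟩, hq⟩
    have h5 : p / 20 + 1 ≤ q ^ u := le_trans hz2 (Nat.pow_le_pow_left h4 u)
    have h6 : q ^ (2 * u) = q ^ u * q ^ u := by rw [two_mul, pow_add]
    rw [h6]
    have h7 : (p / 20 + 1) * (p / 20 + 1) ≤ q ^ u * q ^ u := Nat.mul_le_mul h5 h5
    have h8 : p < 20 * (p / 20 + 1) := by omega
    have h9 : 20 * (p / 20 + 1) ≤ (p / 20 + 1) * (p / 20 + 1) :=
      Nat.mul_le_mul_right _ (by omega)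
    omega
  refine ⟨σ, fun i => ⟨(hσ1 i).1, ?_, hq2 i⟩, ?_⟩
  · exact omega_cell p (2 * u) i (σ i) (by omega) i.2 (σ i).2 (hq2 i)
  · have hdiv : p / (p / 20) + 1 ≤ 22 := by
      have h4 : p / (p / 20) ≤ 21 := by
        rw [← Nat.lt_succ_iff, Nat.div_lt_iff_lt_mul (by omega)]
        omega
      omega
    have h5 : M₀.card ≤ 484 * M.card := by
      refine le_trans hs ?_
      apply Nat.mul_le_mul_right
      calc (p / (p / 20) + 1) ^ 2 ≤ 22 ^ 2 := Nat.pow_le_pow_left hdiv 2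
        _ = 484 := by norm_num
    have h6 : M.card ≤ (univ.filter (fun i : Fin p => (cell p i (σ i)).Prime)).card := by
      apply Finset.card_le_card_of_injOn
        (fun t => if h : t.1 < p then (⟨t.1, h⟩ : Fin p) else ⟨0, hp.pos⟩)
      · intro t ht
        have ht' : t ∈ M := ht
        have h7 := hM1 t (mem_filter.mp ht').1
        simp only [h7.1, dif_pos]
        rw [mem_coe, mem_filter]
        refine ⟨mem_univ _, ?_⟩
        rw [hσ2 t ht' ⟨t.1, h7.1⟩ rfl]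
        exact h7.2.2.1
      · intro t ht t' ht' heq
        have ht1 : t ∈ M := ht
        have ht2 : t' ∈ M := ht'
        have h7 := hM1 t (mem_filter.mp ht1).1
        have h8 := hM1 t' (mem_filter.mp ht2).1
        simp only [h7.1, h8.1, dif_pos, Fin.mk.injEq] at heq
        exact hM2 t (mem_filter.mp ht1).1 t' (mem_filter.mp ht2).1 (Or.inl heq)
    have h7 : (M₀.card : ℝ) ≤ 484 * (M.card : ℝ) := by exact_mod_cast h5
    have h8 : (M.card : ℝ) ≤ ((univ.filter (fun i : Fin p => (cell p i (σ i)).Prime)).card : ℝ) := by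
      exact_mod_cast h6
    have h9 : c / 484 * p = c * p / 484 := by ring
    rw [h9, div_le_iff₀ (by norm_num)]
    linarith

end Pool.Agent.APT
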